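import Pool.Agent.SOM.Both

/-! Project SOM (MP_66ba69_lc, change of the word of a side), module DomF: contexts with two blocks, for lists. -/

set_option autoImplicit false

namespace Pool.Agent.SOM

open Pool.Agent.SOC Pool.Agent.SOD Pool.Agent.RUP Pool.Agent.SOF Pool.Agent.SOG Pool.Agent.SOJ Pool.Agent.SOV Pool.Agent.SOK Pool.Agent.SOS

variable {V : Type} [DecidableEq V] {G : SimpleGraph V}

/-! ### the mirror image -/

theorem val_rev {L R : List V} (nd : (L ++ R).Nodup) : Val G (L ++ R) ↔ Val G (L.reverse ++ R.reverse) := by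
  rw [← Val_reverse nd, List.reverse_append]
  refine Val_rotate ?_
  rw [← List.reverse_append]
  exact List.nodup_reverse.2 nd

omit [DecidableEq V] in
theorem nd_rev {L R : List V} (nd : (L ++ R).Nodup) : (L.reverse ++ R.reverse).Nodup :=
  ((List.reverse_perm L).append (List.reverse_perm R)).nodup_iff.2 nd

omit [DecidableEq V] in
theorem lrp_rev {L R : List V} {b1 b2 : V} (hB : LRp G L R [b1, b2]) (hn : R.Nodup) : LRp G L.reverse R.reverse [b2, b1] := by
  obtain ⟨sR, eR, h⟩ := hB
  have hl := h.len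
  have ar : ∀ {x}, Atd G L.reverse x ↔ Atd G L x := fun {x} => by
    constructor
    · rintro ⟨z, hz, e⟩
      exact ⟨z, List.mem_reverse.1 hz, e⟩
    · rintro ⟨z, hz, e⟩
      exact ⟨z, List.mem_reverse.2 hz, e⟩
  have sr : ∀ {x y}, SR G L.reverse x y ↔ SR G L x y := fun {x y} => by
    constructor
    · intro h z hz
      exact h z (List.mem_reverse.2 hz)
    · intro h z hz
      exact h z (List.mem_reverse.1 hz)
  match sR, hl with
  | [S1, S2], _ =>
    obtain ⟨h1, h2⟩ := h.rep (i := 0) (b := b1) rfl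
    obtain ⟨h3, h4⟩ := h.rep (i := 1) (b := b2) rfl
    have e : R = S1 ++ S2 := by rw [← eR]; simp
    have i0 : ∀ {z}, z ∈ S1.reverse → InS [S1, S2] 0 z := fun hz => ⟨S1, rfl, List.mem_reverse.1 hz⟩
    have i1 : ∀ {z}, z ∈ S2.reverse → InS [S1, S2] 1 z := fun hz => ⟨S2, rfl, List.mem_reverse.1 hz⟩
    have m1 : b1 ∈ S1.reverse := by
      obtain ⟨seg, k1, k2⟩ := h1
      have : S1 = seg := Option.some.inj k1
      rw [this]
      exact List.mem_reverse.2 k2
    have m2 : b2 ∈ S2.reverse := by
      obtain ⟨seg, k1, k2⟩ := h3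
      have : S2 = seg := Option.some.inj k1
      rw [this]
      exact List.mem_reverse.2 k2
    have ef : [S2.reverse, S1.reverse].flatten = R.reverse := by
      rw [e, List.reverse_append]
      simp
    refine ⟨[S2.reverse, S1.reverse], ef, ?_, ?_, rfl, ?_, ?_⟩
    · rw [ef]
      exact List.nodup_reverse.2 hn
    · rintro i x y ⟨s, k1, k2⟩ ⟨s', k3, k4⟩ ax ay
      rw [k1] at k3
      have es := Option.some.inj k3
      subst es
      rw [sr]
      rw [ar] at ax ay
      match i with
      | 0 =>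
        have es : S2.reverse = s := Option.some.inj k1
        rw [← es] at k2 k4
        exact h.same (i1 k2) (i1 k4) ax ay
      | 1 =>
        have es : S1.reverse = s := Option.some.inj k1
        rw [← es] at k2 k4
        exact h.same (i0 k2) (i0 k4) ax ay
      | i + 2 =>
        exact absurd k1 (by simp)
    · intro i b hb
      match i with
      | 0 =>
        have es : b2 = b := Option.some.inj hb
        subst es
        exact ⟨⟨S2.reverse, rfl, m2⟩, ar.2 h4⟩
      | 1 =>
        have es : b1 = b := Option.some.inj hb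
        subst es
        exact ⟨⟨S1.reverse, rfl, m1⟩, ar.2 h2⟩
      | i + 2 =>
        exact absurd hb (by simp)
    · intro i b c hb hc hs
      match i with
      | 0 =>
        have es : b2 = b := Option.some.inj hb
        have es' : b1 = c := Option.some.inj hc
        subst es es'
        rw [sr] at hs
        exact h.mx (i := 0) rfl rfl hs.symm
      | i + 1 =>
        exact absurd hc (by simp)

/-- the mirror image of `dom_np` -/
theorem dom_np' (f1 : RuleF) (f2 : SixF) (f3 : GlueF) {P : Prop} {L R L' : List V} {b1 b2 : V} (hE : LEp G L R) (hp : L'.Perm L)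
    (hB : LRp G L R [b1, b2]) (ty : ∀ w ∈ L, G.Adj w b2 → (G.Adj w b1 ↔ P)) {x y : V} (hx : [x, y].Sublist L)
    (e1 : G.Adj y b2) (e2 : G.Adj x b1) (e3 : ¬ G.Adj x b2) (v : Val G (L ++ R)) (v' : Val G (L' ++ [b1, b2])) :
    Val G (L' ++ R) := by
  have nd' : (L' ++ R).Nodup := (hp.append_right _).nodup_iff.2 hE.nd
  have hE' : LEp G L.reverse R.reverse := hE.mono (nd_rev hE.nd) (fun _ h => List.mem_reverse.1 h) (fun _ h => List.mem_reverse.1 h)
  have n := List.nodup_append.1 nd'
  have subB : ∀ b ∈ [b1, b2], b ∈ R := hB.cov.1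
  have nb : b1 ≠ b2 := by
    rintro rfl
    obtain ⟨sR, _, h⟩ := hB
    exact h.mx (i := 0) rfl rfl fun _ _ => Iff.rfl
  have ndB : (L' ++ [b1, b2]).Nodup := by
    rw [List.nodup_append]
    exact ⟨n.1, by simp [nb], fun a ha b hb => n.2.2 a ha b (subB b hb)⟩
  refine (val_rev nd').2 (dom_np f1 f2 f3 hE' ?_ (lrp_rev hB (List.nodup_append.1 hE.nd).2.1) (P := P) ?_ (x2 := y) (x1 := x) ?_ e1 e2 e3
    ((val_rev hE.nd).1 v) ?_)
  · exact (List.reverse_perm L').trans (hp.trans (List.reverse_perm L).symm)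
  · intro w hw
    exact ty w (List.mem_reverse.1 hw)
  · have h := List.reverse_sublist.2 hx
    simpa using h
  · have h := (val_rev ndB).1 v'
    simpa using h

/-! ### words -/

omit [DecidableEq V] in
theorem alt_pair {W : List V} {k : V → Bool} (alt : ∀ (i : ℕ) (x y : V), W[i]? = some x → W[i + 1]? = some y → k x ≠ k y)
    (ht : ∃ w ∈ W, k w = true) (hf : ∃ w ∈ W, k w = false) :
    (∃ a b, W = [a, b] ∧ k a = false ∧ k b = true) ∨ ∃ x y, [x, y].Sublist W ∧ k x = true ∧ k y = false := by
  have ne : ∀ {x y : V}, k x ≠ k y → (k x = true ∧ k y = false) ∨ (k x = false ∧ k y = true) := by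
    intro x y hn
    cases hx : k x <;> cases hy : k y
    · rw [hx, hy] at hn
      exact absurd rfl hn
    · exact Or.inr ⟨rfl, rfl⟩
    · exact Or.inl ⟨rfl, rfl⟩
    · rw [hx, hy] at hn
      exact absurd rfl hn
  match W, alt, ht, hf with
  | [], _, ht, _ =>
    obtain ⟨w, hw, _⟩ := ht
    exact absurd hw List.not_mem_nil
  | [a], _, ht, hf =>
    obtain ⟨w, hw, e⟩ := ht
    obtain ⟨w', hw', e'⟩ := hf
    rw [List.mem_singleton.1 hw] at e
    rw [List.mem_singleton.1 hw', e] at e'
    exact absurd e' (by simp)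
  | [a, b], alt, _, _ =>
    rcases ne (alt 0 _ _ rfl rfl) with h | h
    · exact Or.inr ⟨a, b, List.Sublist.refl _, h⟩
    · exact Or.inl ⟨a, b, rfl, h⟩
  | a :: b :: c :: W, alt, _, _ =>
    right
    rcases ne (alt 0 _ _ rfl rfl) with h | h
    · exact ⟨a, b, List.sublist_append_left [a, b] (c :: W), h⟩
    · rcases ne (alt 1 _ _ rfl rfl) with h' | h'
      · exact ⟨b, c, List.Sublist.cons a (List.sublist_append_left [b, c] W), h'⟩
      · rw [h.2] at h'
        exact absurd h'.1 (by simp)

end Pool.Agent.SOM
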