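import Pool.Agent.SOM.Bad

/-! Project SOM (MP_66ba69_lc, change of the word of a side), module DomN: contexts with two blocks, preparations. -/

set_option autoImplicit false

namespace Pool.Agent.SOM

open Pool.Agent.SOC Pool.Agent.SOD Pool.Agent.RUP Pool.Agent.SOF Pool.Agent.SOG Pool.Agent.SOJ Pool.Agent.SOV Pool.Agent.SOK Pool.Agent.SOS

variable {V : Type} [DecidableEq V] {G : SimpleGraph V}

section
open Classical in
omit [DecidableEq V] in
/-- blocks of a list -/
theorem sd_exi {O L : List V} (hL : L.Nodup) (he : ∃ x ∈ L, Atd G O x) :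
    ∃ segs rp, segs.flatten = L ∧ Sd G O segs rp ∧ rp.Sublist L := by
  obtain ⟨segs, rp, h1, h2, h3, _⟩ := sd_word (ad := fun x y => decide (G.Adj x y)) (fun x y => by simp) (RpB.refl (G := G) (L := L) (O := O)) hL he
  exact ⟨segs, rp, h1, h2, h3⟩
end

/-- attached vertices with different rows are adjacent -/
theorem adj_diff (f1 : RuleF) (f2 : SixF) {K D : List V} (hE : LEp G K D) (v : Val G (K ++ D)) {x y : V} (hx : x ∈ K) (hy : y ∈ K)
    (ax : Atd G D x) (ay : Atd G D y) (hn : ¬ SR G D x y) : G.Adj x y := by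
  have nd := List.nodup_append.1 hE.nd
  obtain ⟨sK, rK, eK, hK, _⟩ := sd_exi (G := G) nd.1 ⟨x, hx, ax⟩
  obtain ⟨z, hz, e⟩ := ax
  obtain ⟨sD, rD, eD, hD, _⟩ := sd_exi (G := G) (O := K) nd.2.1 ⟨z, hz, ⟨x, hx, e.symm⟩⟩
  obtain ⟨i, hi⟩ := inS_ex (x := x) (segs := sK) (by rw [eK]; exact hx)
  obtain ⟨j, hj⟩ := inS_ex (x := y) (segs := sK) (by rw [eK]; exact hy)
  have hij : i ≠ j := by
    rintro rfl
    exact hn (hK.same hi hj ⟨z, hz, e⟩ ay)
  refine (ruleL f1 f2 hE hK eK hD eD v hi hj hij ⟨z, hz, e⟩ ay).2 ?_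
  rintro ⟨h, _⟩
  exact hn h

/-- the two blocks of the other side -/
structure Two (G : SimpleGraph V) (P : Prop) (L S1 S2 : List V) (b1 b2 : V) : Prop where
  m1 : b1 ∈ S1
  m2 : b2 ∈ S2
  s1 : ∀ {z}, z ∈ S1 → Atd G L z → SR G L z b1
  s2 : ∀ {z}, z ∈ S2 → Atd G L z → SR G L z b2
  a1 : Atd G L b1
  a2 : Atd G L b2
  ne : ¬ SR G L b1 b2
  ty : ∀ w ∈ L, G.Adj w b1 → (G.Adj w b2 ↔ P)

omit [DecidableEq V] in
theorem two_of {P : Prop} {L R : List V} {b1 b2 : V} (hB : LRp G L R [b1, b2]) (ty : ∀ w ∈ L, G.Adj w b1 → (G.Adj w b2 ↔ P)) :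
    ∃ S1 S2, R = S1 ++ S2 ∧ Two G P L S1 S2 b1 b2 := by
  obtain ⟨sR, eR, h⟩ := hB
  have hl := h.len
  match sR, hl with
  | [S1, S2], _ =>
    obtain ⟨h1, h2⟩ := h.rep (i := 0) (b := b1) rfl
    obtain ⟨h3, h4⟩ := h.rep (i := 1) (b := b2) rfl
    have i0 : ∀ {z}, z ∈ S1 → InS [S1, S2] 0 z := fun hz => ⟨S1, rfl, hz⟩
    have i1 : ∀ {z}, z ∈ S2 → InS [S1, S2] 1 z := fun hz => ⟨S2, rfl, hz⟩
    refine ⟨S1, S2, by rw [← eR]; simp, ?_, ?_, ?_, ?_, h2, h4, ?_, ty⟩
    · obtain ⟨seg, k1, k2⟩ := h1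
      have : S1 = seg := Option.some.inj k1
      rwa [this]
    · obtain ⟨seg, k1, k2⟩ := h3
      have : S2 = seg := Option.some.inj k1
      rwa [this]
    · exact fun hz ha => h.same (i0 hz) h1 ha h2
    · exact fun hz ha => h.same (i1 hz) h3 ha h4
    · exact h.mx (i := 0) rfl rfl

open Classical in
/-- the class of a vertex -/
noncomputable def kb (G : SimpleGraph V) (b1 w : V) : Bool := decide (G.Adj w b1)

omit [DecidableEq V] in
theorem kb_t {b1 w : V} : kb G b1 w = true ↔ G.Adj w b1 := @decide_eq_true_iff _ (Classical.propDecidable _)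

omit [DecidableEq V] in
theorem kb_f {b1 w : V} : kb G b1 w = false ↔ ¬ G.Adj w b1 := by
  rw [← kb_t, Bool.not_eq_true]

section
variable {P : Prop} {L S1 S2 : List V} {b1 b2 : V}

omit [DecidableEq V] in
/-- attached vertices which are not adjacent to the first block are adjacent to the second block -/
theorem Two.oth (h : Two G P L S1 S2 b1 b2) {w : V} (hw : w ∈ L) (ha : Atd G (S1 ++ S2) w) (n : ¬ G.Adj w b1) : G.Adj w b2 := by
  obtain ⟨z, hz, e⟩ := ha
  rcases List.mem_append.1 hz with hz | hz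
  · exact absurd ((h.s1 hz ⟨w, hw, e.symm⟩ w hw).1 e.symm).symm n
  · exact ((h.s2 hz ⟨w, hw, e.symm⟩ w hw).1 e.symm).symm

omit [DecidableEq V] in
theorem Two.lt (h : Two G P L S1 S2 b1 b2) {w : V} (hw : w ∈ L) (ha : Atd G (S1 ++ S2) w) :
    Lt G P (Atd G L) S1 S2 (kb G b1 w) w where
  r1 := by
    intro z hz
    rw [kb_t]
    constructor
    · intro e
      exact ⟨((h.s1 hz ⟨w, hw, e.symm⟩ w hw).1 e.symm).symm, w, hw, e.symm⟩
    · rintro ⟨e, a⟩
      exact ((h.s1 hz a w hw).2 e.symm).symm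
  r2 := by
    intro z hz
    rw [kb_f]
    constructor
    · intro e
      refine ⟨?_, w, hw, e.symm⟩
      have e2 := ((h.s2 hz ⟨w, hw, e.symm⟩ w hw).1 e.symm).symm
      by_cases e1 : G.Adj w b1
      · exact Or.inr ((h.ty w hw e1).1 e2)
      · exact Or.inl e1
    · rintro ⟨e, a⟩
      refine ((h.s2 hz a w hw).2 ?_).symm
      by_cases e1 : G.Adj w b1
      · exact ((h.ty w hw e1).2 (e.resolve_left fun n => n e1)).symm
      · exact (h.oth hw ha e1).symm

theorem Two.rs (f1 : RuleF) (f2 : SixF) (h : Two G P L S1 S2 b1 b2) (hE : LEp G L (S1 ++ S2)) (v : Val G (L ++ (S1 ++ S2))) :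
    Rs G P (Atd G L) S1 S2 where
  cl := by
    intro _ a b ha hb aa ab
    refine adj_diff f1 f2 hE.symm ((Val_rotate hE.nd).1 v) (List.mem_append_right _ ha) (List.mem_append_left _ hb) aa ab ?_
    intro hs
    exact h.ne ((h.s1 hb ab).symm.trans (hs.symm.trans (h.s2 ha aa)))
  ex := ⟨b1, h.m1, h.a1⟩

omit [DecidableEq V] in
/-- the adjacency of two representatives -/
theorem Two.rule (h : Two G P L S1 S2 b1 b2) {L' : List V} (hm : ∀ x, x ∈ L' ↔ x ∈ L) {x1 : V} (h1 : x1 ∈ L) (e2 : G.Adj x1 b2)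
    (e3 : ¬ G.Adj x1 b1) {x y : V} (hx : x ∈ L) (hy : y ∈ L) (ax : Atd G (S1 ++ S2) x) (ay : Atd G (S1 ++ S2) y) :
    RlL G L' [b1, b2] x y ↔ LA P (kb G b1 x) (kb G b1 y) := by
  unfold RlL LA
  by_cases ex : G.Adj x b1 <;> by_cases ey : G.Adj y b1
  · have kx := kb_t.2 ex
    have ky := kb_t.2 ey
    rw [kx, ky]
    by_cases hP : P
    · refine ⟨fun _ => Or.inr ⟨rfl, rfl, hP⟩, fun _ => ?_⟩
      rintro ⟨_, g⟩
      refine g x1 ((hm x1).2 h1) ⟨b2, by simp, e2⟩ ⟨?_, b1, by simp, ex, e3⟩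
      intro w hw _
      simp only [List.mem_cons, List.not_mem_nil, or_false] at hw
      rcases hw with rfl | rfl
      · exact ex
      · exact (h.ty x hx ex).2 hP
    · constructor
      · intro g
        exfalso
        refine g ⟨?_, ?_⟩
        · intro z hz
          simp only [List.mem_cons, List.not_mem_nil, or_false] at hz
          rcases hz with rfl | rfl
          · exact ⟨fun _ => ey, fun _ => ex⟩
          · exact ⟨fun e => absurd ((h.ty x hx ex).1 e) hP, fun e => absurd ((h.ty y hy ey).1 e) hP⟩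
        · rintro z hz ⟨u, hu, eu⟩ ⟨g1, w, hw, g2, g3⟩
          simp only [List.mem_cons, List.not_mem_nil, or_false] at hw hu
          have nx2 : ¬ G.Adj x b2 := fun e => hP ((h.ty x hx ex).1 e)
          rcases hw with rfl | rfl
          · rcases hu with rfl | rfl
            · exact g3 eu
            · exact nx2 (g1 _ (by simp) eu)
          · exact nx2 g2
      · rintro (g | ⟨_, _, g⟩)
        · exact absurd rfl g
        · exact absurd g hP
  · rw [kb_t.2 ex, kb_f.2 ey]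
    refine ⟨fun _ => Or.inl (by simp), fun _ => ?_⟩
    rintro ⟨g, _⟩
    exact ey ((g b1 (by simp)).1 ex)
  · rw [kb_f.2 ex, kb_t.2 ey]
    refine ⟨fun _ => Or.inl (by simp), fun _ => ?_⟩
    rintro ⟨g, _⟩
    exact ex ((g b1 (by simp)).2 ey)
  · rw [kb_f.2 ex, kb_f.2 ey]
    constructor
    · intro g
      exfalso
      refine g ⟨?_, ?_⟩
      · intro z hz
        simp only [List.mem_cons, List.not_mem_nil, or_false] at hz
        rcases hz with rfl | rfl
        · exact ⟨fun e => absurd e ex, fun e => absurd e ey⟩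
        · exact ⟨fun _ => h.oth hy ay ey, fun _ => h.oth hx ax ex⟩
      · rintro z hz ⟨u, hu, eu⟩ ⟨g1, w, hw, g2, g3⟩
        simp only [List.mem_cons, List.not_mem_nil, or_false] at hw hu
        rcases hu with rfl | rfl
        · exact ex (g1 _ (by simp) eu)
        · rcases hw with rfl | rfl
          · exact ex g2
          · exact g3 eu
    · rintro (g | ⟨g, _⟩)
      · exact absurd rfl g
      · exact absurd g (by simp)

end

end Pool.Agent.SOM
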