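import Pool.Agent.SOM.Push

/-! Project SOM (MP_66ba69_lc, change of the word of a side), module Arr: from the word 21 to other words. -/

set_option autoImplicit false

namespace Pool.Agent.SOM

open Pool.Agent.SOC Pool.Agent.SOD Pool.Agent.RUP Pool.Agent.SOF Pool.Agent.SOG Pool.Agent.SOJ Pool.Agent.SOV Pool.Agent.SOK Pool.Agent.SOS

variable {V : Type} [DecidableEq V] {G : SimpleGraph V}

theorem map_if {A : List V} {x w : V} (h : x ∉ A) : A.map (fun v => if v = x then w else v) = A := by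
  induction A with
  | nil => rfl
  | cons a A ih =>
    rw [List.mem_cons, not_or] at h
    rw [List.map_cons, if_neg (fun e => h.1 e.symm), ih h.2]

/-- rename one vertex -/
theorem val_ren {A : List V} {x w : V} (h1 : x ∉ A) (h2 : w ∉ A) (tw : ∀ z ∈ A, (G.Adj x z ↔ G.Adj w z)) (v : Val G (x :: A)) :
    Val G (w :: A) := by
  have key : ∀ a ∈ x :: A, ∀ b ∈ x :: A, (fun v => if v = x then w else v) a = (fun v => if v = x then w else v) b → a = b := by
    intro a ha b hb
    simp only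
    by_cases ea : a = x <;> by_cases eb : b = x
    · intro _
      rw [ea, eb]
    · rw [if_pos ea, if_neg eb]
      rintro rfl
      exact absurd ((List.mem_cons.1 hb).resolve_left eb) h2
    · rw [if_neg ea, if_pos eb]
      rintro rfl
      exact absurd ((List.mem_cons.1 ha).resolve_left ea) h2
    · rw [if_neg ea, if_neg eb]
      exact id
  have h := (Val_map (G' := G) (G := G) (l := x :: A) (f := fun v => if v = x then w else v) key (by
    intro a ha b hb
    by_cases ea : a = x <;> by_cases eb : b = x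
    · rw [if_pos ea, if_pos eb, ea, eb]
      exact ⟨fun h => absurd h G.irrefl, fun h => absurd h G.irrefl⟩
    · rw [if_pos ea, if_neg eb, ea]
      exact tw b ((List.mem_cons.1 hb).resolve_left eb)
    · rw [if_neg ea, if_pos eb, eb, G.adj_comm, G.adj_comm a w]
      exact tw a ((List.mem_cons.1 ha).resolve_left ea)
    · rw [if_neg ea, if_neg eb])).1 v
  rw [List.map_cons, if_pos rfl, map_if h1] at h
  exact h

/-- a twin directly before its original -/
theorem val_dup' {B : List V} {u v : V} (nd : (u :: v :: B).Nodup) (tw : ∀ z ∈ B, (G.Adj u z ↔ G.Adj v z)) (h : Val G (v :: B)) :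
    Val G (u :: v :: B) := by
  have nd' := nd
  simp only [List.nodup_cons, List.mem_cons, not_or] at nd'
  exact val_dup nd tw (val_ren nd'.2.1 nd'.1.2 (fun z hz => (tw z hz).symm) h)

theorem val_swap {A : List V} {x y : V} (nd : (x :: y :: A).Nodup) (v : Val G (x :: y :: A)) : Val G (y :: (A ++ [x])) := by
  have h := (Val_rotate (G := G) (l₁ := [x]) (l₂ := y :: A) nd).1 v
  exact h

/-- the row of a vertex of the class `b` -/
structure Lt (G : SimpleGraph V) (P : Prop) (A : V → Prop) (R1 R2 : List V) (b : Bool) (w : V) : Prop where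
  r1 : ∀ {z}, z ∈ R1 → (G.Adj w z ↔ (b = true ∧ A z))
  r2 : ∀ {z}, z ∈ R2 → (G.Adj w z ↔ ((b = false ∨ P) ∧ A z))

omit [DecidableEq V] in
theorem Lt.tw {P : Prop} {A : V → Prop} {R1 R2 : List V} {b : Bool} {w x : V} (h : Lt G P A R1 R2 b w) (h' : Lt G P A R1 R2 b x) :
    ∀ z ∈ R1 ++ R2, (G.Adj w z ↔ G.Adj x z) := by
  intro z hz
  rcases List.mem_append.1 hz with hz | hz
  · rw [h.r1 hz, h'.r1 hz]
  · rw [h.r2 hz, h'.r2 hz]

/-- adjacent classes -/
def LA (P : Prop) (b b' : Bool) : Prop := b ≠ b' ∨ (b = true ∧ b' = true ∧ P)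

/-- the other side -/
structure Rs (G : SimpleGraph V) (P : Prop) (A : V → Prop) (R1 R2 : List V) : Prop where
  cl : P → ∀ {a b}, a ∈ R2 → b ∈ R1 → A a → A b → G.Adj a b
  ex : ∃ b ∈ R1, A b

section
variable {P : Prop} {A : V → Prop} {R1 R2 E1 E2 : List V} {s p : V}

omit [DecidableEq V] in
theorem mkF4 (hP : P) (hR : Rs G P A R1 R2) (ls : Lt G P A R1 R2 false s) (lp : Lt G P A R1 R2 true p)
    (l1 : ∀ z ∈ E1, Lt G P A R1 R2 false z) (l2 : ∀ z ∈ E2, Lt G P A R1 R2 true z) (sp : G.Adj s p)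
    (s1 : ∀ z ∈ E1, ¬ G.Adj s z) (p2 : ∀ z ∈ E2, G.Adj p z) (s2 : ∀ z ∈ E2, G.Adj s z)
    (e : ∀ z ∈ E2, ∀ y ∈ E1, G.Adj z y) : F4 G s p (E1 ++ R1) (R2 ++ E2) where
  adj := sp
  sub := by
    intro z hz h
    rcases hz with hz | hz
    · rcases List.mem_append.1 hz with hz | hz
      · exact absurd h (s1 z hz)
      · have := (ls.r1 hz).1 h
        simp at this
    · rcases List.mem_append.1 hz with hz | hz
      · exact (lp.r2 hz).2 ⟨Or.inr hP, ((ls.r2 hz).1 h).2⟩
      · exact p2 z hz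
  n1 := by
    intro z hz h
    rcases List.mem_append.1 hz with hz | hz
    · exact s1 z hz h
    · have := (ls.r1 hz).1 h
      simp at this
  n2 := by
    intro z hz h
    rcases List.mem_append.1 hz with hz | hz
    · exact (ls.r2 hz).2 ⟨Or.inl rfl, ((lp.r2 hz).1 h).2⟩
    · exact s2 z hz
  cl := by
    intro a b ha hb h1 h2
    rcases List.mem_append.1 ha with ha | ha <;> rcases List.mem_append.1 hb with hb | hb
    · exact (((l1 b hb).r2 ha).2 ⟨Or.inl rfl, ((ls.r2 ha).1 h1).2⟩).symm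
    · exact hR.cl hP ha hb ((ls.r2 ha).1 h1).2 ((lp.r1 hb).1 h2).2
    · exact e a ha b hb
    · exact ((l2 a ha).r1 hb).2 ⟨rfl, ((lp.r1 hb).1 h2).2⟩
  f := by
    obtain ⟨b, hb, h⟩ := hR.ex
    exact ⟨b, List.mem_append_right _ hb, (lp.r1 hb).2 ⟨rfl, h⟩⟩

omit [DecidableEq V] in
theorem mkF2 (hP : ¬ P) (ls : Lt G P A R1 R2 false s) (lp : Lt G P A R1 R2 true p) (sp : G.Adj s p)
    (s1 : ∀ z ∈ E1, ¬ G.Adj s z) (p2 : ∀ z ∈ E2, ¬ G.Adj p z) : F2 G s p (E1 ++ R1) (R2 ++ E2) where
  adj := sp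
  n1 := by
    intro z hz h
    rcases List.mem_append.1 hz with hz | hz
    · exact s1 z hz h
    · have := (ls.r1 hz).1 h
      simp at this
  n2 := by
    intro z hz h
    rcases List.mem_append.1 hz with hz | hz
    · have := (lp.r2 hz).1 h
      simp [hP] at this
    · exact p2 z hz h

/-- exchange -/
theorem flipV (hR : Rs G P A R1 R2) (ls : Lt G P A R1 R2 false s) (lp : Lt G P A R1 R2 true p)
    (l1 : ∀ z ∈ E1, Lt G P A R1 R2 false z) (l2 : ∀ z ∈ E2, Lt G P A R1 R2 true z) (sp : G.Adj s p)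
    (s1 : ∀ z ∈ E1, ¬ G.Adj s z) (p2 : ∀ z ∈ E2, (G.Adj p z ↔ P)) (s2 : ∀ z ∈ E2, G.Adj s z)
    (e : ∀ z ∈ E2, ∀ y ∈ E1, G.Adj z y) (nd : (p :: s :: ((E1 ++ R1) ++ (R2 ++ E2))).Nodup)
    (v : Val G (p :: s :: ((E1 ++ R1) ++ (R2 ++ E2)))) : Val G (s :: p :: ((E1 ++ R1) ++ (R2 ++ E2))) := by
  by_cases hP : P
  · obtain ⟨T, hT, _⟩ := flip4L nd (mkF4 hP hR ls lp l1 l2 sp s1 (fun z hz => (p2 z hz).2 hP) s2 e) v
    exact ⟨T, hT⟩
  · exact flip2L nd (mkF2 hP ls lp sp s1 (fun z hz h => hP ((p2 z hz).1 h))) v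

/-- rename two vertices -/
theorem val_ren2 {A : List V} {x y w z : V} (xy : x ≠ y) (wz : w ≠ z) (h1 : x ∉ A) (h2 : y ∉ A) (h3 : w ∉ A) (h4 : z ∉ A)
    (t1 : ∀ a ∈ A, (G.Adj x a ↔ G.Adj w a)) (t2 : ∀ a ∈ A, (G.Adj y a ↔ G.Adj z a)) (t3 : G.Adj x y ↔ G.Adj w z)
    (v : Val G (x :: y :: A)) : Val G (w :: z :: A) := by
  have fx : (fun v => if v = x then w else if v = y then z else v) x = w := if_pos rfl
  have fy : (fun v => if v = x then w else if v = y then z else v) y = z := by
    show (if y = x then w else if y = y then z else y) = z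
    rw [if_neg xy.symm, if_pos rfl]
  have fa : ∀ a ∈ A, (fun v => if v = x then w else if v = y then z else v) a = a := by
    intro a ha
    show (if a = x then w else if a = y then z else a) = a
    rw [if_neg (by rintro rfl; exact h1 ha), if_neg (by rintro rfl; exact h2 ha)]
  generalize (fun v => if v = x then w else if v = y then z else v) = f at fx fy fa
  have hc : ∀ a ∈ x :: y :: A, a = x ∨ a = y ∨ a ∈ A := by
    intro a ha
    simpa using ha
  have key : ∀ a ∈ x :: y :: A, ∀ b ∈ x :: y :: A, f a = f b → a = b := by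
    intro a ha b hb
    rcases hc a ha with rfl | rfl | ha' <;> rcases hc b hb with rfl | rfl | hb'
    · exact fun _ => rfl
    · rw [fx, fy]
      exact fun e => absurd e wz
    · rw [fx, fa b hb']
      exact fun e => absurd (by rw [e]; exact hb') h3
    · rw [fx, fy]
      exact fun e => absurd e.symm wz
    · exact fun _ => rfl
    · rw [fy, fa b hb']
      exact fun e => absurd (by rw [e]; exact hb') h4
    · rw [fx, fa a ha']
      exact fun e => absurd (by rw [← e]; exact ha') h3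
    · rw [fy, fa a ha']
      exact fun e => absurd (by rw [← e]; exact ha') h4
    · rw [fa a ha', fa b hb']
      exact id
  have irr : ∀ {a b : V}, G.Adj a a ↔ G.Adj b b := ⟨fun h => absurd h G.irrefl, fun h => absurd h G.irrefl⟩
  have h := (Val_map (G' := G) (G := G) (l := x :: y :: A) (f := f) key (by
    intro a ha b hb
    rcases hc a ha with rfl | rfl | ha' <;> rcases hc b hb with rfl | rfl | hb'
    · exact irr
    · rw [fx, fy]
      exact t3
    · rw [fx, fa b hb']
      exact t1 b hb'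
    · rw [fx, fy, G.adj_comm, G.adj_comm z w]
      exact t3
    · exact irr
    · rw [fy, fa b hb']
      exact t2 b hb'
    · rw [fx, fa a ha', G.adj_comm, G.adj_comm a w]
      exact t1 a ha'
    · rw [fy, fa a ha', G.adj_comm, G.adj_comm a z]
      exact t2 a ha'
    · rw [fa a ha', fa b hb'])).1 v
  rw [List.map_cons, List.map_cons, fx, fy, List.map_congr_left fa, List.map_id'] at h
  exact h

end

end Pool.Agent.SOM
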