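import Pool.Agent.SOM.Arr

/-! Project SOM (MP_66ba69_lc, change of the word of a side), module Words: the words 12, 121, 212, 2121. -/

set_option autoImplicit false

namespace Pool.Agent.SOM

open Pool.Agent.SOC Pool.Agent.SOD Pool.Agent.RUP Pool.Agent.SOF Pool.Agent.SOG Pool.Agent.SOJ Pool.Agent.SOV Pool.Agent.SOK Pool.Agent.SOS

variable {V : Type} [DecidableEq V] {G : SimpleGraph V} {P : Prop} {A : V → Prop} {R1 R2 : List V}

/-- the word 21 is valid -/
structure Bs (G : SimpleGraph V) (P : Prop) (A : V → Prop) (R1 R2 : List V) (x2 x1 : V) : Prop where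
  rs : Rs G P A R1 R2
  l2 : Lt G P A R1 R2 true x2
  l1 : Lt G P A R1 R2 false x1
  adj : G.Adj x2 x1
  nd : (x2 :: x1 :: (R1 ++ R2)).Nodup
  val : Val G (x2 :: x1 :: (R1 ++ R2))

variable {x2 x1 : V}

theorem w21 (h : Bs G P A R1 R2 x2 x1) {a b : V} (la : Lt G P A R1 R2 true a) (lb : Lt G P A R1 R2 false b) (ab : G.Adj a b)
    (nd : (a :: b :: (R1 ++ R2)).Nodup) : Val G (a :: b :: (R1 ++ R2)) := by
  have h1 := h.nd
  simp only [List.nodup_cons, List.mem_cons, not_or] at h1 nd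
  exact val_ren2 h1.1.1 nd.1.1 h1.1.2 h1.2.1 nd.1.2 nd.2.1 (h.l2.tw la) (h.l1.tw lb) ⟨fun _ => ab, fun _ => h.adj⟩ h.val

theorem w12 (h : Bs G P A R1 R2 x2 x1) {a b : V} (la : Lt G P A R1 R2 false a) (lb : Lt G P A R1 R2 true b) (ab : G.Adj a b)
    (nd : (a :: b :: (R1 ++ R2)).Nodup) : ∃ T, Vl G (a :: b :: (R1 ++ R2)) T ∧ (P → Un G (R1 ++ R2) [a, b] T) := by
  have nd' : (b :: a :: (R1 ++ R2)).Nodup := by
    have h1 := nd
    simp only [List.nodup_cons, List.mem_cons, not_or] at h1 ⊢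
    exact ⟨⟨fun e => h1.1.1 e.symm, h1.2.1⟩, h1.1.2, h1.2.2⟩
  have v := w21 h lb la ab.symm nd'
  by_cases hP : P
  · have hF := mkF4 (E1 := []) (E2 := []) hP h.rs la lb (by simp) (by simp) ab (by simp) (by simp) (by simp) (by simp)
    rw [List.nil_append, List.append_nil] at hF
    obtain ⟨T, h1, h2⟩ := flip4L nd' hF v
    exact ⟨T, h1, fun _ => h2⟩
  · have hF := mkF2 (E1 := []) (E2 := []) hP la lb ab (by simp) (by simp)
    rw [List.nil_append, List.append_nil] at hF
    obtain ⟨T, h1⟩ := flip2L nd' hF v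
    exact ⟨T, h1, fun h => absurd h hP⟩

theorem w121 (h : Bs G P A R1 R2 x2 x1) {a b c : V} (la : Lt G P A R1 R2 false a) (lb : Lt G P A R1 R2 true b)
    (lc : Lt G P A R1 R2 false c) (ab : G.Adj a b) (bc : G.Adj b c) (ac : ¬ G.Adj a c)
    (nd : (a :: b :: c :: (R1 ++ R2)).Nodup) : Val G (a :: b :: c :: (R1 ++ R2)) := by
  have e0 := nd
  simp only [List.nodup_cons, List.mem_cons, not_or] at e0
  obtain ⟨⟨n1, n2, n3⟩, ⟨n4, n5⟩, n6, n7⟩ := e0
  -- b c R
  have v1 : Val G (b :: c :: (R1 ++ R2)) := w21 h lb lc bc (by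
    simp only [List.nodup_cons, List.mem_cons, not_or]
    exact ⟨⟨n4, n5⟩, n6, n7⟩)
  have v2 := val_swap (by
    simp only [List.nodup_cons, List.mem_cons, not_or]
    exact ⟨⟨n4, n5⟩, n6, n7⟩) v1
  have v3 : Val G (a :: c :: (R1 ++ R2 ++ [b])) := by
    refine val_dup' ?_ ?_ v2
    · have e : (a :: c :: (R1 ++ R2 ++ [b])).Perm (a :: b :: c :: (R1 ++ R2)) := by
        refine List.Perm.cons a ?_
        rw [← List.cons_append]
        exact List.perm_append_comm
      exact e.nodup_iff.2 nd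
    · intro z hz
      rcases List.mem_append.1 hz with hz | hz
      · exact la.tw lc z hz
      · rw [List.mem_singleton.1 hz]
        exact ⟨fun _ => bc.symm, fun _ => ab⟩
  have v4 : Val G (b :: a :: c :: (R1 ++ R2)) := by
    have h1 := (Val_rotate (G := G) (l₁ := a :: c :: (R1 ++ R2)) (l₂ := [b]) (by
      have e : (a :: c :: (R1 ++ R2) ++ [b]).Perm (a :: b :: c :: (R1 ++ R2)) := by
        rw [List.cons_append]
        exact List.Perm.cons a List.perm_append_comm
      exact e.nodup_iff.2 nd)).1 v3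
    exact h1
  have v5 := flipV (E1 := [c]) (E2 := []) h.rs la lb (by simpa using lc) (by simp) ab (by simpa using ac) (by simp) (by simp) (by simp)
    (by
      simp only [List.append_nil, List.cons_append, List.nil_append]
      exact (List.Perm.swap a b _).nodup_iff.2 nd) (by simpa using v4)
  simpa using v5

theorem w212 (h : Bs G P A R1 R2 x2 x1) {a b c : V} (la : Lt G P A R1 R2 true a) (lb : Lt G P A R1 R2 false b)
    (lc : Lt G P A R1 R2 true c) (ab : G.Adj a b) (bc : G.Adj b c) (ac : G.Adj a c ↔ P)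
    (nd : (a :: b :: c :: (R1 ++ R2)).Nodup) : Val G (a :: b :: c :: (R1 ++ R2)) := by
  have e0 := nd
  simp only [List.nodup_cons, List.mem_cons, not_or] at e0
  obtain ⟨⟨n1, n2, n3⟩, ⟨n4, n5⟩, n6, n7⟩ := e0
  have v1 : Val G (a :: b :: (R1 ++ R2)) := w21 h la lb ab (by
    simp only [List.nodup_cons, List.mem_cons, not_or]
    exact ⟨⟨n1, n3⟩, n5, n7⟩)
  have nd2 : (a :: c :: b :: (R1 ++ R2)).Nodup := (List.Perm.cons a (List.Perm.swap b c _)).nodup_iff.2 nd
  have v2 : Val G (a :: c :: b :: (R1 ++ R2)) := by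
    refine val_dup nd2 ?_ v1
    intro z hz
    rcases List.mem_cons.1 hz with hz | hz
    · rw [hz]
      exact ⟨fun _ => bc.symm, fun _ => ab⟩
    · exact la.tw lc z hz
  have v3 : Val G (c :: b :: (R1 ++ R2 ++ [a])) := val_swap nd2 v2
  have nd3 : (c :: b :: (R1 ++ R2 ++ [a])).Nodup := by
    have e : (c :: b :: (R1 ++ R2) ++ [a]).Perm (a :: c :: b :: (R1 ++ R2)) := List.perm_append_comm
    exact e.nodup_iff.2 nd2
  have v4 := flipV (E1 := []) (E2 := [a]) h.rs lb lc (by simp) (by simpa using la) bc (by simp)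
    (by
      intro z hz
      rw [List.mem_singleton.1 hz, G.adj_comm]
      exact ac) (by simpa using ab.symm) (by simp) (by simpa using nd3) (by simpa using v3)
  have v5 : Val G ((b :: c :: (R1 ++ R2)) ++ [a]) := by simpa using v4
  exact (Val_rotate (G := G) (l₁ := b :: c :: (R1 ++ R2)) (l₂ := [a]) (by
    have e : ((b :: c :: (R1 ++ R2)) ++ [a]).Perm (a :: b :: c :: (R1 ++ R2)) := List.perm_append_comm
    exact e.nodup_iff.2 nd)).1 v5

theorem w2121 (h : Bs G P A R1 R2 x2 x1) {a b c d : V} (la : Lt G P A R1 R2 true a) (lb : Lt G P A R1 R2 false b)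
    (lc : Lt G P A R1 R2 true c) (ld : Lt G P A R1 R2 false d) (ab : G.Adj a b) (bc : G.Adj b c) (ac : G.Adj a c ↔ P)
    (ad : G.Adj a d) (cd : G.Adj c d) (bd : ¬ G.Adj b d)
    (nd : (a :: b :: c :: d :: (R1 ++ R2)).Nodup) : Val G (a :: b :: c :: d :: (R1 ++ R2)) := by
  have e0 := nd
  simp only [List.nodup_cons, List.mem_cons, not_or] at e0
  obtain ⟨⟨n1, n2, n3, n4⟩, ⟨n5, n6, n7⟩, ⟨n8, n9⟩, n10, n11⟩ := e0
  have v1 : Val G (a :: d :: (R1 ++ R2)) := w21 h la ld ad (by
    simp only [List.nodup_cons, List.mem_cons, not_or]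
    exact ⟨⟨n3, n4⟩, n10, n11⟩)
  have nd2 : (a :: c :: d :: (R1 ++ R2)).Nodup := by
    simp only [List.nodup_cons, List.mem_cons, not_or]
    exact ⟨⟨n2, n3, n4⟩, ⟨n8, n9⟩, n10, n11⟩
  have v2 : Val G (a :: c :: d :: (R1 ++ R2)) := by
    refine val_dup nd2 ?_ v1
    intro z hz
    rcases List.mem_cons.1 hz with hz | hz
    · rw [hz]
      exact ⟨fun _ => cd, fun _ => ad⟩
    · exact la.tw lc z hz
  have v3 : Val G (d :: (R1 ++ R2 ++ [a, c])) :=
    (Val_rotate (G := G) (l₁ := [a, c]) (l₂ := d :: (R1 ++ R2)) nd2).1 v2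
  have v4 : Val G (b :: d :: (R1 ++ R2 ++ [a, c])) := by
    refine val_dup' ?_ ?_ v3
    · have e : ([b, d] ++ (R1 ++ R2) ++ [a, c]).Perm ([a, c] ++ ([b, d] ++ (R1 ++ R2))) := List.perm_append_comm
      have e2 : ([a, c] ++ ([b, d] ++ (R1 ++ R2))).Perm (a :: b :: c :: d :: (R1 ++ R2)) := List.Perm.cons a (List.Perm.swap b c _)
      exact (e.trans e2).nodup_iff.2 nd
    · intro z hz
      rcases List.mem_append.1 hz with hz | hz
      · exact lb.tw ld z hz
      · rcases List.mem_cons.1 hz with hz | hz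
        · rw [hz]
          exact ⟨fun _ => ad.symm, fun _ => ab.symm⟩
        · rw [List.mem_singleton.1 hz]
          exact ⟨fun _ => cd.symm, fun _ => bc⟩
  have nd3 : (c :: b :: d :: (R1 ++ R2 ++ [a])).Nodup := by
    have e : ([c, b, d] ++ (R1 ++ R2) ++ [a]).Perm ([a] ++ ([c, b, d] ++ (R1 ++ R2))) := List.perm_append_comm
    have e2 : ([a] ++ ([c, b, d] ++ (R1 ++ R2))).Perm (a :: b :: c :: d :: (R1 ++ R2)) := List.Perm.cons a (List.Perm.swap b c _)
    exact (e.trans e2).nodup_iff.2 nd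
  have v5 : Val G (c :: b :: d :: (R1 ++ R2 ++ [a])) := by
    have h1 := (Val_rotate (G := G) (l₁ := b :: d :: (R1 ++ R2 ++ [a])) (l₂ := [c]) (by
      have e : ((b :: d :: (R1 ++ R2 ++ [a])) ++ [c]).Perm (c :: b :: d :: (R1 ++ R2 ++ [a])) := List.perm_append_comm
      exact e.nodup_iff.2 nd3)).1 (by simpa using v4)
    exact h1
  have v6 := flipV (E1 := [d]) (E2 := [a]) h.rs lb lc (by simpa using ld) (by simpa using la) bc (by simpa using bd)
    (by
      intro z hz
      rw [List.mem_singleton.1 hz, G.adj_comm]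
      exact ac) (by simpa using ab.symm) (by simpa using ad) (by simpa using nd3) (by simpa using v5)
  have v7 : Val G ((b :: c :: d :: (R1 ++ R2)) ++ [a]) := by simpa using v6
  exact (Val_rotate (G := G) (l₁ := b :: c :: d :: (R1 ++ R2)) (l₂ := [a]) (by
    have e : ((b :: c :: d :: (R1 ++ R2)) ++ [a]).Perm (a :: b :: c :: d :: (R1 ++ R2)) := List.perm_append_comm
    exact e.nodup_iff.2 nd)).1 v7

end Pool.Agent.SOM
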