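import Pool.Agent.SOM.RefW
import Pool.Agent.SOM.Words

/-! Project SOM (MP_66ba69_lc, change of the word of a side), module Bad: the word 1212 is not valid. -/

set_option autoImplicit false

namespace Pool.Agent.SOM

open Pool.Agent.SOC Pool.Agent.SOD Pool.Agent.RUP Pool.Agent.SOF Pool.Agent.SOG Pool.Agent.SOJ Pool.Agent.SOV Pool.Agent.SOK Pool.Agent.SOS

theorem fin6_enum : IsEnum ([0, 1, 2, 3, 4, 5] : List (Fin 6)) := ⟨by decide, by decide⟩

variable {V : Type} [DecidableEq V] {G : SimpleGraph V}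

omit [DecidableEq V] in
theorem map6 {a b c d e f : V} : ([0, 1, 2, 3, 4, 5] : List (Fin 6)).map ![a, b, c, d, e, f] = [a, b, c, d, e, f] := rfl

omit [DecidableEq V] in
theorem inj6 {a b c d e f : V} (nd : [a, b, c, d, e, f].Nodup) : Function.Injective ![a, b, c, d, e, f] := by
  have h1 : (List.ofFn ![a, b, c, d, e, f]).Nodup := by
    simpa [List.ofFn_succ] using nd
  exact List.nodup_ofFn.1 h1

theorem val6 {a b c d e f : V} (nd : [a, b, c, d, e, f].Nodup) (v : Val G [a, b, c, d, e, f]) :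
    ∃ T, QT (G.comap ![a, b, c, d, e, f]) (CrD ([0, 1, 2, 3, 4, 5] : List (Fin 6))) T := by
  have hi := inj6 nd
  rw [← map6] at v
  have v' := (Val_map (G' := G.comap ![a, b, c, d, e, f]) (G := G) (f := ![a, b, c, d, e, f]) (fun _ _ _ _ h => hi h)
    (fun _ _ _ _ => Iff.rfl)).2 v
  obtain ⟨T, hT⟩ := (Val_enum fin6_enum).1 v'
  exact ⟨T, Pool.Agent.RUP.qt_crD hT⟩

/-- the word 1212 is not valid -/
theorem no1212 {a b c d r t : V} {P : Prop} (nd : [a, b, c, d, r, t].Nodup) (v : Val G [a, b, c, d, r, t])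
    (ab : G.Adj a b) (ac : ¬ G.Adj a c) (ad : G.Adj a d) (ar : ¬ G.Adj a r) (at' : G.Adj a t) (bc : G.Adj b c)
    (bd : G.Adj b d ↔ P) (br : G.Adj b r) (bt : G.Adj b t ↔ P) (cd : G.Adj c d) (cr : ¬ G.Adj c r) (ct : G.Adj c t)
    (dr : G.Adj d r) (dt : G.Adj d t ↔ P) (rt : G.Adj r t) : False := by
  obtain ⟨T, q⟩ := val6 nd v
  have n6 : ([0, 1, 2, 3, 4, 5] : List (Fin 6)).Nodup := by decide
  by_cases hP : P
  · refine rw4 (crD_sepr fin6_enum) q n6 ?_ ?_ ?_ ?_ ?_ ?_ ?_ ?_ ?_ ?_ ?_ ?_ ?_ ?_ ?_ ab ac ad ar at' bc (bd.2 hP) br (bt.2 hP) cd cr ct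
      dr (dt.2 hP) rt
    all_goals (unfold CrD Cross SOC.Btw; decide)
  · refine rw2 (crD_sepr fin6_enum) q n6 ?_ ?_ ?_ ?_ ?_ ?_ ?_ ?_ ?_ ?_ ?_ ?_ ?_ ?_ ?_ ab ac ad ar at' bc (fun h => hP (bd.1 h)) br
      (fun h => hP (bt.1 h)) cd cr ct dr (fun h => hP (dt.1 h)) rt
    all_goals (unfold CrD Cross SOC.Btw; decide)

end Pool.Agent.SOM
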