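import Pool.Agent.SOM.DomM
import Pool.Agent.SOK.RepN

/-! Project SOM (MP_66ba69_lc, change of the word of a side), module Both: locks and gadgets, for lists. -/

set_option autoImplicit false

namespace Pool.Agent.SOM

open Pool.Agent.SOC Pool.Agent.SOD Pool.Agent.RUP Pool.Agent.SOF Pool.Agent.SOG Pool.Agent.SOJ Pool.Agent.SOV Pool.Agent.SOK Pool.Agent.SOS
open Pool.Agent.SOE (EPC)

variable {V : Type} [DecidableEq V] {G : SimpleGraph V}

/-- one of the sides is not locked -/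
theorem both_l (f4 : BothF) {L R W B : List V} (hE : LEp G L R) {sL sR : List (List V)} (eL : sL.flatten = L) (eR : sR.flatten = R)
    (hL : Sd G R sL W) (hR : Sd G L sR B) {T : V → V → V → V → Prop} (hT : Vl G (L ++ R) T) {p s q r : V}
    (h : (W = [s, p] ∧ B = [r, q]) ∨ (W = [p, s] ∧ B = [q, r])) (a1 : G.Adj p q) (a2 : G.Adj p r) (a3 : G.Adj s q)
    (a4 : ¬ G.Adj s r) : Un G L B T ∨ Un G R W T := by
  obtain ⟨K', D', hl⟩ := lft_ex (G := G) hE.nd
  generalize hG' : G.comap (Subtype.val : {v // v ∈ L ++ R} → V) = G' at hl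
  generalize (Subtype.val : {v // v ∈ L ++ R} → V) = f at hl hG'
  obtain ⟨sL', W', g1, g2, g3, g4⟩ := hl.seg hL eL
  obtain ⟨sR', B', k1, k2, k3, k4⟩ := hl.seg' hR eR
  have v1 := Vl.pull (G' := G') (l' := K' ++ D') hT hl.inj (by rw [List.map_append, hl.mK, hl.mD]) hE.nd (fun a _ b _ => hl.adj a b)
  have e : restr G' {v | v ∈ K' ++ D'} = G' := by
    ext a b
    simp only [restr, Set.mem_ofPred_eq]
    exact ⟨fun h => h.1, fun h => ⟨h, hl.en.2 a, hl.en.2 b⟩⟩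
  unfold Vl at v1
  rw [e] at v1
  have hE' : EPC G' {x | x ∈ K'} := hl.epc hE
  have cs : CutS (cutL G' K' D' sL' sR') G' (K' ++ D') := ⟨hl.en, cutL_ok hl.en g4 k4 g3 k3, cutL_bi hl.en g4 k4 g3 k3,
    cutL_mx (sR := sR') hl.en g4 g3 k3⟩
  have mL : ∀ {x}, x ∈ L → ∃ y ∈ K', f y = x := fun hx => by
    rw [← hl.mK] at hx
    obtain ⟨y, h1, h2⟩ := List.mem_map.1 hx
    exact ⟨y, h1, h2⟩
  have mR : ∀ {x}, x ∈ R → ∃ y, ¬ y ∈ K' ∧ f y = x := fun hx => by
    rw [← hl.mD] at hx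
    obtain ⟨y, h1, h2⟩ := List.mem_map.1 hx
    exact ⟨y, fun h => (List.nodup_append.1 hl.en.1).2.2 y h y h1 rfl, h2⟩
  have mW : ∀ {x}, x ∈ W → x ∈ L := fun hx => by
    obtain ⟨i, hi⟩ := List.mem_iff_getElem?.1 hx
    rw [← eL]
    exact inS_mem (hL.rep hi).1
  have mB : ∀ {x}, x ∈ B → x ∈ R := fun hx => by
    obtain ⟨i, hi⟩ := List.mem_iff_getElem?.1 hx
    rw [← eR]
    exact inS_mem (hR.rep hi).1
  obtain ⟨p', s', q', r', hwb, rfl, rfl, rfl, rfl⟩ : ∃ p' s' q' r', ((W' = [s', p'] ∧ B' = [r', q']) ∨ (W' = [p', s'] ∧ B' = [q', r'])) ∧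
      f p' = p ∧ f s' = s ∧ f q' = q ∧ f r' = r := by
    rcases h with ⟨rfl, rfl⟩ | ⟨rfl, rfl⟩
    · obtain ⟨s', t1, rfl, x1, x2⟩ := List.map_eq_cons_iff.1 g2
      obtain ⟨p', t2, rfl, x3, x4⟩ := List.map_eq_cons_iff.1 x2
      obtain ⟨r', t3, rfl, x5, x6⟩ := List.map_eq_cons_iff.1 k2
      obtain ⟨q', t4, rfl, x7, x8⟩ := List.map_eq_cons_iff.1 x6
      rw [List.map_eq_nil_iff] at x4 x8
      subst x4 x8
      exact ⟨p', s', q', r', Or.inl ⟨rfl, rfl⟩, x3, x1, x7, x5⟩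
    · obtain ⟨p', t1, rfl, x1, x2⟩ := List.map_eq_cons_iff.1 g2
      obtain ⟨s', t2, rfl, x3, x4⟩ := List.map_eq_cons_iff.1 x2
      obtain ⟨q', t3, rfl, x5, x6⟩ := List.map_eq_cons_iff.1 k2
      obtain ⟨r', t4, rfl, x7, x8⟩ := List.map_eq_cons_iff.1 x6
      rw [List.map_eq_nil_iff] at x4 x8
      subst x4 x8
      exact ⟨p', s', q', r', Or.inr ⟨rfl, rfl⟩, x1, x3, x5, x7⟩
  have lk := llk_lock hl.en g3 k3 hwb g4 k4 ((hl.adj _ _).2 a1) ((hl.adj _ _).2 a2) ((hl.adj _ _).2 a3)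
    (fun e => a4 ((hl.adj _ _).1 e))
  rcases f4 cs (cutL_mx' (sL := sL') hl.en k4 g3 k3) hE' (Pool.Agent.RUP.qt_crD v1) lk with hu | hu
  · left
    intro q0 hq r0 hr p0 hp s0 hs x0 hx e1 e2 ht
    obtain ⟨q1, y1, rfl⟩ := mR (mB hq)
    obtain ⟨r1, y2, rfl⟩ := mR (mB hr)
    obtain ⟨p1, y3, rfl⟩ := mL hp
    obtain ⟨s1, y4, rfl⟩ := mL hs
    obtain ⟨x1, y5, rfl⟩ := mL hx
    exact hu q1 p1 s1 x1 r1 y1 y2 y3 y4 y5 ((hl.adj _ _).2 e1) (fun e => e2 ((hl.adj _ _).1 e))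
      ⟨⟨hl.en.2 _, hl.en.2 _, hl.en.2 _, hl.en.2 _⟩, ht⟩
  · right
    intro q0 hq r0 hr p0 hp s0 hs x0 hx e1 e2 ht
    obtain ⟨q1, y1, rfl⟩ := mL (mW hq)
    obtain ⟨r1, y2, rfl⟩ := mL (mW hr)
    obtain ⟨p1, y3, rfl⟩ := mR hp
    obtain ⟨s1, y4, rfl⟩ := mR hs
    obtain ⟨x1, y5, rfl⟩ := mR hx
    exact hu q1 p1 s1 x1 r1 y1 y2 y3 y4 y5 ((hl.adj _ _).2 e1) (fun e => e2 ((hl.adj _ _).1 e))
      ⟨⟨hl.en.2 _, hl.en.2 _, hl.en.2 _, hl.en.2 _⟩, ht⟩

/-- if the structure is not locked on the first side, then there is a structure with the gadget -/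
theorem gad_l {L R W B : List V} (hE : LEp G L R) {sL sR : List (List V)} (eL : sL.flatten = L) (eR : sR.flatten = R)
    (hL : Sd G R sL W) (hR : Sd G L sR B) {T : V → V → V → V → Prop} (v1 : Vl G (L ++ B) T) {p s q r : V}
    (h : (W = [s, p] ∧ B = [r, q]) ∨ (W = [p, s] ∧ B = [q, r]))
    (a1 : G.Adj p q) (a2 : G.Adj p r) (a3 : G.Adj s q) (a4 : ¬ G.Adj s r) (hu : Un G L B T) :
    Val (extG G B) (ctx1 L B) ∨ Val (extG G B) (ctx2 L B) := by
  have nd := List.nodup_append.1 hE.nd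
  have nm : ∀ {x : V}, x ∈ R → ¬ x ∈ L := fun h h' => nd.2.2 _ h' _ h rfl
  have mB : ∀ {x}, x ∈ B → x ∈ R := fun hx => by
    obtain ⟨i, hi⟩ := List.mem_iff_getElem?.1 hx
    rw [← eR]
    exact inS_mem (hR.rep hi).1
  have mW : ∀ {x}, x ∈ W → x ∈ L := fun hx => by
    obtain ⟨i, hi⟩ := List.mem_iff_getElem?.1 hx
    rw [← eL]
    exact inS_mem (hL.rep hi).1
  have qr : q ≠ r := fun e => a4 (e ▸ a3)
  have qB : q ∈ B := by rcases h with ⟨rfl, rfl⟩ | ⟨rfl, rfl⟩ <;> simp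
  have rB : r ∈ B := by rcases h with ⟨rfl, rfl⟩ | ⟨rfl, rfl⟩ <;> simp
  have sW : s ∈ W := by rcases h with ⟨rfl, rfl⟩ | ⟨rfl, rfl⟩ <;> simp
  have qR : q ∈ R := mB qB
  have rR : r ∈ R := mB rB
  have sL0 : s ∈ L := mW sW
  have hm : (L ++ B).Nodup := by
    rw [List.nodup_append]
    refine ⟨nd.1, ?_, fun a ha b hb => nd.2.2 a ha b (mB hb)⟩
    rcases h with ⟨rfl, rfl⟩ | ⟨rfl, rfl⟩
    · simp [qr.symm]
    · simp [qr]
  -- rows of the members of L
  have rowT : ∀ x ∈ L, Atd G R x → SR G R x p ∨ SR G R x s := by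
    intro x hx ax
    rcases h with ⟨rfl, rfl⟩ | ⟨rfl, rfl⟩
    · rcases in_two hL (x := x) (by rw [eL]; exact hx) with g | g
      · exact Or.inr (hL.same g (hL.rep (i := 0) (b := s) rfl).1 ax (hL.rep (i := 0) (b := s) rfl).2)
      · exact Or.inl (hL.same g (hL.rep (i := 1) (b := p) rfl).1 ax (hL.rep (i := 1) (b := p) rfl).2)
    · rcases in_two hL (x := x) (by rw [eL]; exact hx) with g | g
      · exact Or.inl (hL.same g (hL.rep (i := 0) (b := p) rfl).1 ax (hL.rep (i := 0) (b := p) rfl).2)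
      · exact Or.inr (hL.same g (hL.rep (i := 1) (b := s) rfl).1 ax (hL.rep (i := 1) (b := s) rfl).2)
  have row : ∀ x ∈ L, G.Adj x r → G.Adj x q := by
    intro x hx e
    rcases rowT x hx ⟨r, rR, e⟩ with g | g
    · exact (g q qR).2 a1
    · exact absurd ((g r rR).1 e) a4
  have adj : ∀ x ∈ L, G.Adj x r → G.Adj s x := by
    intro x hx e
    have xs : x ≠ s := fun e' => a4 (e' ▸ e)
    rcases hE.rig hx rR sL0 qR e a3 xs qr.symm with ⟨h1, _⟩ | ⟨_, h1⟩
    · exact h1.symm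
    · exact absurd h1.symm a4
  have unl : ∀ p s x, p ∈ L → s ∈ L → x ∈ L → G.Adj p r → ¬ G.Adj s r → ¬ T q x p s :=
    fun p s x hp hs' hx e ne h' => hu q qB r rB p hp s hs' x hx e ne h'
  rcases h with ⟨rfl, rfl⟩ | ⟨rfl, rfl⟩
  · left
    obtain ⟨i1, i2, i3⟩ := idx2 (K := L) (a := r) (b := q) hm
    have ho := gord1 hm
    have pos : ∀ a s', a ∈ L → G.Adj a r → s' ∈ L → G.Adj s' q → ¬ G.Adj s' r → L.idxOf s' < L.idxOf a := by
      intro a s' ha e hs' e' ne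
      rcases in_two hL (x := a) (by rw [eL]; exact ha) with g | g
      · exact absurd ((hL.same g (hL.rep (i := 0) (b := s) rfl).1 ⟨r, rR, e⟩ ⟨q, qR, a3⟩ r rR).1 e) a4
      · rcases in_two hL (x := s') (by rw [eL]; exact hs') with g' | g'
        · rw [← eL]
          exact inS_lt hL.nd g' g (by omega)
        · exact absurd ((hL.same g' (hL.rep (i := 1) (b := p) rfl).1 ⟨q, qR, e'⟩ ⟨q, qR, a1⟩ r rR).2 a2) ne
    have hG : GHyp G L q r s (L ++ [r, q]) T := by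
      refine ⟨v1, ho.memm, nm qR, nm rR, sL0, a3, a4, row, adj, ?_, ?_, unl⟩
      · intro a s' ha e hs' e' ne
        have y := pos a s' ha e hs' e' ne
        have z1 := i1 a ha
        have z2 := i1 s' hs'
        unfold Cross SOC.Btw
        omega
      · intro a a' ha ha' e e' hne
        have y1 := pos a s ha e sL0 a3 a4
        have y2 := pos a' s ha' e' sL0 a3 a4
        have z1 := i1 a ha
        have z2 := i1 a' ha'
        have z3 := i1 s sL0
        have z4 : L.idxOf a ≠ L.idxOf a' := fun e3 => hne ((List.idxOf_inj ha).1 e3)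
        unfold Cross SOC.Btw
        omega
    exact hG.gad ho fun x => by simp [or_comm]
  · right
    obtain ⟨i1, i2, i3⟩ := idx2 (K := L) (a := q) (b := r) hm
    have ho := gord2 hm
    have pos : ∀ a s', a ∈ L → G.Adj a r → s' ∈ L → G.Adj s' q → ¬ G.Adj s' r → L.idxOf a < L.idxOf s' := by
      intro a s' ha e hs' e' ne
      rcases in_two hL (x := a) (by rw [eL]; exact ha) with g | g
      · rcases in_two hL (x := s') (by rw [eL]; exact hs') with g' | g'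
        · exact absurd ((hL.same g' (hL.rep (i := 0) (b := p) rfl).1 ⟨q, qR, e'⟩ ⟨q, qR, a1⟩ r rR).2 a2) ne
        · rw [← eL]
          exact inS_lt hL.nd g g' (by omega)
      · exact absurd ((hL.same g (hL.rep (i := 1) (b := s) rfl).1 ⟨r, rR, e⟩ ⟨q, qR, a3⟩ r rR).1 e) a4
    have hG : GHyp G L q r s (L ++ [q, r]) T := by
      refine ⟨v1, ho.memm, nm qR, nm rR, sL0, a3, a4, row, adj, ?_, ?_, unl⟩
      · intro a s' ha e hs' e' ne
        have y := pos a s' ha e hs' e' ne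
        have z1 := i1 a ha
        have z2 := i1 s' hs'
        unfold Cross SOC.Btw
        omega
      · intro a a' ha ha' e e' hne
        have y1 := pos a s ha e sL0 a3 a4
        have y2 := pos a' s ha' e' sL0 a3 a4
        have z1 := i1 a ha
        have z2 := i1 a' ha'
        have z3 := i1 s sL0
        have z4 : L.idxOf a ≠ L.idxOf a' := fun e3 => hne ((List.idxOf_inj ha).1 e3)
        unfold Cross SOC.Btw
        omega
    exact hG.gad ho fun x => by simp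

/-- the same word -/
theorem dom_sw (f1 : RuleF) (f2 : SixF) (f3 : GlueF) (f4 : BothF) {L R L' : List V} {b1 b2 : V} (hE : LEp G L R) (hp : L'.Perm L)
    (hB : LRp G L R [b1, b2]) (sB : [b1, b2].Sublist R) (hA : ∃ x ∈ L, Atd G R x) {ad : V → V → Bool}
    (had : ∀ x y, ad x y = true ↔ G.Adj x y) (hw : wordF ad [b1, b2] L' = wordF ad [b1, b2] L)
    (hg : (Val (extG G [b1, b2]) (ctx1 L [b1, b2]) ∨ Val (extG G [b1, b2]) (ctx2 L [b1, b2])) →
      (Val (extG G [b1, b2]) (ctx1 L' [b1, b2]) ∨ Val (extG G [b1, b2]) (ctx2 L' [b1, b2])))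
    (v : Val G (L ++ R)) (v' : Val G (L' ++ [b1, b2])) : Val G (L' ++ R) := by
  have hm : ∀ x, x ∈ L' ↔ x ∈ L := fun x => hp.mem_iff
  have nd := List.nodup_append.1 hE.nd
  have nd' : (L' ++ R).Nodup := (hp.append_right _).nodup_iff.2 hE.nd
  have hE' : LEp G L' R := hE.mono nd' (fun x hx => (hm x).1 hx) (fun _ h => h)
  obtain ⟨sR, eR, hR⟩ := hB
  have rp := rpB_of_sd hR eR
  obtain ⟨sL, W, eL, hL, hWs, hWw, _⟩ := sd_word had rp nd.1 hA
  have hA' : ∃ x ∈ L', Atd G R x := by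
    obtain ⟨x, hx, h⟩ := hA
    exact ⟨x, (hm x).2 hx, h⟩
  obtain ⟨sL', W', eL', hL', hWs', hWw', _⟩ := sd_word had (rp.mem hm) (List.nodup_append.1 nd').1 hA'
  have hlen : W.length = W'.length := by
    have e := congrArg List.length (hWw.trans (hw.symm.trans hWw'.symm))
    rwa [List.length_map, List.length_map] at e
  have lw : LWr G R L' W := by
    refine ⟨sL', W', eL', hL', hlen, hWs.nodup nd.1, fun w hw => (hm w).2 (hWs.subset hw), ?_⟩
    intro i w x h1 h2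
    have e1 : (W.map (rowF ad [b1, b2]))[i]? = some (rowF ad [b1, b2] w) := by rw [List.getElem?_map, h1]; rfl
    have e2 : (W'.map (rowF ad [b1, b2]))[i]? = some (rowF ad [b1, b2] x) := by rw [List.getElem?_map, h2]; rfl
    rw [hWw, ← hw, ← hWw', e2] at e1
    have e3 := rowF_eq.1 (Option.some.inj e1)
    refine rp.row w (hWs.subset (List.mem_of_getElem? h1)) x ((hm x).1 (hWs'.subset (List.mem_of_getElem? h2))) fun z hz => ?_
    rw [← had, ← had, e3 z hz]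
  obtain ⟨T, hT⟩ := v
  have v2 := Vl.sub hT (List.Sublist.append hWs (List.Sublist.refl R)) hE.nd
  have hB' : LRp G L' R [b1, b2] := ⟨sR, eR, hR.mem hm⟩
  obtain ⟨T1, k1⟩ := v'
  by_cases hk : LLk G W [b1, b2]
  · obtain ⟨p, s, q, r, hWB, a1, a2, a3, a4⟩ := hk
    rcases both_l f4 hE eL eR hL hR hT hWB a1 a2 a3 a4 with hu | hu
    · have v1 := Vl.sub hT (List.Sublist.append (List.Sublist.refl L) sB) hE.nd
      have g := hg (gad_l hE eL eR hL hR v1 hWB a1 a2 a3 a4 (Un.mono hu fun a b c d h => h.2))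
      have hn : (L' ++ [b1, b2]).Nodup := (List.Sublist.append (List.Sublist.refl L') sB).nodup nd'
      obtain ⟨T1', g1, g2⟩ : ∃ T, Vl G (L' ++ [b1, b2]) T ∧ Un G L' [b1, b2] T := by
        rcases g with g | g
        · exact un_ctx1 hn g
        · exact un_ctx2 hn g
      exact glueL f1 f2 f3 hE' hB' lw g1 v2 fun _ => Or.inl g2
    · exact glueL f1 f2 f3 hE' hB' lw k1 v2 fun _ => Or.inr (Un.mono hu fun a b c d h => h.2)
  · exact glueL f1 f2 f3 hE' hB' lw k1 v2 fun h => absurd h hk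

end Pool.Agent.SOM
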