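import Pool.Agent.SOM.DomN

/-! Project SOM (MP_66ba69_lc, change of the word of a side), module Core: all words from the word 21. -/

set_option autoImplicit false

namespace Pool.Agent.SOM

open Pool.Agent.SOC Pool.Agent.SOD Pool.Agent.RUP Pool.Agent.SOF Pool.Agent.SOG Pool.Agent.SOJ Pool.Agent.SOV Pool.Agent.SOK Pool.Agent.SOS

variable {V : Type} [DecidableEq V] {G : SimpleGraph V}

/-- the facts about the representatives -/
structure Wf (G : SimpleGraph V) (P : Prop) (A : V → Prop) (S1 S2 : List V) (k : V → Bool) (W : List V) : Prop where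
  nd : (W ++ (S1 ++ S2)).Nodup
  alt : ∀ {i : ℕ} {x y : V}, W[i]? = some x → W[i + 1]? = some y → k x ≠ k y
  adj : ∀ {i j : ℕ} {x y : V}, W[i]? = some x → W[j]? = some y → i ≠ j → (G.Adj x y ↔ LA P (k x) (k y))
  lt : ∀ w ∈ W, Lt G P A S1 S2 (k w) w
  t : ∃ w ∈ W, k w = true
  f : ∃ w ∈ W, k w = false
  bad : ∀ {a b c d}, [a, b, c, d].Sublist W → k a = false → k b = true → k c = false → k d = true → False

theorem core_w {P : Prop} {A : V → Prop} {S1 S2 W : List V} {x2 x1 : V} {k : V → Bool} (bs : Bs G P A S1 S2 x2 x1)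
    (h : Wf G P A S1 S2 k W) : ∃ T, Vl G (W ++ (S1 ++ S2)) T ∧
      (∀ a b, W = [a, b] → k a = false → P → Un G (S1 ++ S2) W T) := by
  have ltt : ∀ {w}, w ∈ W → k w = true → Lt G P A S1 S2 true w := fun hw e => by
    have := h.lt _ hw
    rwa [e] at this
  have ltf : ∀ {w}, w ∈ W → k w = false → Lt G P A S1 S2 false w := fun hw e => by
    have := h.lt _ hw
    rwa [e] at this
  have ne : ∀ {x y : V}, k x ≠ k y → (k x = true ∧ k y = false) ∨ (k x = false ∧ k y = true) := by
    intro x y hn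
    cases hx : k x <;> cases hy : k y
    · rw [hx, hy] at hn
      exact absurd rfl hn
    · exact Or.inr ⟨rfl, rfl⟩
    · exact Or.inl ⟨rfl, rfl⟩
    · rw [hx, hy] at hn
      exact absurd rfl hn
  have at1 : ∀ {i j : ℕ} {x y : V}, W[i]? = some x → W[j]? = some y → i ≠ j → k x ≠ k y → G.Adj x y := fun hi hj hij hn =>
    (h.adj hi hj hij).2 (Or.inl hn)
  have at2 : ∀ {i j : ℕ} {x y : V}, W[i]? = some x → W[j]? = some y → i ≠ j → k x = true → k y = true → (G.Adj x y ↔ P) := by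
    intro i j x y hi hj hij e1 e2
    rw [h.adj hi hj hij, e1, e2]
    constructor
    · rintro (g | ⟨_, _, g⟩)
      · exact absurd rfl g
      · exact g
    · exact fun g => Or.inr ⟨rfl, rfl, g⟩
  have at3 : ∀ {i j : ℕ} {x y : V}, W[i]? = some x → W[j]? = some y → i ≠ j → k x = false → k y = false → ¬ G.Adj x y := by
    intro i j x y hi hj hij e1 e2
    rw [h.adj hi hj hij, e1, e2]
    rintro (g | ⟨g, _⟩)
    · exact absurd rfl g
    · exact absurd g (by simp)
  match W, h with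
  | [], h =>
    obtain ⟨w, hw, _⟩ := h.t
    exact absurd hw List.not_mem_nil
  | [a], h =>
    obtain ⟨w, hw, e⟩ := h.t
    obtain ⟨w', hw', e'⟩ := h.f
    rw [List.mem_singleton.1 hw] at e
    rw [List.mem_singleton.1 hw', e] at e'
    exact absurd e' (by simp)
  | [a, b], h =>
    rcases ne (h.alt (i := 0) rfl rfl) with ⟨ka, kb⟩ | ⟨ka, kb⟩
    · obtain ⟨T, hT⟩ := w21 bs (ltt (by simp) ka) (ltf (by simp) kb) (at1 (i := 0) (j := 1) rfl rfl (by omega) (by rw [ka, kb]; simp)) h.nd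
      refine ⟨T, hT, ?_⟩
      intro a' b' e ka' _
      simp only [List.cons.injEq] at e
      rw [← e.1, ka] at ka'
      exact absurd ka' (by simp)
    · obtain ⟨T, hT, hu⟩ := w12 bs (ltf (by simp) ka) (ltt (by simp) kb) (at1 (i := 0) (j := 1) rfl rfl (by omega) (by rw [ka, kb]; simp)) h.nd
      exact ⟨T, hT, fun _ _ _ _ hP => hu hP⟩
  | [a, b, c], h =>
    rcases ne (h.alt (i := 0) rfl rfl) with ⟨ka, kb⟩ | ⟨ka, kb⟩
    · rcases ne (h.alt (i := 1) rfl rfl) with ⟨kb', kc⟩ | ⟨kb', kc⟩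
      · rw [kb] at kb'
        exact absurd kb' (by simp)
      obtain ⟨T, hT⟩ := w212 bs (ltt (by simp) ka) (ltf (by simp) kb) (ltt (by simp) kc)
        (at1 (i := 0) (j := 1) rfl rfl (by omega) (by rw [ka, kb]; simp)) (at1 (i := 1) (j := 2) rfl rfl (by omega) (by rw [kb, kc]; simp))
        (at2 (i := 0) (j := 2) rfl rfl (by omega) ka kc) h.nd
      exact ⟨T, hT, fun a b e => by simp at e⟩
    · rcases ne (h.alt (i := 1) rfl rfl) with ⟨kb', kc⟩ | ⟨kb', kc⟩
      swap
      · rw [kb] at kb'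
        exact absurd kb' (by simp)
      obtain ⟨T, hT⟩ := w121 bs (ltf (by simp) ka) (ltt (by simp) kb) (ltf (by simp) kc)
        (at1 (i := 0) (j := 1) rfl rfl (by omega) (by rw [ka, kb]; simp)) (at1 (i := 1) (j := 2) rfl rfl (by omega) (by rw [kb, kc]; simp))
        (at3 (i := 0) (j := 2) rfl rfl (by omega) ka kc) h.nd
      exact ⟨T, hT, fun a b e => by simp at e⟩
  | [a, b, c, d], h =>
    rcases ne (h.alt (i := 0) rfl rfl) with ⟨ka, kb⟩ | ⟨ka, kb⟩
    · rcases ne (h.alt (i := 1) rfl rfl) with ⟨kb', kc⟩ | ⟨kb', kc⟩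
      · rw [kb] at kb'
        exact absurd kb' (by simp)
      rcases ne (h.alt (i := 2) rfl rfl) with ⟨kc', kd⟩ | ⟨kc', kd⟩
      swap
      · rw [kc] at kc'
        exact absurd kc' (by simp)
      obtain ⟨T, hT⟩ := w2121 bs (ltt (by simp) ka) (ltf (by simp) kb) (ltt (by simp) kc) (ltf (by simp) kd)
        (at1 (i := 0) (j := 1) rfl rfl (by omega) (by rw [ka, kb]; simp)) (at1 (i := 1) (j := 2) rfl rfl (by omega) (by rw [kb, kc]; simp))
        (at2 (i := 0) (j := 2) rfl rfl (by omega) ka kc) (at1 (i := 0) (j := 3) rfl rfl (by omega) (by rw [ka, kd]; simp))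
        (at1 (i := 2) (j := 3) rfl rfl (by omega) (by rw [kc, kd]; simp)) (at3 (i := 1) (j := 3) rfl rfl (by omega) kb kd) h.nd
      exact ⟨T, hT, fun a b e => by simp at e⟩
    · exfalso
      rcases ne (h.alt (i := 1) rfl rfl) with ⟨kb', kc⟩ | ⟨kb', kc⟩
      swap
      · rw [kb] at kb'
        exact absurd kb' (by simp)
      rcases ne (h.alt (i := 2) rfl rfl) with ⟨kc', kd⟩ | ⟨kc', kd⟩
      · rw [kc] at kc'
        exact absurd kc' (by simp)
      exact h.bad (List.Sublist.refl _) ka kb kc kd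
  | a :: b :: c :: d :: e :: W, h =>
    exfalso
    rcases ne (h.alt (i := 0) rfl rfl) with ⟨ka, kb⟩ | ⟨ka, kb⟩
    · rcases ne (h.alt (i := 1) rfl rfl) with ⟨kb', kc⟩ | ⟨kb', kc⟩
      · rw [kb] at kb'
        exact absurd kb' (by simp)
      rcases ne (h.alt (i := 2) rfl rfl) with ⟨kc', kd⟩ | ⟨kc', kd⟩
      swap
      · rw [kc] at kc'
        exact absurd kc' (by simp)
      rcases ne (h.alt (i := 3) rfl rfl) with ⟨kd', ke⟩ | ⟨kd', ke⟩
      · rw [kd] at kd'
        exact absurd kd' (by simp)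
      exact h.bad (a := b) (b := c) (c := d) (d := e) (List.Sublist.cons a (List.sublist_append_left [b, c, d, e] W)) kb kc kd ke
    · rcases ne (h.alt (i := 1) rfl rfl) with ⟨kb', kc⟩ | ⟨kb', kc⟩
      swap
      · rw [kb] at kb'
        exact absurd kb' (by simp)
      rcases ne (h.alt (i := 2) rfl rfl) with ⟨kc', kd⟩ | ⟨kc', kd⟩
      · rw [kc] at kc'
        exact absurd kc' (by simp)
      exact h.bad (List.sublist_append_left [a, b, c, d] (e :: W)) ka kb kc kd

end Pool.Agent.SOM
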