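import Pool.Agent.SOM.DomG

/-! Project SOM (MP_66ba69_lc, change of the word of a side), module Dom2: CONTEXTS WITH TWO BLOCKS (N2). -/

set_option autoImplicit false

namespace Pool.Agent.SOM

open Pool.Agent.SOC Pool.Agent.SOD Pool.Agent.RUP Pool.Agent.SOF Pool.Agent.SOG Pool.Agent.SOV Pool.Agent.SOK Pool.Agent.SOS
open Pool.Agent.SON

/-! ### the gadget -/

section
variable {M : List (List Bool)}

/-- the vertices of the extended graph as numbers -/
def fq (n : ℕ) : Option ℕ → ℕ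
  | some i => i
  | none => n

theorem fq_inj {n : ℕ} {l : List (Option ℕ)} (h : ∀ i, some i ∈ l → i < n) : ∀ x ∈ l, ∀ y ∈ l, fq n x = fq n y → x = y := by
  rintro (_ | a) hx (_ | b) hy e
  · rfl
  · have := h b hy
    simp only [fq] at e
    omega
  · have := h a hx
    simp only [fq] at e
    omega
  · simp only [fq] at e
    rw [e]

theorem fq_adj {B : List ℕ} {l : List (Option ℕ)} (h : ∀ i, some i ∈ l → i < M.length) : ∀ x ∈ l, ∀ y ∈ l,
    ((extG (gN M) B).Adj x y ↔ (gN (ext M B)).Adj (fq M.length x) (fq M.length y)) := by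
  have h0 : ∀ i j : ℕ, (gN (ext M B)).Adj i j ↔ adjB (ext M B) i j = true := fun i j => Iff.rfl
  rintro (_ | a) hx (_ | b) hy
  · rw [h0]
    simp only [fq]
    constructor
    · exact fun h => h.elim
    · intro h
      unfold adjB at h
      simp at h
  · rw [h0]
    simp only [fq]
    rw [adjB_ext_n (h b hy), decide_eq_true_eq]
    exact Iff.rfl
  · rw [h0]
    simp only [fq]
    rw [adjB_symm, adjB_ext_n (h a hx), decide_eq_true_eq]
    exact Iff.rfl
  · rw [h0]
    simp only [fq]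
    rw [adjB_ext (h a hx) (h b hy)]
    exact Iff.rfl

theorem gd_iff {L B : List ℕ} (hn : (L ++ B).Nodup) (hm : ∀ x ∈ L ++ B, x < M.length) : gad M L B = true ↔ Gd (gN M) L B := by
  have m1 : ∀ i, some i ∈ ctx1 L B → i < M.length := by
    intro i hi
    refine hm i ?_
    unfold ctx1 at hi
    simpa using hi
  have m2 : ∀ i, some i ∈ ctx2 L B → i < M.length := by
    intro i hi
    refine hm i ?_
    unfold ctx2 at hi
    simpa using hi
  have mp : ∀ K : List ℕ, (K.map some).map (fq M.length) = K := by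
    intro K
    rw [List.map_map]
    exact List.map_id' K
  have e1 : (ctx1 L B).map (fq M.length) = L ++ (M.length :: B) := by
    unfold ctx1
    rw [List.map_append, List.map_cons, mp, mp]
    rfl
  have e2 : (ctx2 L B).map (fq M.length) = L ++ (B ++ [M.length]) := by
    unfold ctx2
    rw [List.map_append, List.map_append, mp, mp]
    rfl
  have n1 : (L ++ (M.length :: B)).Nodup := by
    rw [← e1]
    exact (List.nodup_map_iff_inj_on (ctx1_nodup hn)).2 (fq_inj m1)
  have n2 : (L ++ (B ++ [M.length])).Nodup := by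
    rw [← e2]
    exact (List.nodup_map_iff_inj_on (ctx2_nodup hn)).2 (fq_inj m2)
  have c1 : ctx M L (1, B, []) = tOk (ext M B) (L ++ (M.length :: B)) := rfl
  have c2 : ctx M L (2, B, []) = tOk (ext M B) (L ++ (B ++ [M.length])) := rfl
  unfold gad Gd
  rw [Bool.or_eq_true, c1, c2, tOk_iff n1, tOk_iff n2, ← e1, ← e2]
  rw [Val_map (G' := extG (gN M) B) (G := gN (ext M B)) (l := ctx1 L B) (fq_inj m1) (fq_adj m1),
    Val_map (G' := extG (gN M) B) (G := gN (ext M B)) (l := ctx2 L B) (fq_inj m2) (fq_adj m2)]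

end

/-! ### types -/

section
variable {V : Type} [DecidableEq V] {G : SimpleGraph V} {L R : List V} {b1 b2 : V}

theorem two_ty (h : StL G L R) (hB : LRp G L R [b1, b2]) : (∃ P : Prop, ∀ w ∈ L, G.Adj w b1 → (G.Adj w b2 ↔ P)) ∨
    (∃ P : Prop, ∀ w ∈ L, G.Adj w b2 → (G.Adj w b1 ↔ P)) := by
  obtain ⟨sR, eR, hR⟩ := hB
  obtain ⟨k1, a1⟩ := hR.rep (i := 0) (b := b1) rfl
  obtain ⟨k2, a2⟩ := hR.rep (i := 1) (b := b2) rfl
  have ne : ¬ SR G L b1 b2 := hR.mx (i := 0) rfl rfl
  have m1 : b1 ∈ R := by rw [← eR]; exact inS_mem k1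
  have m2 : b2 ∈ R := by rw [← eR]; exact inS_mem k2
  have hl := hR.len
  have two : ∀ z ∈ R, Atd G L z → SR G L z b1 ∨ SR G L z b2 := by
    intro z hz az
    rw [← eR] at hz
    rcases in_two hR hz with g | g
    · exact Or.inl (hR.same g k1 az a1)
    · exact Or.inr (hR.same g k2 az a2)
  rcases h.ty with ⟨cl, hc⟩ | ⟨cl, hc⟩ | ⟨cl, hc⟩
  · have hne : cl b1 ≠ cl b2 := by
      intro e
      refine ne fun w hw => ⟨fun g => ?_, fun g => ?_⟩
      · have aw : Atd G R w := ⟨b1, m1, g.symm⟩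
        exact ((hc.adj hw m2 aw a2).2 (e ▸ (hc.adj hw m1 aw a1).1 g.symm)).symm
      · have aw : Atd G R w := ⟨b2, m2, g.symm⟩
        exact ((hc.adj hw m1 aw a1).2 (e ▸ (hc.adj hw m2 aw a2).1 g.symm)).symm
    cases e1 : cl b1 <;> cases e2 : cl b2
    · exact absurd (e1.trans e2.symm) hne
    · left
      refine ⟨True, fun w hw g => ?_⟩
      have aw : Atd G R w := ⟨b1, m1, g⟩
      rw [hc.adj hw m2 aw a2, e2]
      exact ⟨fun _ => trivial, fun _ => Or.inr rfl⟩
    · right
      refine ⟨True, fun w hw g => ?_⟩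
      have aw : Atd G R w := ⟨b2, m2, g⟩
      rw [hc.adj hw m1 aw a1, e1]
      exact ⟨fun _ => trivial, fun _ => Or.inr rfl⟩
    · exact absurd (e1.trans e2.symm) hne
  · left
    refine ⟨False, fun w hw g => ?_⟩
    have aw : Atd G R w := ⟨b1, m1, g⟩
    rw [hc.adj hw m2 aw a2]
    refine ⟨fun g2 => ?_, fun h => h.elim⟩
    have g1 : cl w = cl b1 := (hc.adj hw m1 aw a1).1 g
    have g2' : cl w = cl b2 := g2
    refine ne fun z hz => ⟨fun e => ?_, fun e => ?_⟩
    · have az : Atd G R z := ⟨b1, m1, e.symm⟩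
      have g3 : cl z = cl b1 := (hc.adj hz m1 az a1).1 e.symm
      have g4 : fK (cl z) (cl b2) := g3.trans (g1.symm.trans g2')
      exact ((hc.adj hz m2 az a2).2 g4).symm
    · have az : Atd G R z := ⟨b2, m2, e.symm⟩
      have g3 : cl z = cl b2 := (hc.adj hz m2 az a2).1 e.symm
      have g4 : fK (cl z) (cl b1) := g3.trans (g2'.symm.trans g1)
      exact ((hc.adj hz m1 az a1).2 g4).symm
  · exfalso
    obtain ⟨c0, hc0, ac0, e0⟩ := hc.wR 0
    obtain ⟨c1, hc1, ac1, e1⟩ := hc.wR 1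
    obtain ⟨c2, hc2, ac2, e2⟩ := hc.wR 2
    obtain ⟨l0, hl0, al0, d0⟩ := hc.wL 0
    obtain ⟨l1, hl1, al1, d1⟩ := hc.wL 1
    have n01 : ¬ SR G L c0 c1 := by
      intro h
      have g1 := (hc.adj hl0 hc0 al0 ac0).2 (by rw [d0, e0]; exact Or.inl ⟨rfl, rfl⟩)
      have g2 := (hc.adj hl0 hc1 al0 ac1).1 ((h l0 hl0).1 g1.symm).symm
      rw [d0, e1] at g2
      rcases g2 with ⟨_, g⟩ | ⟨g, _⟩
      · exact absurd g (by decide)
      · exact g rfl
    have n02 : ¬ SR G L c0 c2 := by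
      intro h
      have g1 := (hc.adj hl0 hc0 al0 ac0).2 (by rw [d0, e0]; exact Or.inl ⟨rfl, rfl⟩)
      have g2 := (hc.adj hl0 hc2 al0 ac2).1 ((h l0 hl0).1 g1.symm).symm
      rw [d0, e2] at g2
      rcases g2 with ⟨_, g⟩ | ⟨g, _⟩
      · exact absurd g (by decide)
      · exact g rfl
    have n12 : ¬ SR G L c1 c2 := by
      intro h
      have g1 := (hc.adj hl1 hc2 al1 ac2).2 (by
        rw [d1, e2]
        exact Or.inr ⟨by decide, by decide, by decide⟩)
      have g2 := (hc.adj hl1 hc1 al1 ac1).1 ((h l1 hl1).2 g1.symm).symm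
      rw [d1, e1] at g2
      rcases g2 with ⟨g, _⟩ | ⟨_, _, g⟩
      · exact absurd g (by decide)
      · exact g ⟨rfl, rfl⟩
    rcases two c0 hc0 ac0 with g0 | g0 <;> rcases two c1 hc1 ac1 with g1 | g1 <;> rcases two c2 hc2 ac2 with g2 | g2
    · exact n01 (g0.trans g1.symm)
    · exact n01 (g0.trans g1.symm)
    · exact n02 (g0.trans g2.symm)
    · exact n12 (g1.trans g2.symm)
    · exact n12 (g1.trans g2.symm)
    · exact n02 (g0.trans g2.symm)
    · exact n01 (g0.trans g1.symm)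
    · exact n01 (g0.trans g1.symm)

end

/-- (N2) CONTEXTS WITH TWO BLOCKS -/
theorem dom2 (f1 : RuleF) (f2 : SixF) (f3 : GlueF) (f4 : BothF) {M : List (List Bool)} {L R L' B : List ℕ} (hs : StL (gN M) L R)
    (hp : L'.Perm L) (hm : ∀ x ∈ L ++ R, x < M.length) (hR : RpL (gN M) L R B) (hB : B.length = 2) (h1 : Val (gN M) (L ++ R))
    (h2 : Val (gN M) (L' ++ B))
    (hpar : parB (wordB M B L) = true → parB (wordB M B L') = true ∧ (gad M L B = true → gad M L' B = true)) :
    Val (gN M) (L' ++ R) := by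
  have hE : LEp (gN M) L R := ⟨hs.ep.nd, hs.ep.rig, hs.ep.w4⟩
  match B, hB with
  | [b1, b2], _ =>
    have hR' : LRp (gN M) L R [b1, b2] := hR
    have had : ∀ x y, adjB M x y = true ↔ (gN M).Adj x y := fun _ _ => Iff.rfl
    have n := List.nodup_append.1 hE.nd
    have subB : ∀ b ∈ [b1, b2], b ∈ R := hR'.cov.1
    have nb : b1 ≠ b2 := by
      rintro rfl
      obtain ⟨sR, _, h⟩ := hR'
      exact h.mx (i := 0) rfl rfl fun _ _ => Iff.rfl
    have ndB : (L ++ [b1, b2]).Nodup := by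
      rw [List.nodup_append]
      exact ⟨n.1, by simp [nb], fun a ha b hb => n.2.2 a ha b (subB b hb)⟩
    have ndB' : (L' ++ [b1, b2]).Nodup := (hp.append_right _).nodup_iff.2 ndB
    have mB : ∀ x ∈ L ++ [b1, b2], x < M.length := by
      intro x hx
      refine hm x ?_
      rcases List.mem_append.1 hx with h | h
      · exact List.mem_append_left _ h
      · exact List.mem_append_right _ (subB x h)
    have mB' : ∀ x ∈ L' ++ [b1, b2], x < M.length := fun x hx => mB x ((hp.append_right _).mem_iff.1 hx)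
    have hpar' : parB (wordF (adjB M) [b1, b2] L) = true → parB (wordF (adjB M) [b1, b2] L') = true ∧
        (Gd (gN M) L [b1, b2] → Gd (gN M) L' [b1, b2]) := by
      intro h
      obtain ⟨g1, g2⟩ := hpar h
      exact ⟨g1, fun g => (gd_iff ndB' mB').1 (g2 ((gd_iff ndB mB).2 g))⟩
    rcases two_ty hs hR' with ⟨P, ty⟩ | ⟨P, ty⟩
    · exact domA f1 f2 f3 f4 hE hp hR' had ty hpar' h1 h2
    · exact domB f1 f2 f3 f4 hE hp hR' had ty hpar' h1 h2

end Pool.Agent.SOM
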