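import Pool.Agent.SOM.DomF
import Pool.Agent.SON.Defs

/-! Project SOM (MP_66ba69_lc, change of the word of a side), module DomG: contexts with two blocks, for lists. -/

set_option autoImplicit false

namespace Pool.Agent.SOM

open Pool.Agent.SOC Pool.Agent.SOD Pool.Agent.RUP Pool.Agent.SOF Pool.Agent.SOG Pool.Agent.SOJ Pool.Agent.SOV Pool.Agent.SOK Pool.Agent.SOS
open Pool.Agent.SON

variable {V : Type} [DecidableEq V] {G : SimpleGraph V} {ad : V → V → Bool} {b1 b2 : V}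

omit [DecidableEq V] in
/-- parallel words -/
theorem par_form {K : List V} (h : parB (wordF ad [b1, b2] K) = true) : ∃ x ∈ K, ∃ y ∈ K,
    wordF ad [b1, b2] K = [[ad x b1, ad x b2], [ad y b1, ad y b2]] ∧ [ad x b1, ad x b2] ≠ [ad y b1, ad y b2] ∧
      ad x b2 = true ∧ ad y b1 = true := by
  unfold parB at h
  rw [Bool.and_eq_true, Bool.and_eq_true, decide_eq_true_eq] at h
  obtain ⟨h1, h2, h3⟩ := h
  have hc : (wordF ad [b1, b2] K).IsChain (· ≠ ·) := dst_chain _
  have hm : ∀ r ∈ wordF ad [b1, b2] K, ∃ x ∈ K, [ad x b1, ad x b2] = r := by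
    intro r hr
    obtain ⟨x, hx, e⟩ := List.mem_map.1 (mem_dst hr)
    exact ⟨x, (List.mem_filter.1 hx).1, e⟩
  generalize wordF ad [b1, b2] K = w at h1 h2 h3 hc hm
  match w, h1 with
  | [r, r'], _ =>
    obtain ⟨x, hx, rfl⟩ := hm r (by simp)
    obtain ⟨y, hy, rfl⟩ := hm r' (by simp)
    refine ⟨x, hx, y, hy, rfl, ?_, h2, h3⟩
    simpa using hc

omit [DecidableEq V] in
theorem par_A {P : Prop} [Decidable P] (had : ∀ x y, ad x y = true ↔ G.Adj x y) {K : List V}
    (ty : ∀ w ∈ K, G.Adj w b1 → (G.Adj w b2 ↔ P)) (h : parB (wordF ad [b1, b2] K) = true) :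
    wordF ad [b1, b2] K = [[false, true], [true, decide P]] := by
  obtain ⟨x, hx, y, hy, e, n, e1, e2⟩ := par_form h
  have y2 : ad y b2 = decide P := by
    rw [Bool.eq_iff_iff, decide_eq_true_iff, had]
    exact ty y hy ((had _ _).1 e2)
  have x1 : ad x b1 = false := by
    rw [← Bool.not_eq_true]
    intro e3
    have x2 : ad x b2 = decide P := by
      rw [Bool.eq_iff_iff, decide_eq_true_iff, had]
      exact ty x hx ((had _ _).1 e3)
    exact n (by rw [e3, e2, x2, y2])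
  rw [e, x1, e1, e2, y2]

omit [DecidableEq V] in
theorem par_B {P : Prop} [Decidable P] (had : ∀ x y, ad x y = true ↔ G.Adj x y) {K : List V}
    (ty : ∀ w ∈ K, G.Adj w b2 → (G.Adj w b1 ↔ P)) (h : parB (wordF ad [b1, b2] K) = true) :
    wordF ad [b1, b2] K = [[decide P, true], [true, false]] := by
  obtain ⟨x, hx, y, hy, e, n, e1, e2⟩ := par_form h
  have x2 : ad x b1 = decide P := by
    rw [Bool.eq_iff_iff, decide_eq_true_iff, had]
    exact ty x hx ((had _ _).1 e1)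
  have y1 : ad y b2 = false := by
    rw [← Bool.not_eq_true]
    intro e3
    have y2 : ad y b1 = decide P := by
      rw [Bool.eq_iff_iff, decide_eq_true_iff, had]
      exact ty y hy ((had _ _).1 e3)
    exact n (by rw [e3, e1, x2, y2])
  rw [e, y1, e1, e2, x2]

/-- the gadget -/
def Gd (G : SimpleGraph V) (L B : List V) : Prop := Val (extG G B) (ctx1 L B) ∨ Val (extG G B) (ctx2 L B)

omit [DecidableEq V] in
/-- the class with respect to a vertex `b` -/
theorem word_pair (had : ∀ x y, ad x y = true ↔ G.Adj x y) {L R : List V} (hE : LEp G L R) (hB : LRp G L R [b1, b2]) {k : V → Bool}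
    (hk : ∀ x ∈ L, ∀ y ∈ L, Atd G R x → Atd G R y → k x = k y → ∀ b ∈ [b1, b2], (G.Adj x b ↔ G.Adj y b))
    (hs : ∀ x ∈ L, ∀ y ∈ L, SR G R x y → k x = k y) (ht : ∃ w ∈ L, Atd G R w ∧ k w = true) (hf : ∃ w ∈ L, Atd G R w ∧ k w = false) :
    (∃ a b, a ∈ L ∧ b ∈ L ∧ Atd G R a ∧ Atd G R b ∧ wordF ad [b1, b2] L = [rowF ad [b1, b2] a, rowF ad [b1, b2] b] ∧
      k a = false ∧ k b = true) ∨
      ∃ x y, [x, y].Sublist L ∧ Atd G R x ∧ Atd G R y ∧ k x = true ∧ k y = false := by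
  obtain ⟨sR, eR, hR⟩ := hB
  have rp := rpB_of_sd hR eR
  have hA : ∃ x ∈ L, Atd G R x := by
    obtain ⟨w, h1, h2, _⟩ := ht
    exact ⟨w, h1, h2⟩
  obtain ⟨sL, W, eL, hL, hW, hw, _⟩ := sd_word had rp (List.nodup_append.1 hE.nd).1 hA
  have mW : ∀ {w}, w ∈ W → w ∈ L ∧ Atd G R w := by
    intro w hw
    obtain ⟨i, hi⟩ := List.mem_iff_getElem?.1 hw
    exact ⟨hW.subset hw, (hL.rep hi).2⟩
  have ex : ∀ {w}, w ∈ L → Atd G R w → ∃ b ∈ W, k b = k w := by
    intro w h1 h2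
    obtain ⟨i, hi⟩ := inS_ex (x := w) (segs := sL) (by rw [eL]; exact h1)
    obtain ⟨b, k1, k2, k3⟩ := hL.ex hi
    exact ⟨b, List.mem_of_getElem? k1, hs b (mW (List.mem_of_getElem? k1)).1 w h1 (hL.same k2 hi k3 h2)⟩
  rcases alt_pair (W := W) (k := k) (by
    intro i x y hi hj e
    have m1 := mW (List.mem_of_getElem? hi)
    have m2 := mW (List.mem_of_getElem? hj)
    exact hL.mx hi hj (rp.row x m1.1 y m2.1 (hk x m1.1 y m2.1 m1.2 m2.2 e))) (by
    obtain ⟨w, h1, h2, h3⟩ := ht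
    obtain ⟨b, h4, h5⟩ := ex h1 h2
    exact ⟨b, h4, by rw [h5, h3]⟩) (by
    obtain ⟨w, h1, h2, h3⟩ := hf
    obtain ⟨b, h4, h5⟩ := ex h1 h2
    exact ⟨b, h4, by rw [h5, h3]⟩) with ⟨a, b, e, h1, h2⟩ | ⟨x, y, h1, h2, h3⟩
  · left
    refine ⟨a, b, (mW (by rw [e]; simp)).1, (mW (by rw [e]; simp)).1, (mW (by rw [e]; simp)).2, (mW (by rw [e]; simp)).2, ?_, h1, h2⟩
    rw [← hw, e]
    rfl
  · right
    exact ⟨x, y, h1.trans hW, (mW (h1.subset (by simp))).2, (mW (h1.subset (by simp))).2, h2, h3⟩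

theorem domA (f1 : RuleF) (f2 : SixF) (f3 : GlueF) (f4 : BothF) {P : Prop} {L R L' : List V} (hE : LEp G L R) (hp : L'.Perm L)
    (hB : LRp G L R [b1, b2]) (had : ∀ x y, ad x y = true ↔ G.Adj x y) (ty : ∀ w ∈ L, G.Adj w b1 → (G.Adj w b2 ↔ P))
    (hpar : parB (wordF ad [b1, b2] L) = true → parB (wordF ad [b1, b2] L') = true ∧ (Gd G L [b1, b2] → Gd G L' [b1, b2]))
    (v : Val G (L ++ R)) (v' : Val G (L' ++ [b1, b2])) : Val G (L' ++ R) := by
  classical
  obtain ⟨S1, S2, rfl, h⟩ := two_of hB ty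
  have hm : ∀ x, x ∈ L' ↔ x ∈ L := fun x => hp.mem_iff
  have b1R : b1 ∈ S1 ++ S2 := List.mem_append_left _ h.m1
  have b2R : b2 ∈ S1 ++ S2 := List.mem_append_right _ h.m2
  have oth : ∀ {w}, w ∈ L → Atd G (S1 ++ S2) w → ¬ G.Adj w b1 → G.Adj w b2 := fun hw ha n => h.oth hw ha n
  -- both classes exist
  have ht : ∃ w ∈ L, Atd G (S1 ++ S2) w ∧ kb G b1 w = true := by
    obtain ⟨w, hw, e⟩ := h.a1
    exact ⟨w, hw, ⟨b1, b1R, e.symm⟩, kb_t.2 e.symm⟩
  have hf : ∃ w ∈ L, Atd G (S1 ++ S2) w ∧ kb G b1 w = false := by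
    by_contra hn
    push Not at hn
    have al : ∀ w ∈ L, Atd G (S1 ++ S2) w → G.Adj w b1 := by
      intro w hw ha
      by_contra e
      exact hn w hw ha (kb_f.2 e)
    obtain ⟨w, hw, e⟩ := h.a2
    have e1 := al w hw ⟨b2, b2R, e.symm⟩
    have hP := (h.ty w hw e1).1 e.symm
    refine h.ne fun z hz => ⟨fun e => ?_, fun e => ?_⟩
    · exact ((h.ty z hz e.symm).2 hP).symm
    · exact (al z hz ⟨b2, b2R, e.symm⟩).symm
  by_cases hpr : parB (wordF ad [b1, b2] L) = true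
  · obtain ⟨g1, g2⟩ := hpar hpr
    have hA : ∃ x ∈ L, Atd G (S1 ++ S2) x := by
      obtain ⟨w, h1, h2, _⟩ := ht
      exact ⟨w, h1, h2⟩
    refine dom_sw f1 f2 f3 f4 hE hp hB ?_ hA had ?_ g2 v v'
    · exact List.Sublist.append (List.singleton_sublist.2 h.m1) (List.singleton_sublist.2 h.m2)
    · rw [par_A had ty hpr, par_A had (fun w hw => ty w ((hm w).1 hw)) g1]
  · rcases word_pair had hE hB (k := kb G b1) (by
      intro x hx y hy ax ay e b hb
      simp only [List.mem_cons, List.not_mem_nil, or_false] at hb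
      have e' : G.Adj x b1 ↔ G.Adj y b1 := by rw [← kb_t, ← kb_t, e]
      rcases hb with rfl | rfl
      · exact e'
      · by_cases e1 : G.Adj x b1
        · rw [ty x hx e1, ty y hy (e'.1 e1)]
        · exact ⟨fun _ => oth hy ay (fun e2 => e1 (e'.2 e2)), fun _ => oth hx ax e1⟩) (by
      intro x _ y _ hs
      have := hs b1 b1R
      rw [Bool.eq_iff_iff, kb_t, kb_t]
      exact this) ht hf with ⟨a, b, ha, hb, aa, ab, e, ka, kb'⟩ | ⟨x, y, hs, ax, ay, kx, ky⟩
    · exfalso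
      refine hpr ?_
      rw [e]
      have e1 : ad a b2 = true := (had _ _).2 (oth ha aa (kb_f.1 ka))
      have e2 : ad b b1 = true := (had _ _).2 (kb_t.1 kb')
      unfold parB rowF
      simp [e1, e2]
    · have hy : y ∈ L := hs.subset (by simp)
      exact dom_np f1 f2 f3 hE hp hB ty hs (kb_t.1 kx) (oth hy ay (kb_f.1 ky)) (kb_f.1 ky) v v'

theorem domB (f1 : RuleF) (f2 : SixF) (f3 : GlueF) (f4 : BothF) {P : Prop} {L R L' : List V} (hE : LEp G L R) (hp : L'.Perm L)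
    (hB : LRp G L R [b1, b2]) (had : ∀ x y, ad x y = true ↔ G.Adj x y) (ty : ∀ w ∈ L, G.Adj w b2 → (G.Adj w b1 ↔ P))
    (hpar : parB (wordF ad [b1, b2] L) = true → parB (wordF ad [b1, b2] L') = true ∧ (Gd G L [b1, b2] → Gd G L' [b1, b2]))
    (v : Val G (L ++ R)) (v' : Val G (L' ++ [b1, b2])) : Val G (L' ++ R) := by
  classical
  have hm : ∀ x, x ∈ L' ↔ x ∈ L := fun x => hp.mem_iff
  obtain ⟨sR, eR, hR⟩ := id hB
  have rp := rpB_of_sd hR eR
  have b1R : b1 ∈ R := rp.sub _ (by simp)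
  have b2R : b2 ∈ R := rp.sub _ (by simp)
  have a1 : Atd G L b1 := (hR.rep (i := 0) rfl).2
  have a2 : Atd G L b2 := (hR.rep (i := 1) rfl).2
  have ne : ¬ SR G L b1 b2 := hR.mx (i := 0) rfl rfl
  have sub : [b1, b2].Sublist R := by
    have hl := hR.len
    match sR, hl with
    | [S1, S2], _ =>
      have m1 : b1 ∈ S1 := by
        obtain ⟨⟨seg, k1, k2⟩, _⟩ := hR.rep (i := 0) (b := b1) rfl
        have : S1 = seg := Option.some.inj k1
        rwa [this]
      have m2 : b2 ∈ S2 := by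
        obtain ⟨⟨seg, k1, k2⟩, _⟩ := hR.rep (i := 1) (b := b2) rfl
        have : S2 = seg := Option.some.inj k1
        rwa [this]
      rw [← eR]
      have e : [S1, S2].flatten = S1 ++ S2 := by simp
      rw [e]
      exact List.Sublist.append (List.singleton_sublist.2 m1) (List.singleton_sublist.2 m2)
  have oth : ∀ {w}, w ∈ L → Atd G R w → ¬ G.Adj w b2 → G.Adj w b1 := by
    intro w hw ha n
    obtain ⟨b, hb, e⟩ := rp.att w hw ha
    simp only [List.mem_cons, List.not_mem_nil, or_false] at hb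
    rcases hb with rfl | rfl
    · exact e
    · exact absurd e n
  -- both classes exist
  have ht : ∃ w ∈ L, Atd G R w ∧ kb G b2 w = true := by
    obtain ⟨w, hw, e⟩ := a2
    exact ⟨w, hw, ⟨b2, b2R, e.symm⟩, kb_t.2 e.symm⟩
  have hf : ∃ w ∈ L, Atd G R w ∧ kb G b2 w = false := by
    by_contra hn
    push Not at hn
    have al : ∀ w ∈ L, Atd G R w → G.Adj w b2 := by
      intro w hw ha
      by_contra e
      exact hn w hw ha (kb_f.2 e)
    obtain ⟨w, hw, e⟩ := a1
    have e1 := al w hw ⟨b1, b1R, e.symm⟩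
    have hP := (ty w hw e1).1 e.symm
    refine ne fun z hz => ⟨fun e => ?_, fun e => ?_⟩
    · exact (al z hz ⟨b1, b1R, e.symm⟩).symm
    · exact ((ty z hz e.symm).2 hP).symm
  by_cases hpr : parB (wordF ad [b1, b2] L) = true
  · obtain ⟨g1, g2⟩ := hpar hpr
    have hA : ∃ x ∈ L, Atd G R x := by
      obtain ⟨w, h1, h2, _⟩ := ht
      exact ⟨w, h1, h2⟩
    refine dom_sw f1 f2 f3 f4 hE hp hB sub hA had ?_ g2 v v'
    rw [par_B had ty hpr, par_B had (fun w hw => ty w ((hm w).1 hw)) g1]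
  · rcases word_pair had hE hB (k := fun w => !(kb G b2 w)) (by
      intro x hx y hy ax ay e b hb
      simp only [List.mem_cons, List.not_mem_nil, or_false] at hb
      have e0 : kb G b2 x = kb G b2 y := by simpa using e
      have e' : G.Adj x b2 ↔ G.Adj y b2 := by rw [← kb_t, ← kb_t, e0]
      rcases hb with rfl | rfl
      · by_cases e1 : G.Adj x b2
        · rw [ty x hx e1, ty y hy (e'.1 e1)]
        · exact ⟨fun _ => oth hy ay (fun e2 => e1 (e'.2 e2)), fun _ => oth hx ax e1⟩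
      · exact e') (by
      intro x _ y _ hs
      have := hs b2 b2R
      have e0 : kb G b2 x = kb G b2 y := by
        rw [Bool.eq_iff_iff, kb_t, kb_t]
        exact this
      simp [e0]) (by
      obtain ⟨w, h1, h2, h3⟩ := hf
      exact ⟨w, h1, h2, by simp [h3]⟩) (by
      obtain ⟨w, h1, h2, h3⟩ := ht
      exact ⟨w, h1, h2, by simp [h3]⟩) with ⟨a, b, ha, hb, aa, ab, e, ka, kb'⟩ | ⟨x, y, hs, ax, ay, kx, ky⟩
    · exfalso
      refine hpr ?_
      rw [e]
      have ka' : kb G b2 a = true := by simpa using ka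
      have kb'' : kb G b2 b = false := by simpa using kb'
      have e1 : ad a b2 = true := (had _ _).2 (kb_t.1 ka')
      have e2 : ad b b1 = true := (had _ _).2 (oth hb ab (kb_f.1 kb''))
      unfold parB rowF
      simp [e1, e2]
    · have hx : x ∈ L := hs.subset (by simp)
      have kx' : kb G b2 x = false := by simpa using kx
      have ky' : kb G b2 y = true := by simpa using ky
      exact dom_np' f1 f2 f3 hE hp hB ty hs (kb_t.1 ky') (oth hx ax (kb_f.1 kx')) (kb_f.1 kx') v v'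

end Pool.Agent.SOM
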