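import Pool.Agent.SOM.Core

/-! Project SOM (MP_66ba69_lc, change of the word of a side), module DomM: contexts with two blocks, the word of the first order contains 21. -/

set_option autoImplicit false

namespace Pool.Agent.SOM

open Pool.Agent.SOC Pool.Agent.SOD Pool.Agent.RUP Pool.Agent.SOF Pool.Agent.SOG Pool.Agent.SOJ Pool.Agent.SOV Pool.Agent.SOK Pool.Agent.SOS

variable {V : Type} [DecidableEq V] {G : SimpleGraph V}

theorem dom_np (f1 : RuleF) (f2 : SixF) (f3 : GlueF) {P : Prop} {L R L' : List V} {b1 b2 : V} (hE : LEp G L R) (hp : L'.Perm L)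
    (hB : LRp G L R [b1, b2]) (ty : ∀ w ∈ L, G.Adj w b1 → (G.Adj w b2 ↔ P)) {x2 x1 : V} (hx : [x2, x1].Sublist L)
    (e1 : G.Adj x2 b1) (e2 : G.Adj x1 b2) (e3 : ¬ G.Adj x1 b1) (v : Val G (L ++ R)) (v' : Val G (L' ++ [b1, b2])) :
    Val G (L' ++ R) := by
  obtain ⟨S1, S2, rfl, h⟩ := two_of hB ty
  have hm : ∀ x, x ∈ L' ↔ x ∈ L := fun x => hp.mem_iff
  have x2L : x2 ∈ L := hx.subset (by simp)
  have x1L : x1 ∈ L := hx.subset (by simp)
  have hB' : LRp G L' (S1 ++ S2) [b1, b2] := by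
    obtain ⟨sR, eR, g⟩ := hB
    exact ⟨sR, eR, g.mem hm⟩
  have nd' : (L' ++ (S1 ++ S2)).Nodup := (hp.append_right _).nodup_iff.2 hE.nd
  have hE' : LEp G L' (S1 ++ S2) := hE.mono nd' (fun x hx => (hm x).1 hx) (fun _ h => h)
  have b1R : b1 ∈ S1 ++ S2 := List.mem_append_left _ h.m1
  have b2R : b2 ∈ S1 ++ S2 := List.mem_append_right _ h.m2
  have a2 : Atd G (S1 ++ S2) x2 := ⟨b1, b1R, e1⟩
  have a1 : Atd G (S1 ++ S2) x1 := ⟨b2, b2R, e2⟩
  have bs : Bs G P (Atd G L) S1 S2 x2 x1 := by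
    refine ⟨h.rs f1 f2 hE v, ?_, ?_, ?_, ?_, ?_⟩
    · have := h.lt x2L a2
      rwa [kb_t.2 e1] at this
    · have := h.lt x1L a1
      rwa [kb_f.2 e3] at this
    · exact adj_diff f1 f2 hE v x2L x1L a2 a1 fun hs => e3 ((hs b1 b1R).1 e1)
    · exact (List.Sublist.append hx (List.Sublist.refl (S1 ++ S2))).nodup hE.nd
    · exact Val_sublist (List.Sublist.append hx (List.Sublist.refl (S1 ++ S2))) hE.nd v
  obtain ⟨sL, W, eL, hL, hW⟩ := sd_exi (G := G) (O := S1 ++ S2) (L := L') (List.nodup_append.1 nd').1 ⟨x2, (hm x2).2 x2L, a2⟩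
  have lw : LWr G (S1 ++ S2) L' W := ⟨sL, W, eL, hL, rfl, hW.nodup (List.nodup_append.1 nd').1, fun w hw => hW.subset hw, by
    intro i w x h1 h2
    rw [h1] at h2
    rw [Option.some.inj h2]
    exact fun _ _ => Iff.rfl⟩
  have mW : ∀ {w}, w ∈ W → w ∈ L ∧ Atd G (S1 ++ S2) w := by
    intro w hw
    obtain ⟨i, hi⟩ := List.mem_iff_getElem?.1 hw
    exact ⟨(hm w).1 (hW.subset hw), (hL.rep hi).2⟩
  have cB := hB'.cov
  have subB : ∀ b ∈ [b1, b2], b ∈ S1 ++ S2 := cB.1
  have nb : b1 ≠ b2 := by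
    rintro rfl
    exact h.ne fun _ _ => Iff.rfl
  have ep1 : LEp G L' [b1, b2] := hE'.mono (by
    have n := List.nodup_append.1 nd'
    rw [List.nodup_append]
    exact ⟨n.1, by simp [nb], fun a ha b hb => n.2.2 a ha b (subB b hb)⟩) (fun _ h => h) subB
  have sdLB := Sd.cov hL cB eL
  have sB : Sd G L' ([b1, b2].map fun b => [b]) [b1, b2] := by
    obtain ⟨sR, _, g⟩ := hB'
    exact sd_single g
  have adj : ∀ {i j : ℕ} {x y : V}, W[i]? = some x → W[j]? = some y → i ≠ j → (G.Adj x y ↔ LA P (kb G b1 x) (kb G b1 y)) := by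
    intro i j x y hi hj hij
    obtain ⟨k1, k2⟩ := hL.rep hi
    obtain ⟨k3, k4⟩ := hL.rep hj
    have mx := (mW (List.mem_of_getElem? hi)).1
    have my := (mW (List.mem_of_getElem? hj)).1
    rw [ruleL f1 f2 ep1 sdLB eL sB (flatten_single _) v' k1 k3 hij ((cB.att ((hm x).2 mx)).2 k2) ((cB.att ((hm y).2 my)).2 k4)]
    exact h.rule hm x1L e2 e3 mx my k2 k4
  have b12 : G.Adj b1 b2 := adj_diff f1 f2 hE.symm ((Val_rotate hE.nd).1 v) b1R b2R h.a1 h.a2 h.ne
  have wf : Wf G P (Atd G L) S1 S2 (kb G b1) W :=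
    { nd := (List.Sublist.append hW (List.Sublist.refl (S1 ++ S2))).nodup nd'
      alt := by
        intro i x y hi hj e
        have l1 := h.lt (mW (List.mem_of_getElem? hi)).1 (mW (List.mem_of_getElem? hi)).2
        have l2 := h.lt (mW (List.mem_of_getElem? hj)).1 (mW (List.mem_of_getElem? hj)).2
        rw [e] at l1
        exact hL.mx hi hj (l1.tw l2)
      adj := adj
      lt := fun w hw => h.lt (mW hw).1 (mW hw).2
      t := by
        obtain ⟨i, hi⟩ := inS_ex (x := x2) (segs := sL) (by rw [eL]; exact (hm x2).2 x2L)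
        obtain ⟨b, k1, k2, k3⟩ := hL.ex hi
        exact ⟨b, List.mem_of_getElem? k1, kb_t.2 ((hL.same hi k2 a2 k3 b1 b1R).1 e1)⟩
      f := by
        obtain ⟨i, hi⟩ := inS_ex (x := x1) (segs := sL) (by rw [eL]; exact (hm x1).2 x1L)
        obtain ⟨b, k1, k2, k3⟩ := hL.ex hi
        exact ⟨b, List.mem_of_getElem? k1, kb_f.2 fun e => e3 ((hL.same hi k2 a1 k3 b1 b1R).2 e)⟩
      bad := by
        intro a b c d hs ka kb' kc kd
        have sub : ([a, b, c, d] ++ [b1, b2]).Sublist (L' ++ [b1, b2]) := List.Sublist.append (hs.trans hW) (List.Sublist.refl _)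
        have nd6 := sub.nodup ep1.nd
        have v6 := Val_sublist sub ep1.nd v'
        -- adjacency of members of W
        have ndW : W.Nodup := hW.nodup (List.nodup_append.1 nd').1
        have ad : ∀ {x y}, x ∈ W → y ∈ W → x ≠ y → (G.Adj x y ↔ LA P (kb G b1 x) (kb G b1 y)) := by
          intro x y hx hy hxy
          obtain ⟨i, hi⟩ := List.mem_iff_getElem?.1 hx
          obtain ⟨j, hj⟩ := List.mem_iff_getElem?.1 hy
          refine adj hi hj ?_
          rintro rfl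
          rw [hi] at hj
          exact hxy (Option.some.inj hj)
        have ma : a ∈ W := hs.subset (by simp)
        have mb : b ∈ W := hs.subset (by simp)
        have mc : c ∈ W := hs.subset (by simp)
        have md : d ∈ W := hs.subset (by simp)
        have n6 := nd6
        simp only [List.cons_append, List.nil_append, List.nodup_cons, List.mem_cons, List.not_mem_nil, or_false, not_or] at n6
        obtain ⟨⟨n1, n2, n3, _⟩, ⟨n4, n5, _⟩, ⟨n7, _⟩, _⟩ := n6
        have q1 : ∀ {x y}, x ∈ W → y ∈ W → x ≠ y → kb G b1 x ≠ kb G b1 y → G.Adj x y := fun hx hy n e => (ad hx hy n).2 (Or.inl e)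
        have q2 : G.Adj b d ↔ P := by
          rw [ad mb md n5, kb', kd]
          constructor
          · rintro (g | ⟨_, _, g⟩)
            · exact absurd rfl g
            · exact g
          · exact fun g => Or.inr ⟨rfl, rfl, g⟩
        have q3 : ¬ G.Adj a c := by
          rw [ad ma mc n2, ka, kc]
          rintro (g | ⟨g, _⟩)
          · exact absurd rfl g
          · exact absurd g (by simp)
        have r1 : ∀ {x}, x ∈ W → kb G b1 x = false → ¬ G.Adj x b1 ∧ G.Adj x b2 := fun hx e =>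
          ⟨kb_f.1 e, h.oth (mW hx).1 (mW hx).2 (kb_f.1 e)⟩
        have r2 : ∀ {x}, x ∈ W → kb G b1 x = true → G.Adj x b1 ∧ (G.Adj x b2 ↔ P) := fun hx e =>
          ⟨kb_t.1 e, h.ty _ (mW hx).1 (kb_t.1 e)⟩
        exact no1212 (P := P) nd6 v6 (q1 ma mb n1 (by rw [ka, kb']; simp)) q3 (q1 ma md n3 (by rw [ka, kd]; simp)) (r1 ma ka).1 (r1 ma ka).2
          (q1 mb mc n4 (by rw [kb', kc]; simp)) q2 (r2 mb kb').1 (r2 mb kb').2 (q1 mc md n7 (by rw [kc, kd]; simp)) (r1 mc kc).1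
          (r1 mc kc).2 (r2 md kd).1 (r2 md kd).2 b12 }
  obtain ⟨T2, v2, hu⟩ := core_w bs wf
  obtain ⟨T1, v1⟩ := v'
  refine glueL f1 f2 f3 hE' hB' lw v1 v2 ?_
  rintro ⟨p, s, q, r, hw, k1, k2, k3, k4⟩
  right
  rcases hw with ⟨hw, hb⟩ | ⟨hw, hb⟩
  · simp only [List.cons.injEq, and_true] at hb
    obtain ⟨rfl, rfl⟩ := hb
    exact hu s p hw (kb_f.2 k4) ((h.ty p (mW (by rw [hw]; simp)).1 k2).1 k1)
  · simp only [List.cons.injEq, and_true] at hb
    obtain ⟨rfl, rfl⟩ := hb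
    have ms := mW (w := s) (by rw [hw]; simp)
    have mp := mW (w := p) (by rw [hw]; simp)
    exact absurd ((h.ty s ms.1 k3).2 ((h.ty p mp.1 k1).1 k2)) k4

end Pool.Agent.SOM
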