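import Pool.Agent.SOK.HalfL
import Pool.Agent.SOG.MainG
import Pool.Agent.SOG.Rep

/-! Project SOM (MP_66ba69_lc, change of the word of a side), module Dup: a twin next to its original. -/

set_option autoImplicit false

namespace Pool.Agent.SOM

open Pool.Agent.SOC Pool.Agent.SOD Pool.Agent.RUP Pool.Agent.SOF Pool.Agent.SOG Pool.Agent.SOV Pool.Agent.SOK

section
variable {V V0 : Type} [DecidableEq V] [DecidableEq V0] {G : SimpleGraph V} {G0 : SimpleGraph V0} {s : List V} {s0 : List V0}
  {r : V → V0} {u v : V} {T0 : V0 → V0 → V0 → V0 → Prop}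

/-- the cut of the two twins -/
def cutD (G : SimpleGraph V) (u v : V) : Cut V where
  S := fun x => x = u ∨ x = v
  A := fun x => (x = u ∨ x = v) ∨ G.Adj u x
  B := fun _ => False
  K := fun x y => ((x = u ∨ x = v) ∧ (y = u ∨ y = v)) ∨ (¬ (x = u ∨ x = v) ∧ ¬ (y = u ∨ y = v) ∧ G.Adj u x ∧ G.Adj u y)

theorem dup_qt (hs : IsEnum s) (rr : ∀ x y, r x = r y ↔ (x = y ∨ ((x = u ∨ x = v) ∧ (y = u ∨ y = v))))
    (adj : ∀ x y, r x ≠ r y → (G.Adj x y ↔ G0.Adj (r x) (r y)))
    (lt : ∀ x y, r x ≠ r y → (s.idxOf x < s.idxOf y ↔ s0.idxOf (r x) < s0.idxOf (r y)))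
    (cons : ∀ x y, ¬ CrD s u v x y) (q : QT G0 (CrD s0) T0) : ∃ T, QT G (CrD s) T := by
  have hX := crD_sepr hs
  have tw : ∀ {a b}, (a = u ∨ a = v) → (b = u ∨ b = v) → ∀ {c}, ¬ (c = u ∨ c = v) → G.Adj a c → G.Adj b c := by
    intro a b ha hb c hc h
    have n1 : r a ≠ r c := fun e => by
      rcases (rr a c).1 e with e | e
      · exact hc (e ▸ ha)
      · exact hc e.2
    have n2 : r b ≠ r c := fun e => by
      rcases (rr b c).1 e with e | e
      · exact hc (e ▸ hb)
      · exact hc e.2
    have e : r a = r b := (rr a b).2 (Or.inr ⟨ha, hb⟩)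
    rw [adj b c n2, ← e]
    exact (adj a c n1).1 h
  have ok : (cutD G u v).Ok (CrD s) :=
    { sepr := hX
      int := by
        rintro a b c d (rfl | rfl) (rfl | rfl) _ _ h
        · exact (hX.dist h).1 rfl
        · exact cons _ _ h
        · exact cons _ _ (hX.swap h)
        · exact (hX.dist h).1 rfl
      kS := by
        rintro a b (⟨_, h⟩ | ⟨h1, _⟩) h'
        · exact h
        · exact absurd h' h1
      kA := by
        rintro a b (⟨h, _⟩ | ⟨_, _, h, _⟩)
        · exact Or.inl h
        · exact Or.inr h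
      kB := fun _ h => h
      ksym := by
        rintro a b (⟨h1, h2⟩ | ⟨h1, h2, h3, h4⟩)
        · exact Or.inl ⟨h2, h1⟩
        · exact Or.inr ⟨h2, h1, h4, h3⟩
      ktr := by
        rintro a b c (⟨h1, h2⟩ | ⟨h1, h2, h3, h4⟩) (⟨k1, k2⟩ | ⟨k1, k2, k3, k4⟩)
        · exact Or.inl ⟨h1, k2⟩
        · exact absurd h2 k1
        · exact absurd k1 h2
        · exact Or.inr ⟨h1, k2, h3, k4⟩
      kb := fun _ _ h1 h2 _ _ => Or.inl ⟨h1, h2⟩
      kb' := by
        rintro a b c d (⟨h, _⟩ | ⟨_, _, h, _⟩) hA hn hc _ _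
        · exact absurd h hn
        · rcases hA with hA | hA
          · exact absurd hA hc
          · exact Or.inr ⟨hn, hc, h, hA⟩ }
  have bi : (cutD G u v).Bi G :=
    { xa := by
        intro a b ha hb h
        exact ⟨Or.inl ha, Or.inr (tw ha (Or.inl rfl) hb h)⟩
      bi := by
        rintro a b c (⟨h1, h2⟩ | ⟨h1, _⟩) hs hc h
        · exact tw h1 h2 hc h
        · exact absurd hs h1
      bi' := by
        rintro a b c (⟨h1, _⟩ | ⟨h1, h2, h3, h4⟩) hs hc h
        · exact absurd h1 hs
        · exact (tw (Or.inl rfl) hc h2 h4).symm }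
  have two : ∀ {a b c : V}, (a = u ∨ a = v) → (b = u ∨ b = v) → (c = u ∨ c = v) → a ≠ b → a ≠ c → b ≠ c → False := by
    rintro a b c (rfl | rfl) (rfl | rfl) (rfl | rfl) h1 h2 h3 <;> simp_all
  have kk : ∀ {a b : V}, ¬ (a = u ∨ a = v) → ¬ (b = u ∨ b = v) → ((a = u ∨ a = v) ∨ (cutD G u v).A a) →
      ((b = u ∨ b = v) ∨ (cutD G u v).A b) → (cutD G u v).K a b := by
    intro a b h1 h2 h3 h4
    refine Or.inr ⟨h1, h2, ?_, ?_⟩
    · rcases h3 with h | h | h
      · exact absurd h h1
      · exact absurd h h1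
      · exact h
    · rcases h4 with h | h | h
      · exact absurd h h2
      · exact absurd h h2
      · exact h
  have hh1 : Half (cutD G u v) G (CrD s) (cutD G u v).S (fun _ _ _ _ => False) :=
    { swap₁ := id
      swap₂ := id
      ne := fun h => h.elim
      adj := fun h => h.elim
      nocross := fun h => h.elim
      att := fun h => h.elim
      d1 := fun h => h.elim
      d2 := fun h => h.elim
      nb := fun h => h.elim
      some := by
        intro a b c d _ _ hx ha hb hc hd g1 g2 g3 g4 g5 g6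
        exfalso
        have e1 := hX.dist hx
        have e2 := hX.dist (hX.swap hx)
        have e3 := hX.dist (hX.comm hx)
        have e4 := hX.dist (hX.comm (hX.swap (hX.comm hx)))
        have e5 := hX.dist (hX.swap (hX.comm (hX.swap (hX.comm hx))))
        have n1 : a ≠ b := e1.2
        have n2 : a ≠ c := e1.1
        have n3 : a ≠ d := e4.2
        have n4 : b ≠ c := e2.2.symm
        have n5 : b ≠ d := e3.1
        have n6 : c ≠ d := e5.2
        have gg : ∀ {a b : V}, ((a = u ∨ a = v) ∨ (cutD G u v).A a) → ((b = u ∨ b = v) ∨ (cutD G u v).A b) →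
            ((cutD G u v).S a ∨ (cutD G u v).S b ∨ ¬ (cutD G u v).K a b) → (a = u ∨ a = v) ∨ (b = u ∨ b = v) := by
          intro a b h1 h2 h3
          by_contra hn
          rw [not_or] at hn
          rcases h3 with h | h | h
          · exact hn.1 h
          · exact hn.2 h
          · exact h (kk hn.1 hn.2 h1 h2)
        have k1 := gg ha hb g1
        have k2 := gg ha hc g2
        have k3 := gg ha hd g3
        have k4 := gg hb hc g4
        have k5 := gg hb hd g5
        have k6 := gg hc hd g6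
        by_cases sa : (a = u ∨ a = v)
        · by_cases sb : (b = u ∨ b = v)
          · rcases k6 with k | k
            · exact two sa sb k n1 n2 n4
            · exact two sa sb k n1 n3 n5
          · have sc := k4.resolve_left sb
            have sd := k5.resolve_left sb
            exact two sa sc sd n2 n3 n6
        · have sb := k1.resolve_left sa
          have sc := k2.resolve_left sa
          have sd := k3.resolve_left sa
          exact two sb sc sd n4 n5 n6
      trans := fun _ _ h => h.elim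
      ferrers := fun h => h.elim
      inv := fun _ _ h => h }
  have hR : RepOk (cutD G u v) G (CrD s) (fun a => ¬ (cutD G u v).S a) G0 (CrD s0) r :=
    { inj := by
        intro p t _ _ e
        rcases (rr p t).1 e with e | e
        · exact Or.inl e
        · exact Or.inr ⟨fun k => k e.1, Or.inl e⟩
      con := by
        rintro p t h (k | ⟨k1, _⟩)
        · exact (rr p t).2 (Or.inr k)
        · exact absurd k1 h
      side := by
        rintro p t (k | ⟨_, k2, _⟩) h
        · exact absurd k.1 h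
        · exact k2
      adj := fun _ _ h => adj _ _ h
      cross := fun _ _ _ _ n1 n2 n3 n4 n5 n6 => crD_of_lt (P := fun _ => True) (fun a b _ _ h => lt a b h) trivial trivial trivial trivial
        n1 n2 n3 n4 n5 n6 }
  have hh2 := half_of_qt hX ok hR q
  refine ⟨_, glue_qt ok bi hh1 hh2 ?_⟩
  have na : ∀ {a b}, (cutD G u v).S a → (cutD G u v).S b → ∀ {c d},
      ¬ repT (cutD G u v) (fun a => ¬ (cutD G u v).S a) T0 r a b c d := by
    intro a b ha hb c d h
    exact q.ne h.2 ((rr a b).2 (Or.inr ⟨ha, hb⟩))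
  exact
    { m1 := by
        intro a b c d ha hc hd _ hk e1 e2
        exact (hk (Or.inr ⟨hc, hd, tw ha (Or.inl rfl) hc e1, tw ha (Or.inl rfl) hd e2⟩)).elim
      m2 := by
        intro a b c d _ hc hd _ hk
        exact (hk (Or.inl ⟨hc, hd⟩)).elim
      d1 := by
        intro a b c d ha hb _ _ hk
        exact (hk (Or.inl ⟨ha, hb⟩)).elim
      d2 := by
        intro a b c d ha hb _ _ hk
        exact (hk (Or.inl ⟨ha, hb⟩)).elim
      l := fun _ _ _ _ _ _ h => h.elim }

end

section
variable {V : Type} [DecidableEq V] {G : SimpleGraph V}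

theorem idx_attach {l : List V} (x : {x // x ∈ l}) : @List.idxOf {x // x ∈ l} instBEqOfDecidableEq x l.attach = l.idxOf x.1 := by
  have := idxOf_map_of (l := l.attach) (f := Subtype.val) (fun _ _ _ _ h => Subtype.ext h) (List.mem_attach l x)
  rw [List.attach_map_subtype_val] at this
  exact this.symm

omit [DecidableEq V] in
theorem enum_attach {l : List V} (h : l.Nodup) : IsEnum l.attach := ⟨h.attach, fun x => List.mem_attach l x⟩

/-- a twin directly after its original, at the beginning of the order -/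
theorem val_dup {B : List V} {u v : V} (nd : (u :: v :: B).Nodup) (tw : ∀ z ∈ B, (G.Adj u z ↔ G.Adj v z)) (h : Val G (u :: B)) :
    Val G (u :: v :: B) := by
  have huv : u ≠ v := by
    rintro rfl
    simp at nd
  have huB : u ∉ B := by
    intro h
    simp [h] at nd
  have hvB : v ∉ B := by
    intro h
    simp [h] at nd
  have nd0 : (u :: B).Nodup := by
    simp only [List.nodup_cons, List.mem_cons, not_or] at nd ⊢
    exact ⟨nd.1.2, nd.2.2⟩
  rw [Val_attach nd0] at h
  obtain ⟨T0, h0⟩ := h
  rw [Val_attach nd]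
  have hm : ∀ x, x ∈ u :: v :: B → (if x = v then u else x) ∈ u :: B := by
    intro x hx
    split
    · exact List.mem_cons_self
    · rename_i hxv
      rcases List.mem_cons.1 hx with h | h
      · rw [h]; exact List.mem_cons_self
      · rcases List.mem_cons.1 h with h | h
        · exact absurd h hxv
        · exact List.mem_cons_of_mem _ h
  let r : {x // x ∈ u :: v :: B} → {x // x ∈ u :: B} := fun x => ⟨if x.1 = v then u else x.1, hm x.1 x.2⟩
  have hu : u ∈ u :: v :: B := List.mem_cons_self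
  have hv : v ∈ u :: v :: B := List.mem_cons_of_mem _ List.mem_cons_self
  have rv : ∀ x : {x // x ∈ u :: v :: B}, (r x).1 = if x.1 = v then u else x.1 := fun _ => rfl
  have val : ∀ {x y : {x // x ∈ u :: v :: B}}, x = y ↔ x.1 = y.1 := fun {x y} => ⟨fun e => by rw [e], fun e => Subtype.ext e⟩
  have rr : ∀ x y, r x = r y ↔ (x = y ∨ ((x = ⟨u, hu⟩ ∨ x = ⟨v, hv⟩) ∧ (y = ⟨u, hu⟩ ∨ y = ⟨v, hv⟩))) := by
    intro x y
    rw [show (r x = r y) ↔ (r x).1 = (r y).1 from ⟨fun e => by rw [e], fun e => Subtype.ext e⟩, rv, rv, val, val, val, val, val]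
    by_cases hx : x.1 = v <;> by_cases hy : y.1 = v
    · simp [hx, hy]
    · rw [if_pos hx, if_neg hy, hx]
      constructor
      · intro e
        exact Or.inr ⟨Or.inr rfl, Or.inl e.symm⟩
      · rintro (e | ⟨_, e | e⟩)
        · exact absurd e.symm hy
        · exact e.symm
        · exact absurd e hy
    · rw [if_neg hx, if_pos hy, hy]
      constructor
      · intro e
        exact Or.inr ⟨Or.inl e, Or.inr rfl⟩
      · rintro (e | ⟨e | e, _⟩)
        · exact absurd e hx
        · exact e
        · exact absurd e hx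
    · rw [if_neg hx, if_neg hy]
      constructor
      · intro e
        exact Or.inl e
      · rintro (e | ⟨e1 | e1, e2 | e2⟩)
        · exact e
        · exact e1.trans e2.symm
        · exact absurd e2 hy
        · exact absurd e1 hx
        · exact absurd e1 hx
  have adj : ∀ x y, r x ≠ r y → ((G.comap (Subtype.val : {x // x ∈ u :: v :: B} → V)).Adj x y ↔
      (G.comap (Subtype.val : {x // x ∈ u :: B} → V)).Adj (r x) (r y)) := by
    intro x y hn
    have hn' : ¬ (x = y ∨ ((x = ⟨u, hu⟩ ∨ x = ⟨v, hv⟩) ∧ (y = ⟨u, hu⟩ ∨ y = ⟨v, hv⟩))) := fun k => hn ((rr x y).2 k)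
    rw [val, val, val, val, val] at hn'
    have memB : ∀ {z : {x // x ∈ u :: v :: B}}, z.1 ≠ u → z.1 ≠ v → z.1 ∈ B := by
      intro z h1 h2
      rcases List.mem_cons.1 z.2 with h | h
      · exact absurd h h1
      · rcases List.mem_cons.1 h with h | h
        · exact absurd h h2
        · exact h
    change G.Adj x.1 y.1 ↔ G.Adj (if x.1 = v then u else x.1) (if y.1 = v then u else y.1)
    by_cases hx : x.1 = v <;> by_cases hy : y.1 = v
    · exact absurd (Or.inl (hx.trans hy.symm)) hn'
    · rw [if_pos hx, if_neg hy, hx]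
      have hyu : y.1 ≠ u := fun e => hn' (Or.inr ⟨Or.inr hx, Or.inl e⟩)
      exact (tw _ (memB hyu hy)).symm
    · rw [if_neg hx, if_pos hy, hy]
      have hxu : x.1 ≠ u := fun e => hn' (Or.inr ⟨Or.inl e, Or.inr hy⟩)
      rw [G.adj_comm, G.adj_comm x.1 u]
      exact (tw _ (memB hxu hx)).symm
    · rw [if_neg hx, if_neg hy]
  have i0 : (u :: B).idxOf u = 0 := by simp
  have i1 : (u :: v :: B).idxOf u = 0 := by simp
  have i2 : (u :: v :: B).idxOf v = 1 := by
    rw [List.idxOf_cons_ne _ huv, List.idxOf_cons_self]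
  have iB : ∀ {z}, z ≠ u → z ≠ v → (u :: v :: B).idxOf z = B.idxOf z + 2 ∧ (u :: B).idxOf z = B.idxOf z + 1 := by
    intro z h1 h2
    rw [List.idxOf_cons_ne _ h1.symm, List.idxOf_cons_ne _ h2.symm, List.idxOf_cons_ne _ h1.symm]
    exact ⟨rfl, rfl⟩
  have lt : ∀ x y, r x ≠ r y → (@List.idxOf _ instBEqOfDecidableEq x (u :: v :: B).attach <
      @List.idxOf _ instBEqOfDecidableEq y (u :: v :: B).attach ↔
      @List.idxOf _ instBEqOfDecidableEq (r x) (u :: B).attach < @List.idxOf _ instBEqOfDecidableEq (r y) (u :: B).attach) := by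
    intro x y hn
    have hn' : ¬ (x = y ∨ ((x = ⟨u, hu⟩ ∨ x = ⟨v, hv⟩) ∧ (y = ⟨u, hu⟩ ∨ y = ⟨v, hv⟩))) := fun k => hn ((rr x y).2 k)
    rw [val, val, val, val, val] at hn'
    rw [idx_attach, idx_attach, idx_attach, idx_attach, rv, rv]
    by_cases hx : x.1 = v
    · rw [if_pos hx, hx]
      by_cases hyv : y.1 = v
      · exact absurd (Or.inl (hx.trans hyv.symm)) hn'
      by_cases hyu : y.1 = u
      · exact absurd (Or.inr ⟨Or.inr hx, Or.inl hyu⟩) hn'
      rw [if_neg hyv, i2, i0, (iB hyu hyv).1, (iB hyu hyv).2]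
      omega
    · rw [if_neg hx]
      by_cases hxu : x.1 = u
      · rw [hxu, i1, i0]
        by_cases hyv : y.1 = v
        · exact absurd (Or.inr ⟨Or.inl hxu, Or.inr hyv⟩) hn'
        by_cases hyu : y.1 = u
        · exact absurd (Or.inl (hxu.trans hyu.symm)) hn'
        rw [if_neg hyv, (iB hyu hyv).1, (iB hyu hyv).2]
        omega
      · rw [(iB hxu hx).1, (iB hxu hx).2]
        by_cases hyv : y.1 = v
        · rw [if_pos hyv, hyv, i2, i0]
          omega
        by_cases hyu : y.1 = u
        · rw [if_neg hyv, hyu, i1, i0]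
          omega
        rw [if_neg hyv, (iB hyu hyv).1, (iB hyu hyv).2]
        omega
  have cons : ∀ x y, ¬ CrD (u :: v :: B).attach ⟨u, hu⟩ ⟨v, hv⟩ x y := by
    rintro x y ⟨n, h⟩
    have e : ∀ z : {x // x ∈ u :: v :: B}, z.1 ≠ u → z.1 ≠ v → ¬ Pool.Agent.SOC.Btw (u :: v :: B).attach ⟨u, hu⟩ ⟨v, hv⟩ z := by
      intro z h1 h2
      unfold Pool.Agent.SOC.Btw
      rw [idx_attach, idx_attach, idx_attach]
      simp only
      rw [i1, i2, (iB h1 h2).1]
      omega
    have hxu : x.1 ≠ u := fun k => n.2.1 (Subtype.ext k.symm)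
    have hxv : x.1 ≠ v := fun k => n.2.2.2.1 (Subtype.ext k.symm)
    have hyu : y.1 ≠ u := fun k => n.2.2.1 (Subtype.ext k.symm)
    have hyv : y.1 ≠ v := fun k => n.2.2.2.2.1 (Subtype.ext k.symm)
    exact h ⟨fun k => absurd k (e x hxu hxv), fun k => absurd k (e y hyu hyv)⟩
  obtain ⟨T, hT⟩ := dup_qt (s := (u :: v :: B).attach) (s0 := (u :: B).attach) (r := r) (u := ⟨u, hu⟩) (v := ⟨v, hv⟩)
    (enum_attach nd) rr adj lt cons (Pool.Agent.SOK.qt_crD h0)
  exact ⟨T, qt_cross hT⟩

end

end Pool.Agent.SOM
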