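import Pool.Agent.SOJ.Pres

/-! Project SOM (MP_66ba69_lc, change of the word of a side), module Flip: exchange of two consecutive adjacent points. -/

set_option autoImplicit false

namespace Pool.Agent.SOM

open Pool.Agent.SOC Pool.Agent.SOD Pool.Agent.RUP Pool.Agent.SOF Pool.Agent.SOG Pool.Agent.SOJ

variable {V : Type} {G : SimpleGraph V} {X X' T : V → V → V → V → Prop} {s p f : V}

/-- the points `s`, `p` are on different sides -/
def Opp (s p a b c d : V) : Prop := ((a = s ∨ b = s) ∧ (c = p ∨ d = p)) ∨ ((a = p ∨ b = p) ∧ (c = s ∨ d = s))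

/-- the relation without the quartets with `s`, `p` on different sides -/
def FT (T : V → V → V → V → Prop) (s p a b c d : V) : Prop := T a b c d ∧ ¬ Opp s p a b c d

/-- `X'` is the relation `X` with exchanged points `s`, `p` -/
structure Exc (X X' : V → V → V → V → Prop) (s p : V) : Prop where
  e1 : ∀ {a b c d}, (a ≠ s ∧ b ≠ s ∧ c ≠ s ∧ d ≠ s) ∨ (a ≠ p ∧ b ≠ p ∧ c ≠ p ∧ d ≠ p) → (X' a b c d ↔ X a b c d)
  e2 : ∀ c d, ¬ X' s p c d
  e3 : ∀ {c d}, c ≠ s → c ≠ p → d ≠ s → d ≠ p → X' s c p d → X p c s d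

theorem flip_qt (hX' : Sepr X') (nsp : s ≠ p) (he : Exc X X' s p) (q : QT G X T)
    (H1 : ∀ {c d}, c ≠ s → c ≠ p → d ≠ s → d ≠ p → c ≠ d → G.Adj s c → G.Adj p d → X p c s d → T s p c d)
    (H2 : ∀ {a b x y}, y ≠ p → x ≠ s → T a s b y → T a x b p → T a x b y) : QT G X' (FT T s p) := by
  have o1 : ∀ {a b c d}, Opp s p b a c d → Opp s p a b c d := by
    rintro a b c d (⟨h1, h2⟩ | ⟨h1, h2⟩)
    · exact Or.inl ⟨h1.symm, h2⟩
    · exact Or.inr ⟨h1.symm, h2⟩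
  have o2 : ∀ {a b c d}, Opp s p c d a b → Opp s p a b c d := by
    rintro a b c d (⟨h1, h2⟩ | ⟨h1, h2⟩)
    · exact Or.inr ⟨h2, h1⟩
    · exact Or.inl ⟨h2, h1⟩
  have s1 : ∀ {a b c d}, FT T s p a b c d → FT T s p b a c d := fun h => ⟨q.swap₁ h.1, fun k => h.2 (o1 k)⟩
  have s2 : ∀ {a b c d}, FT T s p a b c d → FT T s p c d a b := fun h => ⟨q.swap₂ h.1, fun k => h.2 (o2 k)⟩
  have s3 : ∀ {a b c d}, FT T s p a b c d → FT T s p a b d c := fun h => s2 (s1 (s2 h))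
  have x1 : ∀ {a b c d}, X' a b c d → X' b a c d := hX'.swap
  have x2 : ∀ {a b c d}, X' a b c d → X' c d a b := hX'.comm
  have x3 : ∀ {a b c d}, X' a b c d → X' a b d c := fun h => x2 (x1 (x2 h))
  have nOpp : ∀ {a b c d : V}, (a ≠ s ∧ b ≠ s ∧ c ≠ s ∧ d ≠ s) ∨ (a ≠ p ∧ b ≠ p ∧ c ≠ p ∧ d ≠ p) → ¬ Opp s p a b c d := by
    rintro a b c d (⟨h1, h2, h3, h4⟩ | ⟨h1, h2, h3, h4⟩) (⟨k1 | k1, k2 | k2⟩ | ⟨k1 | k1, k2 | k2⟩) <;> contradiction
  have key : ∀ {c d}, G.Adj s c → G.Adj p d → c ≠ p → d ≠ s → c ≠ d → X' s c p d → FT T s p s p c d := by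
    intro c d h1 h2 h3 h4 h5 h6
    refine ⟨H1 h1.ne.symm h3 h4 h2.ne.symm h5 h1 h2 (he.e3 h1.ne.symm h3 h4 h2.ne.symm h6), ?_⟩
    rintro (⟨_, k | k⟩ | ⟨_, k | k⟩)
    · exact h3 k
    · exact h2.ne k.symm
    · exact h1.ne k.symm
    · exact h4 k
  have fer : ∀ {a b x y x' y'}, FT T s p a x b y → FT T s p a x' b y' → T a x b y' → FT T s p a x b y' ∨ FT T s p a x' b y := by
    intro a b x y x' y' h h' k
    by_cases o : Opp s p a x b y'
    · right
      have hab : a ≠ x := q.ne h.1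
      have hby : b ≠ y := q.ne (q.swap₂ h.1)
      have hax' : a ≠ x' := q.ne h'.1
      have hby' : b ≠ y' := q.ne (q.swap₂ h'.1)
      have hxy : x ≠ y := (q.adj (q.swap₁ (q.swap₂ (q.swap₁ (q.swap₂ h.1))))).ne
      have hxy' : x' ≠ y' := (q.adj (q.swap₁ (q.swap₂ (q.swap₁ (q.swap₂ h'.1))))).ne
      have hay' : a ≠ y' := (q.adj (q.swap₂ (q.swap₁ (q.swap₂ h'.1)))).ne
      have hbx' : x' ≠ b := (q.adj (q.swap₁ h'.1)).ne
      rcases o with ⟨k1, k2⟩ | ⟨k1, k2⟩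
      · rcases k1 with k1 | k1
        · rcases k2 with k2 | k2
          · exact absurd (Or.inl ⟨Or.inl k1, Or.inl k2⟩) h.2
          · exact absurd (Or.inl ⟨Or.inl k1, Or.inr k2⟩) h'.2
        · rcases k2 with k2 | k2
          · exact absurd (Or.inl ⟨Or.inr k1, Or.inl k2⟩) h.2
          · subst k1 k2
            have hy : y ≠ y' := fun e => h.2 (Or.inl ⟨Or.inr rfl, Or.inr e⟩)
            have hx : x' ≠ x := fun e => h'.2 (Or.inl ⟨Or.inr e, Or.inr rfl⟩)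
            refine ⟨H2 hy hx h.1 h'.1, ?_⟩
            rintro (⟨g1 | g1, _⟩ | ⟨g1 | g1, _⟩)
            · exact hab g1
            · exact hx g1
            · exact hay' g1
            · exact hxy' g1
      · rcases k1 with k1 | k1
        · rcases k2 with k2 | k2
          · exact absurd (Or.inr ⟨Or.inl k1, Or.inl k2⟩) h.2
          · exact absurd (Or.inr ⟨Or.inl k1, Or.inr k2⟩) h'.2
        · rcases k2 with k2 | k2
          · exact absurd (Or.inr ⟨Or.inr k1, Or.inl k2⟩) h.2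
          · subst k1 k2
            have hy : y ≠ y' := fun e => h.2 (Or.inr ⟨Or.inr rfl, Or.inr e⟩)
            have hx : x' ≠ x := fun e => h'.2 (Or.inr ⟨Or.inr e, Or.inr rfl⟩)
            refine ⟨q.swap₂ (H2 hx hy (q.swap₂ h'.1) (q.swap₂ h.1)), ?_⟩
            rintro (⟨g1 | g1, _⟩ | ⟨g1 | g1, _⟩)
            · exact hay' g1
            · exact hxy' g1
            · exact hab g1
            · exact hx g1
    · exact Or.inl ⟨k, o⟩
  refine ⟨s1, s2, fun h => q.ne h.1, fun h => q.adj h.1, ?_, ?_, fun h h' => q.notboth h.1 h'.1, ?_, ?_⟩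
  · rintro a b c d ⟨h, n⟩ hx
    by_cases k : (a ≠ s ∧ b ≠ s ∧ c ≠ s ∧ d ≠ s) ∨ (a ≠ p ∧ b ≠ p ∧ c ≠ p ∧ d ≠ p)
    · exact q.nocross h ((he.e1 k).1 hx)
    · have hs : (a = s ∨ b = s) ∨ (c = s ∨ d = s) := by
        by_contra hn
        exact k (Or.inl ⟨fun e => hn (Or.inl (Or.inl e)), fun e => hn (Or.inl (Or.inr e)), fun e => hn (Or.inr (Or.inl e)),
          fun e => hn (Or.inr (Or.inr e))⟩)
      have hp : (a = p ∨ b = p) ∨ (c = p ∨ d = p) := by
        by_contra hn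
        exact k (Or.inr ⟨fun e => hn (Or.inl (Or.inl e)), fun e => hn (Or.inl (Or.inr e)), fun e => hn (Or.inr (Or.inl e)),
          fun e => hn (Or.inr (Or.inr e))⟩)
      have c2 : ∀ {a b c d : V}, (a = s ∨ b = s) → (a = p ∨ b = p) → ¬ X' a b c d := by
        rintro a b c d (rfl | rfl) (rfl | rfl) hx
        · exact (hX'.dist hx).1 (absurd rfl nsp)
        · exact he.e2 _ _ hx
        · exact he.e2 _ _ (x1 hx)
        · exact (hX'.dist hx).1 (absurd rfl nsp)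
      rcases hs with hs | hs <;> rcases hp with hp | hp
      · exact c2 hs hp hx
      · exact n (Or.inl ⟨hs, hp⟩)
      · exact n (Or.inr ⟨hp, hs⟩)
      · exact c2 hs hp (x2 hx)
  · intro a b c d h1 h2 n1 n2 n3 n4 hx
    by_cases k : (a ≠ s ∧ b ≠ s ∧ c ≠ s ∧ d ≠ s) ∨ (a ≠ p ∧ b ≠ p ∧ c ≠ p ∧ d ≠ p)
    · have k' : (a ≠ s ∧ c ≠ s ∧ b ≠ s ∧ d ≠ s) ∨ (a ≠ p ∧ c ≠ p ∧ b ≠ p ∧ d ≠ p) := by tauto
      have k2 : (a ≠ s ∧ d ≠ s ∧ b ≠ s ∧ c ≠ s) ∨ (a ≠ p ∧ d ≠ p ∧ b ≠ p ∧ c ≠ p) := by tauto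
      rcases q.some h1 h2 n1 n2 n3 n4 ((he.e1 k').1 hx) with h | h
      · exact Or.inl ⟨h, nOpp k⟩
      · exact Or.inr ⟨h, nOpp k2⟩
    · have hs : (a = s ∨ c = s) ∨ (b = s ∨ d = s) := by
        by_contra hn
        exact k (Or.inl ⟨fun e => hn (Or.inl (Or.inl e)), fun e => hn (Or.inr (Or.inl e)), fun e => hn (Or.inl (Or.inr e)),
          fun e => hn (Or.inr (Or.inr e))⟩)
      have hp : (a = p ∨ c = p) ∨ (b = p ∨ d = p) := by
        by_contra hn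
        exact k (Or.inr ⟨fun e => hn (Or.inl (Or.inl e)), fun e => hn (Or.inr (Or.inl e)), fun e => hn (Or.inl (Or.inr e)),
          fun e => hn (Or.inr (Or.inr e))⟩)
      have c2 : ∀ {a b c d : V}, (a = s ∨ b = s) → (a = p ∨ b = p) → ¬ X' a b c d := by
        rintro a b c d (rfl | rfl) (rfl | rfl) hx
        · exact (hX'.dist hx).1 (absurd rfl nsp)
        · exact he.e2 _ _ hx
        · exact he.e2 _ _ (x1 hx)
        · exact (hX'.dist hx).1 (absurd rfl nsp)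
      rcases hs with hs | hs <;> rcases hp with hp | hp
      · exact absurd hx (c2 hs hp)
      · rcases hs with rfl | rfl <;> rcases hp with rfl | rfl
        · exact Or.inl (key h1 h2 n3.symm n2.symm n4 hx)
        · exact Or.inr (s3 (key h1 h2.symm n4 n1.symm n3.symm (x3 hx)))
        · exact Or.inr (s3 (s2 (key h1.symm h2 n1 n4.symm n2 (x1 hx))))
        · exact Or.inl (s1 (s2 (s3 (key h1.symm h2.symm n2 n3 n1 (x1 (x3 hx))))))
      · rcases hs with rfl | rfl <;> rcases hp with rfl | rfl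
        · exact Or.inl (s1 (s3 (key h2 h1 n2.symm n3.symm n4.symm (x2 hx))))
        · exact Or.inr (s1 (s2 (key h2 h1.symm n4.symm n1 n2.symm (x2 (x1 hx)))))
        · exact Or.inr (s1 (s2 (s2 (key h2.symm h1 n1.symm n4 n3 (x2 (x3 hx))))))
        · exact Or.inl (s3 (s1 (s2 (key h2.symm h1.symm n3 n2 n1.symm (x2 (x1 (x3 hx)))))))
      · exact absurd (x2 hx) (c2 hs hp)
  · intro u w x y z h h' n
    refine ⟨q.trans h.1 h'.1 n, ?_⟩
    rintro (⟨k1, k2 | k2⟩ | ⟨k1, k2 | k2⟩)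
    · exact h.2 (Or.inl ⟨k1, Or.inl k2⟩)
    · exact h'.2 (Or.inl ⟨k1, Or.inr k2⟩)
    · exact h.2 (Or.inr ⟨k1, Or.inl k2⟩)
    · exact h'.2 (Or.inr ⟨k1, Or.inr k2⟩)
  · intro a b x y x' y' h h'
    rcases q.ferrers h.1 h'.1 with k | k
    · exact fer h h' k
    · exact (fer h' h k).symm

/-- exchange, a point with the smaller neighbourhood -/
theorem flip4 (hX : Sepr X) (hX' : Sepr X') (he : Exc X X' s p) (q : QT G X T) (hp : Pr4 G X s p) (tn : TyN G X s p f)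
    (crx : ∀ {w y}, U1 G s p w → U2 G s p y → X p w s y) : ∃ T', QT G X' T' ∧
      ∀ {x y w}, U2 G s p y → U1 G s p w → x ≠ s → ¬ T' p x y w := by
  have q' := mt_qt hX q hp tn
  have nsp := hp.adj.ne
  have fc : ∀ {y}, U2 G s p y → Fc G X s p f y := fun hy => ⟨hy, by
    have h := crx tn.f1 hy
    exact hX.comm h⟩
  have nfs : ¬ Fc G X s p f s := fun h => h.1.2.ne rfl
  have nf1 : ∀ {w}, U1 G s p w → ¬ Fc G X s p f w := fun hw h => hw.2.2 h.1.2
  have N2 : ∀ {y z}, U2 G s p y → U2 G s p z → y ≠ z → MT G X T s p f p s y z := fun hy hz h => mt_t nfs hp.adj (fc hy) (fc hz) h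
  have N3 : ∀ {w y z}, U1 G s p w → U2 G s p y → U2 G s p z → y ≠ z → MT G X T s p f p w y z := fun hw hy hz h =>
    mt_t (nf1 hw) hw.2.1 (fc hy) (fc hz) h
  have mem : ∀ {a}, a ≠ p → a ≠ s → G.Adj a p → U2 G s p a ∨ U1 G s p a := by
    intro a h1 h2 h3
    by_cases h : G.Adj a s
    · exact Or.inl ⟨h1, h⟩
    · exact Or.inr ⟨h2, h3, h⟩
  refine ⟨_, flip_qt hX' nsp he q' ?_ ?_, ?_⟩
  · intro c d hc1 hc2 hd1 hd2 hcd h1 h2 hx
    have hc : U2 G s p c := ⟨hc2, h1.symm⟩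
    rcases mem hd2 hd1 h2.symm with hd | hd
    · exact q'.swap₁ (N2 hc hd hcd)
    · exact absurd (hX.comm (hX.swap (hX.comm (crx hd hc)))) (hX.amo (hX.comm (hX.swap (hX.comm hx))))
  · intro a b x y hy hx h h'
    have bp : b ≠ p := q'.ne (q'.swap₂ h')
    have bs : G.Adj b s := (q'.adj (q'.swap₁ h)).symm
    have ys : G.Adj y s := (q'.adj (q'.swap₁ (q'.swap₂ (q'.swap₁ (q'.swap₂ h))))).symm
    have ap : G.Adj a p := q'.adj (q'.swap₂ (q'.swap₁ (q'.swap₂ h')))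
    have as : a ≠ s := q'.ne h
    have by' : b ≠ y := q'.ne (q'.swap₂ h)
    have hb : U2 G s p b := ⟨bp, bs⟩
    have hyy : U2 G s p y := ⟨hy, ys⟩
    rcases mem ap.ne as ap with ha | ha
    · rcases q'.ferrers h h' with k | k
      · exact absurd (q'.swap₁ (q'.swap₂ (q'.swap₁ (q'.swap₂ k)))) (q'.notboth (q'.swap₁ (N2 hb ha (q'.adj h).ne.symm)))
      · exact k
    · have n3 := q'.swap₁ (N3 ha hb hyy by')
      rcases q'.ferrers h' n3 with k | k
      · exact k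
      · exact absurd (q'.adj (q'.swap₁ (q'.swap₂ (q'.swap₁ (q'.swap₂ k))))) (G.irrefl)
  · rintro x y w hy hw hxs ⟨h, _⟩
    have h' := q'.swap₂ (q'.swap₁ (q'.swap₂ h))
    by_cases hx : G.Adj x s
    · have hxp : x ≠ p := (q'.ne h).symm
      have yx : y ≠ x := (q'.adj (q'.swap₁ h)).ne.symm
      exact q'.notboth (N3 hw hy ⟨hxp, hx⟩ yx) h'
    · have e1 : G.Adj p w := hw.2.1.symm
      have e2 : G.Adj s y := hy.2.symm
      rcases q'.some e1 e2 hp.adj.ne.symm hy.1.symm hw.1.symm (u12 hy hw).symm (crx hw hy) with k | k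
      · exact hw.2.2 (q'.adj (q'.swap₁ k)).symm
      · rcases q'.ferrers h' (q'.swap₂ (q'.swap₁ (q'.swap₂ k))) with m | m
        · exact hx (q'.adj (q'.swap₁ (q'.swap₂ (q'.swap₁ (q'.swap₂ m)))))
        · exact G.irrefl (q'.adj (q'.swap₂ (q'.swap₁ (q'.swap₂ (q'.swap₁ m)))))

/-- exchange, disjoint neighbourhoods -/
theorem flip2 (hX : Sepr X) (hX' : Sepr X') (he : Exc X X' s p) (q : QT G X T) (nsp : G.Adj s p)
    (dj : ∀ {a}, G.Adj a s → G.Adj a p → False)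
    (crx : ∀ {w y}, w ≠ s → y ≠ p → G.Adj w p → G.Adj y s → X p w s y) : ∃ T', QT G X' T' := by
  have cr : ∀ {w y}, w ≠ s → y ≠ p → G.Adj w p → G.Adj y s → T s w p y := by
    intro w y h1 h2 h3 h4
    have n : w ≠ y := fun e => dj (e ▸ h4) h3
    rcases q.some h3.symm h4.symm nsp.ne.symm h2.symm h1.symm n (crx h1 h2 h3 h4) with k | k
    · exact absurd (q.adj (q.swap₁ k)).symm (fun h => dj h h3)
    · exact q.swap₂ k
  refine ⟨_, flip_qt hX' nsp.ne he q ?_ ?_⟩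
  · intro c d hc1 hc2 hd1 hd2 hcd h1 h2 hx
    exact absurd (hX.comm (hX.swap (hX.comm (crx hd1 hc2 h2.symm h1.symm)))) (hX.amo (hX.comm (hX.swap (hX.comm hx))))
  · intro a b x y hy hx h h'
    have bp : b ≠ p := q.ne (q.swap₂ h')
    have bs : G.Adj b s := (q.adj (q.swap₁ h)).symm
    have ys : G.Adj y s := (q.adj (q.swap₁ (q.swap₂ (q.swap₁ (q.swap₂ h))))).symm
    have xp : G.Adj x p := q.adj (q.swap₁ (q.swap₂ (q.swap₁ (q.swap₂ h'))))
    have by' : b ≠ y := q.ne (q.swap₂ h)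
    have k1 : T s x p b := cr hx bp xp bs
    have k2 : T s x p y := cr hx hy xp ys
    have k3 : T s x b y := q.trans (q.swap₂ (q.swap₁ (q.swap₂ k1))) k2 by'
    exact q.swap₂ (q.trans (q.swap₂ h) (q.swap₂ k3) (q.ne h'))

end Pool.Agent.SOM
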