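import Pool.Agent.SOM.Flip
import Pool.Agent.SOM.Dup
import Pool.Agent.SOK.GlueL

/-! Project SOM (MP_66ba69_lc, change of the word of a side), module FlipL: exchange of two consecutive adjacent points, for lists. -/

set_option autoImplicit false

namespace Pool.Agent.SOM

open Pool.Agent.SOC Pool.Agent.SOD Pool.Agent.RUP Pool.Agent.SOF Pool.Agent.SOG Pool.Agent.SOJ Pool.Agent.SOV Pool.Agent.SOK Pool.Agent.SOS

section
variable {V : Type} [DecidableEq V] {G : SimpleGraph V} {s p : V} {B1 B2 : List V}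

/-- positions -/
structure Ix (s p : V) (B1 B2 : List V) : Prop where
  sp : s ≠ p
  p0 : (p :: s :: (B1 ++ B2)).idxOf p = 0
  s0 : (p :: s :: (B1 ++ B2)).idxOf s = 1
  s1 : (s :: p :: (B1 ++ B2)).idxOf s = 0
  p1 : (s :: p :: (B1 ++ B2)).idxOf p = 1
  m : ∀ {z}, z ∈ B1 ∨ z ∈ B2 → z ≠ s ∧ z ≠ p
  b1 : ∀ {z}, z ∈ B1 → 2 ≤ (p :: s :: (B1 ++ B2)).idxOf z ∧ (p :: s :: (B1 ++ B2)).idxOf z < B1.length + 2
  b2 : ∀ {z}, z ∈ B2 → B1.length + 2 ≤ (p :: s :: (B1 ++ B2)).idxOf z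
  e : ∀ {z}, z ≠ s → z ≠ p → (s :: p :: (B1 ++ B2)).idxOf z = (p :: s :: (B1 ++ B2)).idxOf z

theorem ix_of (nd : (p :: s :: (B1 ++ B2)).Nodup) : Ix s p B1 B2 := by
  simp only [List.nodup_cons, List.mem_cons, List.mem_append, not_or] at nd
  obtain ⟨⟨nps, np1, np2⟩, ⟨ns1, ns2⟩, nd⟩ := nd
  have nd' := List.nodup_append.1 nd
  have e1 : ∀ {z}, z ≠ s → z ≠ p → (p :: s :: (B1 ++ B2)).idxOf z = (B1 ++ B2).idxOf z + 2 := by
    intro z h1 h2
    rw [List.idxOf_cons_ne _ h2.symm, List.idxOf_cons_ne _ h1.symm]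
  have e2 : ∀ {z}, z ≠ s → z ≠ p → (s :: p :: (B1 ++ B2)).idxOf z = (B1 ++ B2).idxOf z + 2 := by
    intro z h1 h2
    rw [List.idxOf_cons_ne _ h1.symm, List.idxOf_cons_ne _ h2.symm]
  have m : ∀ {z}, z ∈ B1 ∨ z ∈ B2 → z ≠ s ∧ z ≠ p := by
    rintro z (h | h)
    · exact ⟨fun e => ns1 (e ▸ h), fun e => np1 (e ▸ h)⟩
    · exact ⟨fun e => ns2 (e ▸ h), fun e => np2 (e ▸ h)⟩
  refine ⟨fun e => nps e.symm, by simp, ?_, by simp, ?_, m, ?_, ?_, ?_⟩
  · rw [List.idxOf_cons_ne _ nps, List.idxOf_cons_self]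
  · rw [List.idxOf_cons_ne _ (fun e => nps e.symm), List.idxOf_cons_self]
  · intro z hz
    obtain ⟨h1, h2⟩ := m (Or.inl hz)
    rw [e1 h1 h2, List.idxOf_append_of_mem hz]
    have := List.idxOf_lt_length_iff.2 hz
    omega
  · intro z hz
    obtain ⟨h1, h2⟩ := m (Or.inr hz)
    rw [e1 h1 h2, List.idxOf_append_of_notMem (fun h => nd'.2.2 z h z hz rfl)]
    omega
  · intro z h1 h2
    rw [e1 h1 h2, e2 h1 h2]

omit [DecidableEq V] in
theorem mem_en (hs : IsEnum (p :: s :: (B1 ++ B2))) {z : V} (h1 : z ≠ s) (h2 : z ≠ p) : z ∈ B1 ∨ z ∈ B2 := by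
  have h := hs.2 z
  simp only [List.mem_cons, List.mem_append] at h
  rcases h with h | h | h
  · exact absurd h h2
  · exact absurd h h1
  · exact h

theorem exc_l (hs : IsEnum (p :: s :: (B1 ++ B2))) : Exc (CrD (p :: s :: (B1 ++ B2))) (CrD (s :: p :: (B1 ++ B2))) s p := by
  have ix := ix_of hs.1
  have ge : ∀ {z}, z ≠ s → z ≠ p → 2 ≤ (p :: s :: (B1 ++ B2)).idxOf z := by
    intro z h1 h2
    rcases mem_en hs h1 h2 with h | h
    · exact (ix.b1 h).1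
    · have := ix.b2 h
      omega
  have lt1 : ∀ a ∈ {v : V | v ≠ s}, ∀ b ∈ {v : V | v ≠ s}, ((s :: p :: (B1 ++ B2)).idxOf a < (s :: p :: (B1 ++ B2)).idxOf b ↔
      (p :: s :: (B1 ++ B2)).idxOf (id a) < (p :: s :: (B1 ++ B2)).idxOf (id b)) := by
    intro a ha b hb
    simp only [id]
    by_cases h1 : a = p
    · by_cases h2 : b = p
      · rw [h1, h2]
        simp
      · rw [h1, ix.p1, ix.p0, ix.e hb h2]
        have := ge hb h2
        omega
    · rw [ix.e ha h1]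
      have := ge ha h1
      by_cases h2 : b = p
      · rw [h2, ix.p1, ix.p0]
        omega
      · rw [ix.e hb h2]
  have lt2 : ∀ a ∈ {v : V | v ≠ p}, ∀ b ∈ {v : V | v ≠ p}, ((s :: p :: (B1 ++ B2)).idxOf a < (s :: p :: (B1 ++ B2)).idxOf b ↔
      (p :: s :: (B1 ++ B2)).idxOf (id a) < (p :: s :: (B1 ++ B2)).idxOf (id b)) := by
    intro a ha b hb
    simp only [id]
    by_cases h1 : a = s
    · by_cases h2 : b = s
      · rw [h1, h2]
        simp
      · rw [h1, ix.s1, ix.s0, ix.e h2 hb]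
        have := ge h2 hb
        omega
    · rw [ix.e h1 ha]
      have := ge h1 ha
      by_cases h2 : b = s
      · rw [h2, ix.s1, ix.s0]
        omega
      · rw [ix.e h2 hb]
  refine ⟨?_, ?_, ?_⟩
  · rintro a b c d (⟨h1, h2, h3, h4⟩ | ⟨h1, h2, h3, h4⟩)
    · unfold CrD
      rw [cross_of_lt (S := {v : V | v ≠ s}) (f := id) lt1 h1 h2 h3 h4]
      rfl
    · unfold CrD
      rw [cross_of_lt (S := {v : V | v ≠ p}) (f := id) lt2 h1 h2 h3 h4]
      rfl
  · rintro c d ⟨⟨h1, h2, h3, h4, h5, h6⟩, h⟩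
    have k1 := ge h2.symm h4.symm
    have k2 := ge h3.symm h5.symm
    rw [← ix.e h2.symm h4.symm] at k1
    rw [← ix.e h3.symm h5.symm] at k2
    have k3 := ix.s1
    have k4 := ix.p1
    unfold Cross SOC.Btw at h
    omega
  · rintro c d h1 h2 h3 h4 ⟨⟨g1, g2, g3, g4, g5, g6⟩, h⟩
    have k1 := ge h1 h2
    have k2 := ge h3 h4
    refine ⟨⟨h2.symm, g2.symm, h4.symm, h1, g5, g3⟩, ?_⟩
    have k3 := ix.s1
    have k4 := ix.p1
    have k5 := ix.s0
    have k6 := ix.p0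
    have k7 := ix.e h1 h2
    have k8 := ix.e h3 h4
    unfold Cross SOC.Btw at h ⊢
    omega

/-- the hypotheses for an exchange, `s` has the smaller neighbourhood -/
structure F4 (G : SimpleGraph V) (s p : V) (B1 B2 : List V) : Prop where
  adj : G.Adj s p
  sub : ∀ {z}, z ∈ B1 ∨ z ∈ B2 → G.Adj s z → G.Adj p z
  n1 : ∀ {z}, z ∈ B1 → ¬ G.Adj s z
  n2 : ∀ {z}, z ∈ B2 → G.Adj p z → G.Adj s z
  cl : ∀ {a b}, a ∈ B2 → b ∈ B1 → G.Adj s a → G.Adj p b → G.Adj a b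
  f : ∃ b ∈ B1, G.Adj p b

/-- the hypotheses for an exchange, disjoint neighbourhoods -/
structure F2 (G : SimpleGraph V) (s p : V) (B1 B2 : List V) : Prop where
  adj : G.Adj s p
  n1 : ∀ {z}, z ∈ B1 → ¬ G.Adj s z
  n2 : ∀ {z}, z ∈ B2 → ¬ G.Adj p z

omit [DecidableEq V] in
theorem enum_sw (hs : IsEnum (p :: s :: (B1 ++ B2))) : IsEnum (s :: p :: (B1 ++ B2)) := by
  refine ⟨?_, ?_⟩
  · have h := hs.1
    simp only [List.nodup_cons, List.mem_cons, not_or] at h ⊢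
    exact ⟨⟨fun e => h.1.1 e.symm, h.2.1⟩, h.1.2, h.2.2⟩
  · intro v
    have h := hs.2 v
    simp only [List.mem_cons] at h ⊢
    tauto

theorem crx_l (hs : IsEnum (p :: s :: (B1 ++ B2))) {w y : V} (hw : w ∈ B1) (hy : y ∈ B2) : CrD (p :: s :: (B1 ++ B2)) p w s y := by
  have ix := ix_of hs.1
  have h1 := ix.m (Or.inl hw)
  have h2 := ix.m (Or.inr hy)
  have h3 := ix.b1 hw
  have h4 := ix.b2 hy
  have h5 := ix.p0
  have h6 := ix.s0
  have n : w ≠ y := by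
    rintro rfl
    omega
  refine ⟨⟨h1.2.symm, ix.sp.symm, h2.2.symm, h1.1, n, h2.1.symm⟩, ?_⟩
  unfold Cross SOC.Btw
  omega

theorem cons_l (hs : IsEnum (p :: s :: (B1 ++ B2))) (c d : V) : ¬ CrD (p :: s :: (B1 ++ B2)) s p c d := by
  rintro ⟨⟨h1, h2, h3, h4, h5, h6⟩, h⟩
  have ix := ix_of hs.1
  have ge : ∀ {z}, z ≠ s → z ≠ p → 2 ≤ (p :: s :: (B1 ++ B2)).idxOf z := by
    intro z h1 h2
    rcases mem_en hs h1 h2 with h | h
    · exact (ix.b1 h).1
    · have := ix.b2 h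
      omega
  have k1 := ge h2.symm h4.symm
  have k2 := ge h3.symm h5.symm
  have k3 := ix.s0
  have k4 := ix.p0
  unfold Cross SOC.Btw at h
  omega

theorem flip4E (hs : IsEnum (p :: s :: (B1 ++ B2))) (h : F4 G s p B1 B2) (v : Val G (p :: s :: (B1 ++ B2))) :
    ∃ T, Vl G (s :: p :: (B1 ++ B2)) T ∧ Un G (B1 ++ B2) [s, p] T := by
  have hs' := enum_sw hs
  have ix := ix_of hs.1
  rw [Val_enum hs] at v
  obtain ⟨T, hT⟩ := v
  have u2 : ∀ {a}, U2 G s p a → a ∈ B2 ∧ G.Adj s a := by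
    rintro a ⟨h1, h2⟩
    rcases mem_en hs h2.ne h1 with h3 | h3
    · exact absurd h2.symm (h.n1 h3)
    · exact ⟨h3, h2.symm⟩
  have u1 : ∀ {a}, U1 G s p a → a ∈ B1 ∧ G.Adj p a := by
    rintro a ⟨h1, h2, h3⟩
    rcases mem_en hs h1 h2.ne with h4 | h4
    · exact ⟨h4, h2.symm⟩
    · exact absurd (h.n2 h4 h2.symm).symm h3
  have hp : Pr4 G (CrD (p :: s :: (B1 ++ B2))) s p :=
    { adj := h.adj
      cons := cons_l hs
      sub := fun {a} h1 h2 => (h.sub (mem_en hs h2.ne h1) h2.symm).symm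
      cl := fun ha hb => h.cl (u2 ha).1 (u1 hb).1 (u2 ha).2 (u1 hb).2 }
  obtain ⟨f, hf, hf'⟩ := h.f
  have nf := ix.m (Or.inl hf)
  have tn : TyN G (CrD (p :: s :: (B1 ++ B2))) s p f :=
    { f1 := ⟨nf.1, hf'.symm, fun e => h.n1 hf e.symm⟩
      one := by
        rintro a b c ha hb hc ⟨_, hx⟩
        have k1 := ix.b2 (u2 ha).1
        have k2 := ix.b2 (u2 hb).1
        have k3 := ix.b1 (u1 hc).1
        have k4 := ix.b1 hf
        unfold Cross SOC.Btw at hx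
        omega
      cr := by
        rintro a b ha hb ⟨_, hx⟩
        exfalso
        have k1 := ix.b2 (u2 ha).1
        have k2 := ix.b2 (u2 hb).1
        have k3 := ix.s0
        have k4 := ix.b1 hf
        unfold Cross SOC.Btw at hx
        omega }
  obtain ⟨T', h1, h2⟩ := flip4 (crD_sepr hs) (crD_sepr hs') (exc_l hs) (Pool.Agent.RUP.qt_crD hT) hp tn fun hw hy =>
    crx_l hs (u1 hw).1 (u2 hy).1
  have e : restr G {v | v ∈ s :: p :: (B1 ++ B2)} = G := by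
    ext a b
    simp only [restr, Set.mem_ofPred_eq]
    exact ⟨fun h => h.1, fun h => ⟨h, hs'.2 a, hs'.2 b⟩⟩
  refine ⟨T', ?_, ?_⟩
  · unfold Vl
    rw [e]
    exact qt_cross h1
  · intro q hq r hr p' hp' s' hs'' x hx e1 e2 ht
    have mB : ∀ {z}, z ∈ B1 ++ B2 → z ∈ B1 ∨ z ∈ B2 := fun h => List.mem_append.1 h
    have q1 := h1.adj ht
    have q2 := h1.adj (h1.swap₂ (h1.swap₁ (h1.swap₂ ht)))
    simp only [List.mem_cons, List.not_mem_nil, or_false] at hq hr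
    rcases hq with rfl | rfl
    · rcases hr with rfl | rfl
      · exact e2 q2.symm
      · exact e2 ((h.sub (mB hs'') q2).symm)
    · rcases hr with rfl | rfl
      · have n1 := ix.m (mB hp')
        have n2 := ix.m (mB hs'')
        exact h2 ⟨n1.2, e1⟩ ⟨n2.1, q2.symm, e2⟩ (ix.m (mB hx)).1 ht
      · exact e2 q2.symm

theorem flip2E (hs : IsEnum (p :: s :: (B1 ++ B2))) (h : F2 G s p B1 B2) (v : Val G (p :: s :: (B1 ++ B2))) :
    Val G (s :: p :: (B1 ++ B2)) := by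
  have hs' := enum_sw hs
  rw [Val_enum hs] at v
  rw [Val_enum hs']
  obtain ⟨T, hT⟩ := v
  obtain ⟨T', h1⟩ := flip2 (crD_sepr hs) (crD_sepr hs') (exc_l hs) (Pool.Agent.RUP.qt_crD hT) h.adj
    (by
      intro a h1 h2
      rcases mem_en hs h1.ne h2.ne with h3 | h3
      · exact h.n1 h3 h1.symm
      · exact h.n2 h3 h2.symm) (by
      intro w y h1 h2 h3 h4
      rcases mem_en hs h1 h3.ne with h5 | h5
      · rcases mem_en hs h4.ne h2 with h6 | h6
        · exact absurd h4.symm (h.n1 h6)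
        · exact crx_l hs h5 h6
      · exact absurd h3.symm (h.n2 h5))
  exact ⟨T', qt_cross h1⟩

end

end Pool.Agent.SOM
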