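import Pool.Agent.SOM.FlipL

/-! Project SOM (MP_66ba69_lc, change of the word of a side), module Push: structures along injective maps. -/

set_option autoImplicit false

namespace Pool.Agent.SOM

open Pool.Agent.SOC Pool.Agent.SOD Pool.Agent.RUP Pool.Agent.SOF Pool.Agent.SOG Pool.Agent.SOJ Pool.Agent.SOV Pool.Agent.SOK Pool.Agent.SOS

section
variable {V V' : Type} {G : SimpleGraph V} {G' : SimpleGraph V'}

/-- the image of a relation -/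
def Psh (f : V' → V) (T' : V' → V' → V' → V' → Prop) (x y z w : V) : Prop :=
  ∃ a b c d, T' a b c d ∧ f a = x ∧ f b = y ∧ f c = z ∧ f d = w

theorem qt_pushT {S : Set V'} {f : V' → V} (hf : Set.InjOn f S)
    (hadj : ∀ a ∈ S, ∀ b ∈ S, (G'.Adj a b ↔ G.Adj (f a) (f b))) {cr' : V' → V' → V' → V' → Prop}
    {cr : V → V → V → V → Prop}
    (hcr : ∀ a ∈ S, ∀ b ∈ S, ∀ c ∈ S, ∀ d ∈ S, a ≠ b → c ≠ d → a ≠ c → a ≠ d → b ≠ c → b ≠ d →
      (cr' a b c d ↔ cr (f a) (f b) (f c) (f d))) {T' : V' → V' → V' → V' → Prop} (h : QT (restr G' S) cr' T') :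
    QT (restr G (f '' S)) cr (Psh f T') := by
  have hm : ∀ {a b c d : V'}, T' a b c d → a ∈ S ∧ b ∈ S ∧ c ∈ S ∧ d ∈ S := fun h1 =>
    ⟨(h.adj h1).2.1, (h.adj (h.swap₁ h1)).2.1, (h.adj h1).2.2, (h.adj (h.swap₂ (h.swap₁ (h.swap₂ h1)))).2.2⟩
  have hne : ∀ {a b c d : V'}, T' a b c d → a ≠ b ∧ c ≠ d ∧ a ≠ c ∧ a ≠ d ∧ b ≠ c ∧ b ≠ d := fun h1 =>
    ⟨h.ne h1, h.ne (h.swap₂ h1), (h.adj h1).ne, (h.adj (h.swap₂ (h.swap₁ (h.swap₂ h1)))).ne,
      (h.adj (h.swap₁ h1)).ne, (h.adj (h.swap₁ (h.swap₂ (h.swap₁ (h.swap₂ h1))))).ne⟩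
  have inj : ∀ {a b : V'}, a ∈ S → b ∈ S → f a = f b → a = b := fun ha hb he => hf ha hb he
  refine ⟨?_, ?_, ?_, ?_, ?_, ?_, ?_, ?_, ?_⟩
  · rintro x y z w ⟨a, b, c, d, h1, rfl, rfl, rfl, rfl⟩
    exact ⟨b, a, c, d, h.swap₁ h1, rfl, rfl, rfl, rfl⟩
  · rintro x y z w ⟨a, b, c, d, h1, rfl, rfl, rfl, rfl⟩
    exact ⟨c, d, a, b, h.swap₂ h1, rfl, rfl, rfl, rfl⟩
  · rintro x y z w ⟨a, b, c, d, h1, rfl, rfl, rfl, rfl⟩
    obtain ⟨m1, m2, m3, m4⟩ := hm h1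
    exact fun e => h.ne h1 (inj m1 m2 e)
  · rintro x y z w ⟨a, b, c, d, h1, rfl, rfl, rfl, rfl⟩
    obtain ⟨m1, m2, m3, m4⟩ := hm h1
    exact ⟨(hadj a m1 c m3).1 (h.adj h1).1, ⟨a, m1, rfl⟩, ⟨c, m3, rfl⟩⟩
  · rintro x y z w ⟨a, b, c, d, h1, rfl, rfl, rfl, rfl⟩ h2
    obtain ⟨m1, m2, m3, m4⟩ := hm h1
    obtain ⟨n1, n2, n3, n4, n5, n6⟩ := hne h1
    exact h.nocross h1 ((hcr a m1 b m2 c m3 d m4 n1 n2 n3 n4 n5 n6).2 h2)
  · rintro x y z w ⟨e1, ⟨a, m1, rfl⟩, ⟨c, m3, rfl⟩⟩ ⟨e2, ⟨b, m2, rfl⟩, ⟨d, m4, rfl⟩⟩ n1 n2 n3 n4 hx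
    have g1 := (hadj a m1 c m3).2 e1
    have g2 := (hadj b m2 d m4).2 e2
    have k1 : a ≠ b := fun e => n1 (by rw [e])
    have k2 : a ≠ d := fun e => n2 (by rw [e])
    have k3 : b ≠ c := fun e => n3 (by rw [e])
    have k4 : c ≠ d := fun e => n4 (by rw [e])
    rcases h.some ⟨g1, m1, m3⟩ ⟨g2, m2, m4⟩ k1 k2 k3 k4
      ((hcr a m1 c m3 b m2 d m4 g1.ne g2.ne k1 k2 k3.symm k4).2 hx) with h1 | h1
    · exact Or.inl ⟨a, b, c, d, h1, rfl, rfl, rfl, rfl⟩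
    · exact Or.inr ⟨a, d, b, c, h1, rfl, rfl, rfl, rfl⟩
  · rintro x y z w ⟨a, b, c, d, h1, rfl, rfl, rfl, rfl⟩ ⟨a', d', b', c', h2, e1, e2, e3, e4⟩
    obtain ⟨m1, m2, m3, m4⟩ := hm h1
    obtain ⟨k1, k2, k3, k4⟩ := hm h2
    obtain rfl := inj k1 m1 e1
    obtain rfl := inj k2 m4 e2
    obtain rfl := inj k3 m2 e3
    obtain rfl := inj k4 m3 e4
    exact h.notboth h1 h2
  · rintro u w x y z ⟨a, b, c, d, h1, rfl, rfl, rfl, rfl⟩ ⟨a', b', d', e, h2, e1, e2, e3, rfl⟩ hne'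
    obtain ⟨m1, m2, m3, m4⟩ := hm h1
    obtain ⟨k1, k2, k3, k4⟩ := hm h2
    obtain rfl := inj k1 m1 e1
    obtain rfl := inj k2 m2 e2
    obtain rfl := inj k3 m4 e3
    exact ⟨_, _, _, _, h.trans h1 h2 (fun e => hne' (by rw [e])), rfl, rfl, rfl, rfl⟩
  · rintro a b x y x' y' ⟨a1, x1, b1, y1, h1, rfl, rfl, rfl, rfl⟩ ⟨a2, x2, b2, y2, h2, e1, rfl, e3, rfl⟩
    obtain ⟨m1, m2, m3, m4⟩ := hm h1
    obtain ⟨k1, k2, k3, k4⟩ := hm h2
    obtain rfl := inj k1 m1 e1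
    obtain rfl := inj k3 m3 e3
    rcases h.ferrers h1 h2 with h3 | h3
    · exact Or.inl ⟨_, _, _, _, h3, rfl, rfl, rfl, rfl⟩
    · exact Or.inr ⟨_, _, _, _, h3, rfl, rfl, rfl, rfl⟩

variable [DecidableEq V] [DecidableEq V']

theorem vl_push {f : V' → V} (hf : Function.Injective f) (hadj : ∀ a b, G'.Adj a b ↔ G.Adj (f a) (f b)) {l : List V'}
    {T' : V' → V' → V' → V' → Prop} (h : Vl G' l T') : Vl G (l.map f) (Psh f T') := by
  have e : {v | v ∈ l.map f} = f '' {v | v ∈ l} := by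
    ext x
    simp [List.mem_map]
  unfold Vl
  rw [e]
  refine qt_pushT (fun _ _ _ _ h => hf h) (fun a _ b _ => hadj a b) ?_ h
  intro a ha b hb c hc d hd _ _ _ _ _ _
  exact cross_of_lt (S := {v | v ∈ l}) (fun a ha b hb => by
    rw [idxOf_map_of (fun _ _ _ _ e => hf e) ha, idxOf_map_of (fun _ _ _ _ e => hf e) hb]) ha hb hc hd

omit [DecidableEq V] [DecidableEq V'] in
theorem un_push {f : V' → V} (hf : Function.Injective f) (hadj : ∀ a b, G'.Adj a b ↔ G.Adj (f a) (f b)) {D E : List V'}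
    {T' : V' → V' → V' → V' → Prop} (h : Un G' D E T') : Un G (D.map f) (E.map f) (Psh f T') := by
  intro q hq r hr p hp s hs x hx e1 e2 ht
  obtain ⟨q, hq', rfl⟩ := List.mem_map.1 hq
  obtain ⟨r, hr', rfl⟩ := List.mem_map.1 hr
  obtain ⟨p, hp', rfl⟩ := List.mem_map.1 hp
  obtain ⟨s, hs', rfl⟩ := List.mem_map.1 hs
  obtain ⟨x, hx', rfl⟩ := List.mem_map.1 hx
  obtain ⟨a, b, c, d, h1, g1, g2, g3, g4⟩ := ht
  rw [hf g1, hf g2, hf g3, hf g4] at h1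
  exact h q hq' r hr' p hp' s hs' x hx' ((hadj _ _).2 e1) (fun e => e2 ((hadj _ _).1 e)) h1

/-- the members of a list, as a type -/
theorem lift4 {s p : V} {B1 B2 : List V} (nd : (p :: s :: (B1 ++ B2)).Nodup) : ∃ (U : Type) (_ : DecidableEq U) (f : U → V)
    (p' s' : U) (B1' B2' : List U), Function.Injective f ∧ f p' = p ∧ f s' = s ∧ B1'.map f = B1 ∧ B2'.map f = B2 ∧
      IsEnum (p' :: s' :: (B1' ++ B2')) := by
  obtain ⟨l', hl⟩ := lift_sub (l := p :: s :: (B1 ++ B2))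
  have hm : ∀ x : {v // v ∈ p :: s :: (B1 ++ B2)}, x ∈ l' := by
    intro x
    have h1 : x.1 ∈ l'.map Subtype.val := by rw [hl]; exact x.2
    obtain ⟨u, hu, e⟩ := List.mem_map.1 h1
    rwa [Subtype.ext e] at hu
  have hnd : l'.Nodup := List.Nodup.of_map Subtype.val (by rw [hl]; exact nd)
  obtain ⟨p', l1, rfl, hp', hl1⟩ := List.map_eq_cons_iff.1 hl
  obtain ⟨s', l2, rfl, hs', hl2⟩ := List.map_eq_cons_iff.1 hl1
  obtain ⟨B1', B2', rfl, hB1, hB2⟩ := List.map_eq_append_iff.1 hl2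
  exact ⟨_, inferInstance, Subtype.val, p', s', B1', B2', Subtype.val_injective, hp', hs', hB1, hB2, hnd, hm⟩

/-- exchange, `s` has the smaller neighbourhood -/
theorem flip4L {s p : V} {B1 B2 : List V} (nd : (p :: s :: (B1 ++ B2)).Nodup) (h : F4 G s p B1 B2)
    (v : Val G (p :: s :: (B1 ++ B2))) : ∃ T, Vl G (s :: p :: (B1 ++ B2)) T ∧ Un G (B1 ++ B2) [s, p] T := by
  obtain ⟨U, _, f, p, s, B1, B2, hf, rfl, rfl, rfl, rfl, hen⟩ := lift4 nd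
  have hadj : ∀ a b, (G.comap f).Adj a b ↔ G.Adj (f a) (f b) := fun _ _ => Iff.rfl
  have hF : F4 (G.comap f) s p B1 B2 := by
    refine ⟨h.adj, ?_, ?_, ?_, ?_, ?_⟩
    · intro z hz
      exact h.sub (hz.imp List.mem_map_of_mem List.mem_map_of_mem)
    · intro z hz
      exact h.n1 (List.mem_map_of_mem hz)
    · intro z hz
      exact h.n2 (List.mem_map_of_mem hz)
    · intro a b ha hb
      exact h.cl (List.mem_map_of_mem ha) (List.mem_map_of_mem hb)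
    · obtain ⟨b, hb, e⟩ := h.f
      obtain ⟨b', hb', rfl⟩ := List.mem_map.1 hb
      exact ⟨b', hb', e⟩
  obtain ⟨T, h1, h2⟩ := flip4E hen hF ((Val_map (fun _ _ _ _ e => hf e) (fun _ _ _ _ => hadj _ _)).2 (by
    rw [List.map_cons, List.map_cons, List.map_append]
    exact v))
  have k1 := vl_push hf hadj h1
  have k2 := un_push hf hadj h2
  rw [List.map_cons, List.map_cons, List.map_append] at k1
  rw [List.map_append] at k2
  exact ⟨_, k1, k2⟩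

/-- exchange, disjoint neighbourhoods -/
theorem flip2L {s p : V} {B1 B2 : List V} (nd : (p :: s :: (B1 ++ B2)).Nodup) (h : F2 G s p B1 B2)
    (v : Val G (p :: s :: (B1 ++ B2))) : Val G (s :: p :: (B1 ++ B2)) := by
  obtain ⟨U, _, f, p, s, B1, B2, hf, rfl, rfl, rfl, rfl, hen⟩ := lift4 nd
  have hadj : ∀ a b, (G.comap f).Adj a b ↔ G.Adj (f a) (f b) := fun _ _ => Iff.rfl
  have hF : F2 (G.comap f) s p B1 B2 := by
    refine ⟨h.adj, ?_, ?_⟩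
    · intro z hz
      exact h.n1 (List.mem_map_of_mem hz)
    · intro z hz
      exact h.n2 (List.mem_map_of_mem hz)
  have h1 := flip2E hen hF ((Val_map (fun _ _ _ _ e => hf e) (fun _ _ _ _ => hadj _ _)).2 (by
    rw [List.map_cons, List.map_cons, List.map_append]
    exact v))
  have k1 := (Val_map (G := G) (f := f) (fun _ _ _ _ e => hf e) (fun _ _ _ _ => hadj _ _)).1 h1
  rw [List.map_cons, List.map_cons, List.map_append] at k1
  exact k1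

end

end Pool.Agent.SOM
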