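import Pool.Agent.SOJ.Th

/-! Project SOM: the word 1212 is not valid, refutations (generated). -/

set_option autoImplicit false
set_option maxRecDepth 100000
set_option linter.unusedVariables false

namespace Pool.Agent.SOM

open Pool.Agent.SOJ Pool.Agent.SOC Pool.Agent.SOD Pool.Agent.RUP Pool.Agent.SOF Pool.Agent.SOG

/-- templates -/
def rw4_x : List Tm := [
  ⟨0, [], [], [.q true 0 8 10 9 11]⟩,
  ⟨0, [], [], [.q true 0 8 10 9 12]⟩,
  ⟨0, [], [], [.q true 0 8 10 9 13]⟩,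
  ⟨0, [], [], [.q true 0 8 11 9 12]⟩,
  ⟨0, [], [], [.q true 0 8 11 9 13]⟩,
  ⟨0, [], [], [.q true 0 8 12 9 13]⟩,
  ⟨0, [], [], [.q true 0 8 11 10 12]⟩,
  ⟨0, [], [], [.q true 0 8 11 10 13]⟩,
  ⟨0, [], [], [.q true 0 8 12 10 13]⟩,
  ⟨0, [], [], [.q true 0 8 12 11 13]⟩,
  ⟨0, [], [], [.q true 0 9 11 10 12]⟩,
  ⟨0, [], [], [.q true 0 9 11 10 13]⟩,
  ⟨0, [], [], [.q true 0 9 12 10 13]⟩,
  ⟨0, [], [], [.q true 0 9 12 11 13]⟩,
  ⟨0, [], [], [.q true 0 10 12 11 13]⟩,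
  ⟨0, [], [], [.b true 0 8 9]⟩,
  ⟨0, [], [], [.b false 0 8 10]⟩,
  ⟨0, [], [], [.b true 0 8 11]⟩,
  ⟨0, [], [], [.b false 0 8 12]⟩,
  ⟨0, [], [], [.b true 0 8 13]⟩,
  ⟨0, [], [], [.b true 0 9 10]⟩,
  ⟨0, [], [], [.b true 0 9 11]⟩,
  ⟨0, [], [], [.b true 0 9 12]⟩,
  ⟨0, [], [], [.b true 0 9 13]⟩,
  ⟨0, [], [], [.b true 0 10 11]⟩,
  ⟨0, [], [], [.b false 0 10 12]⟩,
  ⟨0, [], [], [.b true 0 10 13]⟩,
  ⟨0, [], [], [.b true 0 11 12]⟩,
  ⟨0, [], [], [.b true 0 11 13]⟩,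
  ⟨0, [], [], [.b true 0 12 13]⟩]

def rw4_p0 : List Nat := [
0x264003000000017029a000201,
0x62400b00000001702a7000201,
0x28600300000001d02e4000201,
0x4a2600700000000200000001f018b000301,
0x6a2800700000000600000002101b7000301,
0xa6800b00000000a03d3000201,
0x64a0090000000370369000201,
0x68200900000003b0321000201,
0x86200f00000001000000003900000001d00000004300ca000501,
0x28a4601500000000c00000000400000001203c5000401,
0xa6400f00000003900000000e000000008000000014022c000501,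
0x4b000000016000200]

def rw4_pf : List Nat := rw4_p0

theorem rw4_ref {V : Type} {S : SRel V} {p : Nat → V} (hp : ∀ i j, i < 6 → j < 6 → p i = p j → i = j)
    (hts : PHs S p 6 (oO ++ (oQ ++ rw4_x))) : False :=
  refuteS (k := 6) (n2 := 1) (n3 := 1) (n4 := 2) (o3 := 21) (o4 := 77) (M := 539) (oO ++ (oQ ++ rw4_x)) rw4_pf (by decide +kernel)
    (by decide +kernel) (by decide +kernel) (by decide +kernel) hp hts

theorem rw4 {V : Type} {G : SimpleGraph V} {X T : V → V → V → V → Prop} (h : Sepr X) (q : QT G X T)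
    {a b c d r t : V} (nd : [a, b, c, d, r, t].Nodup) 
    (g0 : X a c b d) (g1 : X a c b r) (g2 : X a c b t) (g3 : X a d b r) (g4 : X a d b t) (g5 : X a r b t) (g6 : X a d c r) (g7 : X a d c t) (g8 : X a r c t) (g9 : X a r d t) (g10 : X b d c r) (g11 : X b d c t) (g12 : X b r c t) (g13 : X b r d t) (g14 : X c r d t) (g15 : G.Adj a b) (g16 : ¬ G.Adj a c) (g17 : G.Adj a d) (g18 : ¬ G.Adj a r) (g19 : G.Adj a t) (g20 : G.Adj b c) (g21 : G.Adj b d) (g22 : G.Adj b r) (g23 : G.Adj b t) (g24 : G.Adj c d) (g25 : ¬ G.Adj c r) (g26 : G.Adj c t) (g27 : G.Adj d r) (g28 : G.Adj d t) (g29 : G.Adj r t) : False := by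
  refine rw4_ref (p := pt [a, b, c, d, r, t] a) (S := (oY h q).rel) (pt_inj nd rfl) ?_
  refine ((oO_h (Y := oY h q) h).phs _ _).app (((oQ_h (Y := oY h q) q).phs _ _).app ?_)
  exact (.cons (fun d hd h0 => h0 g0) (.cons (fun d hd h0 => h0 g1) (.cons (fun d hd h0 => h0 g2) (.cons (fun d hd h0 => h0 g3) (.cons (fun d hd h0 => h0 g4) (.cons (fun d hd h0 => h0 g5) (.cons (fun d hd h0 => h0 g6) (.cons (fun d hd h0 => h0 g7) (.cons (fun d hd h0 => h0 g8) (.cons (fun d hd h0 => h0 g9) (.cons (fun d hd h0 => h0 g10) (.cons (fun d hd h0 => h0 g11) (.cons (fun d hd h0 => h0 g12) (.cons (fun d hd h0 => h0 g13) (.cons (fun d hd h0 => h0 g14) (.cons (fun d hd h0 => h0 g15) (.cons (fun d hd h0 => g16 h0) (.cons (fun d hd h0 => h0 g17) (.cons (fun d hd h0 => g18 h0) (.cons (fun d hd h0 => h0 g19) (.cons (fun d hd h0 => h0 g20) (.cons (fun d hd h0 => h0 g21) (.cons (fun d hd h0 => h0 g22) (.cons (fun d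 hd h0 => h0 g23) (.cons (fun d hd h0 => h0 g24) (.cons (fun d hd h0 => g25 h0) (.cons (fun d hd h0 => h0 g26) (.cons (fun d hd h0 => h0 g27) (.cons (fun d hd h0 => h0 g28) (.cons (fun d hd h0 => h0 g29) .nil))))))))))))))))))))))))))))))

/-- templates -/
def rw2_x : List Tm := [
  ⟨0, [], [], [.q true 0 8 10 9 11]⟩,
  ⟨0, [], [], [.q true 0 8 10 9 12]⟩,
  ⟨0, [], [], [.q true 0 8 10 9 13]⟩,
  ⟨0, [], [], [.q true 0 8 11 9 12]⟩,
  ⟨0, [], [], [.q true 0 8 11 9 13]⟩,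
  ⟨0, [], [], [.q true 0 8 12 9 13]⟩,
  ⟨0, [], [], [.q true 0 8 11 10 12]⟩,
  ⟨0, [], [], [.q true 0 8 11 10 13]⟩,
  ⟨0, [], [], [.q true 0 8 12 10 13]⟩,
  ⟨0, [], [], [.q true 0 8 12 11 13]⟩,
  ⟨0, [], [], [.q true 0 9 11 10 12]⟩,
  ⟨0, [], [], [.q true 0 9 11 10 13]⟩,
  ⟨0, [], [], [.q true 0 9 12 10 13]⟩,
  ⟨0, [], [], [.q true 0 9 12 11 13]⟩,
  ⟨0, [], [], [.q true 0 10 12 11 13]⟩,
  ⟨0, [], [], [.b true 0 8 9]⟩,
  ⟨0, [], [], [.b false 0 8 10]⟩,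
  ⟨0, [], [], [.b true 0 8 11]⟩,
  ⟨0, [], [], [.b false 0 8 12]⟩,
  ⟨0, [], [], [.b true 0 8 13]⟩,
  ⟨0, [], [], [.b true 0 9 10]⟩,
  ⟨0, [], [], [.b false 0 9 11]⟩,
  ⟨0, [], [], [.b true 0 9 12]⟩,
  ⟨0, [], [], [.b false 0 9 13]⟩,
  ⟨0, [], [], [.b true 0 10 11]⟩,
  ⟨0, [], [], [.b false 0 10 12]⟩,
  ⟨0, [], [], [.b true 0 10 13]⟩,
  ⟨0, [], [], [.b true 0 11 12]⟩,
  ⟨0, [], [], [.b false 0 11 13]⟩,
  ⟨0, [], [], [.b true 0 12 13]⟩]

def rw2_p0 : List Nat := [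
0x264003000000017029a000201,
0x62400b00000001702a7000201,
0x28600300000001d02e4000201,
0x4a2600700000000200000001f018b000301,
0x6a2800700000000600000002101b7000301,
0xa6800b00000000a03d3000201,
0x64a0090000000370369000201,
0x68200900000003b0321000201,
0x86200f00000001000000003900000001d00000004300ca000501,
0x28a4601500000000c00000000400000001203c5000401,
0xa6400f00000003900000000e000000008000000014022c000501,
0x4b000000016000200]

def rw2_pf : List Nat := rw2_p0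

theorem rw2_ref {V : Type} {S : SRel V} {p : Nat → V} (hp : ∀ i j, i < 6 → j < 6 → p i = p j → i = j)
    (hts : PHs S p 6 (oO ++ (oQ ++ rw2_x))) : False :=
  refuteS (k := 6) (n2 := 1) (n3 := 1) (n4 := 2) (o3 := 21) (o4 := 77) (M := 539) (oO ++ (oQ ++ rw2_x)) rw2_pf (by decide +kernel)
    (by decide +kernel) (by decide +kernel) (by decide +kernel) hp hts

theorem rw2 {V : Type} {G : SimpleGraph V} {X T : V → V → V → V → Prop} (h : Sepr X) (q : QT G X T)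
    {a b c d r t : V} (nd : [a, b, c, d, r, t].Nodup) 
    (g0 : X a c b d) (g1 : X a c b r) (g2 : X a c b t) (g3 : X a d b r) (g4 : X a d b t) (g5 : X a r b t) (g6 : X a d c r) (g7 : X a d c t) (g8 : X a r c t) (g9 : X a r d t) (g10 : X b d c r) (g11 : X b d c t) (g12 : X b r c t) (g13 : X b r d t) (g14 : X c r d t) (g15 : G.Adj a b) (g16 : ¬ G.Adj a c) (g17 : G.Adj a d) (g18 : ¬ G.Adj a r) (g19 : G.Adj a t) (g20 : G.Adj b c) (g21 : ¬ G.Adj b d) (g22 : G.Adj b r) (g23 : ¬ G.Adj b t) (g24 : G.Adj c d) (g25 : ¬ G.Adj c r) (g26 : G.Adj c t) (g27 : G.Adj d r) (g28 : ¬ G.Adj d t) (g29 : G.Adj r t) : False := by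
  refine rw2_ref (p := pt [a, b, c, d, r, t] a) (S := (oY h q).rel) (pt_inj nd rfl) ?_
  refine ((oO_h (Y := oY h q) h).phs _ _).app (((oQ_h (Y := oY h q) q).phs _ _).app ?_)
  exact (.cons (fun d hd h0 => h0 g0) (.cons (fun d hd h0 => h0 g1) (.cons (fun d hd h0 => h0 g2) (.cons (fun d hd h0 => h0 g3) (.cons (fun d hd h0 => h0 g4) (.cons (fun d hd h0 => h0 g5) (.cons (fun d hd h0 => h0 g6) (.cons (fun d hd h0 => h0 g7) (.cons (fun d hd h0 => h0 g8) (.cons (fun d hd h0 => h0 g9) (.cons (fun d hd h0 => h0 g10) (.cons (fun d hd h0 => h0 g11) (.cons (fun d hd h0 => h0 g12) (.cons (fun d hd h0 => h0 g13) (.cons (fun d hd h0 => h0 g14) (.cons (fun d hd h0 => h0 g15) (.cons (fun d hd h0 => g16 h0) (.cons (fun d hd h0 => h0 g17) (.cons (fun d hd h0 => g18 h0) (.cons (fun d hd h0 => h0 g19) (.cons (fun d hd h0 => h0 g20) (.cons (fun d hd h0 => g21 h0) (.cons (fun d hd h0 => h0 g22) (.cons (fun d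 hd h0 => g23 h0) (.cons (fun d hd h0 => h0 g24) (.cons (fun d hd h0 => g25 h0) (.cons (fun d hd h0 => h0 g26) (.cons (fun d hd h0 => h0 g27) (.cons (fun d hd h0 => g28 h0) (.cons (fun d hd h0 => h0 g29) .nil))))))))))))))))))))))))))))))

end Pool.Agent.SOM
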